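import Pool.Agent.Q261.L6.Hybrid
import Pool.Agent.Q261.DR.Apply

set_option autoImplicit false

namespace Pool.Agent.Q261.L6

open Finset
open Pool.Agent.Q261.DR (ad DD TW TW_eq)

/-- for all but a proportion `N^(-ε)` of the twists the sixth moment is small, for all `T` and all
`1`-separated sets at once -/
theorem almost6 {ε : ℝ} (hε : 0 < ε) : ∃ C : ℝ, 1 ≤ C ∧ ∀ (N q : ℕ), 1 ≤ N → 1 ≤ q →
    ∀ b : ℕ → ℂ, (∀ n, ‖b n‖ ≤ 1) → ∃ B : Finset ℕ, B ⊆ range q ∧ (B.card : ℝ) ≤ q * (N : ℝ) ^ (-ε) ∧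
      ∀ a ∈ range q, a ∉ B → ∀ T : ℝ, 1 ≤ T → ∀ S : Finset ℝ,
        (∀ t ∈ S, 0 ≤ t ∧ t ≤ T) → (∀ t ∈ S, ∀ u ∈ S, t ≠ u → 1 ≤ |t - u|) →
        q * ∑ t ∈ S, ‖DD N q a b t‖ ^ 6 ≤
          C * (N : ℝ) ^ (2 * ε) * T ^ ε * ((q + N) * (T + (N : ℝ) ^ 2) * (N : ℝ) ^ 3) := by
  classical
  obtain ⟨C1, hC1, hyb⟩ := hybrid6 hε
  have h2ε : (1 : ℝ) < 2 ^ ε := Real.one_lt_rpow (by norm_num) hε
  have h2ε0 : (0 : ℝ) < 2 ^ ε := by linarith
  set ρ : ℝ := (2 ^ ε)⁻¹ with hρ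
  have hρ0 : 0 < ρ := by positivity
  have hρ1 : ρ < 1 := inv_lt_one_of_one_lt₀ h2ε
  set K : ℝ := 1 / (1 - ρ) with hK
  have hK1 : 1 ≤ K := by
    rw [hK, one_le_div (by linarith)]
    linarith
  refine ⟨2 * 2 ^ ε * (C1 * K), ?_, ?_⟩
  · have h1 : 1 ≤ C1 * K := one_le_mul_of_one_le_of_one_le hC1 hK1
    nlinarith
  intro N q hN hq b hb
  have hNr : (1 : ℝ) ≤ N := by exact_mod_cast hN
  have hN0 : (0 : ℝ) < N := by linarith
  have hqr : (1 : ℝ) ≤ q := by exact_mod_cast hq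
  have hq0 : (0 : ℝ) < q := by linarith
  obtain ⟨X, hX⟩ : ∃ X : ℝ → ℝ, X = fun T => (q + N) * (T + (N : ℝ) ^ 2) * (N : ℝ) ^ 3 := ⟨_, rfl⟩
  obtain ⟨L, hL⟩ : ∃ L : ℝ, L = C1 * K * (N : ℝ) ^ (2 * ε) := ⟨_, rfl⟩
  have hL0 : 0 < L := by rw [hL]; positivity
  have hpow : ∀ j : ℕ, ((2 : ℝ) ^ j) ^ ε = (2 ^ ε) ^ j := by
    intro j
    rw [← Real.rpow_natCast, ← Real.rpow_natCast, ← Real.rpow_mul (by norm_num), ← Real.rpow_mul (by norm_num), mul_comm]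
  obtain ⟨Bj, hBj⟩ : ∃ Bj : ℕ → Finset ℕ, Bj = fun j => (range q).filter (fun a => ∃ S : Finset ℝ,
      (∀ t ∈ S, 0 ≤ t ∧ t ≤ (2 : ℝ) ^ j) ∧ (∀ t ∈ S, ∀ u ∈ S, t ≠ u → 1 ≤ |t - u|) ∧
      L * (2 ^ ε) ^ j * X (2 ^ j) < q * ∑ t ∈ S, ‖DD N q a b t‖ ^ 6) := ⟨_, rfl⟩
  have hBcard : ∀ j, ((Bj j).card : ℝ) ≤ q * (N : ℝ) ^ (-ε) * (ρ ^ j / K) := by
    intro j
    have h1 : ∀ a, ∃ S : Finset ℝ, (∀ t ∈ S, 0 ≤ t ∧ t ≤ (2 : ℝ) ^ j) ∧
        (∀ t ∈ S, ∀ u ∈ S, t ≠ u → 1 ≤ |t - u|) ∧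
        (a ∈ Bj j → L * (2 ^ ε) ^ j * X (2 ^ j) < q * ∑ t ∈ S, ‖DD N q a b t‖ ^ 6) := by
      intro a
      by_cases ha : a ∈ Bj j
      · have h2 := ha
        rw [hBj] at h2
        beta_reduce at h2
        rw [mem_filter] at h2
        obtain ⟨S, hS1, hS2, hS3⟩ := h2.2
        exact ⟨S, hS1, hS2, fun _ => hS3⟩
      · exact ⟨∅, by simp, by simp, fun h => absurd h ha⟩
    choose S hS1 hS2 hS3 using h1
    have hT : (1 : ℝ) ≤ 2 ^ j := one_le_pow₀ (by norm_num)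
    have h2 := hyb N q hN hq (2 ^ j) hT b hb S hS1 hS2
    have hXj : 0 < X (2 ^ j) := by rw [hX]; positivity
    have h3 : ((Bj j).card : ℝ) * (L * (2 ^ ε) ^ j * X (2 ^ j)) ≤ q * (C1 * (N : ℝ) ^ ε * X (2 ^ j)) := by
      calc ((Bj j).card : ℝ) * (L * (2 ^ ε) ^ j * X (2 ^ j)) = ∑ a ∈ Bj j, L * (2 ^ ε) ^ j * X (2 ^ j) := by
            rw [sum_const, nsmul_eq_mul]
        _ ≤ ∑ a ∈ Bj j, q * ∑ t ∈ S a, ‖DD N q a b t‖ ^ 6 :=
            sum_le_sum fun a ha => (hS3 a ha).le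
        _ ≤ ∑ a ∈ range q, q * ∑ t ∈ S a, ‖DD N q a b t‖ ^ 6 := by
            apply sum_le_sum_of_subset_of_nonneg
            · rw [hBj]
              exact filter_subset _ _
            · intro a _ _
              positivity
        _ = q * ∑ a ∈ range q, ∑ t ∈ S a, ‖DD N q a b t‖ ^ 6 := by rw [mul_sum]
        _ ≤ q * (C1 * (N : ℝ) ^ ε * X (2 ^ j)) := by
            apply mul_le_mul_of_nonneg_left _ hq0.le
            refine h2.trans (le_of_eq ?_)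
            rw [hX]
            ring
    have h4 : (((Bj j).card : ℝ) * (L * (2 ^ ε) ^ j)) * X (2 ^ j) ≤ (q * (C1 * (N : ℝ) ^ ε)) * X (2 ^ j) := by linarith
    have h5 := le_of_mul_le_mul_right h4 hXj
    have h6 : q * (N : ℝ) ^ (-ε) * (ρ ^ j / K) = (q * (C1 * (N : ℝ) ^ ε)) / (L * (2 ^ ε) ^ j) := by
      rw [hL, hρ, inv_pow]
      have e1 : (N : ℝ) ^ (2 * ε) = (N : ℝ) ^ ε * (N : ℝ) ^ ε := by
        rw [← Real.rpow_add hN0]
        congr 1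
        ring
      rw [e1, Real.rpow_neg hN0.le]
      have e2 : (N : ℝ) ^ ε ≠ 0 := (Real.rpow_pos_of_pos hN0 _).ne'
      have e3 : K ≠ 0 := by linarith
      have e4 : C1 ≠ 0 := by linarith
      have e5 : ((2 : ℝ) ^ ε) ^ j ≠ 0 := by positivity
      field_simp
    rw [h6, le_div_iff₀ (by positivity)]
    exact h5
  refine ⟨(range q).filter (fun a => ∃ j, a ∈ Bj j), filter_subset _ _, ?_, ?_⟩
  · -- choose one scale for each exceptional twist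
    have h1 : ∀ a, ∃ j : ℕ, (∃ j, a ∈ Bj j) → a ∈ Bj j := by
      intro a
      by_cases h : ∃ j, a ∈ Bj j
      · obtain ⟨j, hj⟩ := h
        exact ⟨j, fun _ => hj⟩
      · exact ⟨0, fun h' => absurd h' h⟩
    choose J hJ using h1
    obtain ⟨m, hm⟩ : ∃ m : ℕ, ∀ a ∈ range q, J a ≤ m := ⟨(range q).sup J, fun a ha => le_sup ha⟩
    have h2 : (range q).filter (fun a => ∃ j, a ∈ Bj j) ⊆ (range (m + 1)).biUnion Bj := by
      intro a ha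
      rw [mem_filter] at ha
      rw [mem_biUnion]
      refine ⟨J a, ?_, hJ a ha.2⟩
      rw [mem_range]
      have := hm a ha.1
      omega
    have h3 : (((range q).filter (fun a => ∃ j, a ∈ Bj j)).card : ℝ) ≤ ∑ j ∈ range (m + 1), ((Bj j).card : ℝ) := by
      exact_mod_cast (card_le_card h2).trans card_biUnion_le
    refine h3.trans ?_
    calc ∑ j ∈ range (m + 1), ((Bj j).card : ℝ) ≤ ∑ j ∈ range (m + 1), q * (N : ℝ) ^ (-ε) * (ρ ^ j / K) :=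
          sum_le_sum fun j _ => hBcard j
      _ = q * (N : ℝ) ^ (-ε) * ((∑ j ∈ range (m + 1), ρ ^ j) / K) := by
          rw [← mul_sum, ← sum_div]
      _ ≤ q * (N : ℝ) ^ (-ε) * 1 := by
          apply mul_le_mul_of_nonneg_left _ (by positivity)
          rw [div_le_one (by linarith), geom_sum_eq hρ1.ne, hK]
          rw [← neg_div_neg_eq, neg_sub, neg_sub]
          apply div_le_div_of_nonneg_right _ (by linarith)
          have : 0 < ρ ^ (m + 1) := by positivity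
          linarith
      _ = _ := by ring
  · intro a ha haB T hT S hS hsep
    by_contra hcon
    push Not at hcon
    obtain ⟨n, hn1, hn2⟩ := exists_nat_pow_near hT (show (1 : ℝ) < 2 by norm_num)
    apply haB
    rw [mem_filter]
    refine ⟨ha, n + 1, ?_⟩
    rw [hBj]
    beta_reduce
    rw [mem_filter]
    refine ⟨ha, S, ?_, hsep, ?_⟩
    · intro t ht
      exact ⟨(hS t ht).1, (hS t ht).2.trans hn2.le⟩
    · refine lt_of_le_of_lt ?_ hcon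
      have hT0 : 0 < T := by linarith
      have h3 : (2 : ℝ) ^ (n + 1) ≤ 2 * T := by
        rw [pow_succ]
        linarith
      have h4 : X (2 ^ (n + 1)) ≤ 2 * ((q + N) * (T + (N : ℝ) ^ 2) * (N : ℝ) ^ 3) := by
        rw [hX]
        beta_reduce
        have h5 : 2 ^ (n + 1) + (N : ℝ) ^ 2 ≤ 2 * (T + (N : ℝ) ^ 2) := by
          have : 0 ≤ (N : ℝ) ^ 2 := by positivity
          linarith
        calc (q + N) * (2 ^ (n + 1) + (N : ℝ) ^ 2) * (N : ℝ) ^ 3 ≤ (q + N) * (2 * (T + (N : ℝ) ^ 2)) * (N : ℝ) ^ 3 := by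
              gcongr
          _ = _ := by ring
      have h5 : ((2 : ℝ) ^ ε) ^ (n + 1) ≤ 2 ^ ε * T ^ ε := by
        rw [← hpow, ← Real.mul_rpow (by norm_num) hT0.le]
        exact Real.rpow_le_rpow (by positivity) h3 hε.le
      have hY0 : 0 ≤ (q + N) * (T + (N : ℝ) ^ 2) * (N : ℝ) ^ 3 := by positivity
      have hX0 : 0 ≤ X (2 ^ (n + 1)) := by rw [hX]; positivity
      calc L * (2 ^ ε) ^ (n + 1) * X (2 ^ (n + 1)) ≤ L * (2 ^ ε * T ^ ε) * X (2 ^ (n + 1)) := by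
            apply mul_le_mul_of_nonneg_right _ hX0
            exact mul_le_mul_of_nonneg_left h5 hL0.le
        _ ≤ L * (2 ^ ε * T ^ ε) * (2 * ((q + N) * (T + (N : ℝ) ^ 2) * (N : ℝ) ^ 3)) :=
            mul_le_mul_of_nonneg_left h4 (by positivity)
        _ = _ := by
            rw [hL]
            ring

/-- the sixth moment bound for almost all twists, polynomials over `I ⊆ [1, 2N]` -/
theorem sixthTW {ε : ℝ} (hε : 0 < ε) : ∃ C : ℝ, 1 ≤ C ∧ ∀ (N q : ℕ), 1 ≤ N → 1 ≤ q →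
    ∀ (I : Finset ℕ), I ⊆ Icc 1 (2 * N) → ∀ b : ℕ → ℂ, (∀ n, ‖b n‖ ≤ 1) →
    ∃ B : Finset ℕ, B ⊆ range q ∧ (B.card : ℝ) ≤ q * (N : ℝ) ^ (-ε) ∧
      ∀ a ∈ range q, a ∉ B → ∀ T : ℝ, 1 ≤ T → ∀ S : Finset ℝ,
        (∀ t ∈ S, 0 ≤ t ∧ t ≤ T) → (∀ t ∈ S, ∀ u ∈ S, t ≠ u → 1 ≤ |t - u|) →
        ∑ t ∈ S, ‖TW I q a b t‖ ^ 6 ≤
          C * (N : ℝ) ^ (2 * ε) * T ^ ε * ((1 + N / q) * ((N : ℝ) ^ 3 * (T + (N : ℝ) ^ 2))) := by
  classical
  obtain ⟨C, hC, halm⟩ := almost6 hε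
  have h22 : (1 : ℝ) ≤ 2 ^ (2 * ε) := Real.one_le_rpow (by norm_num) (by positivity)
  refine ⟨64 * 2 ^ (2 * ε) * C, by nlinarith, ?_⟩
  intro N q hN hq I hI b hb
  have hNr : (1 : ℝ) ≤ N := by exact_mod_cast hN
  have hN0 : (0 : ℝ) < N := by linarith
  have hqr : (1 : ℝ) ≤ q := by exact_mod_cast hq
  have hq0 : (0 : ℝ) < q := by linarith
  have hb' : ∀ n, ‖(fun n => if n ∈ I then b n else 0) n‖ ≤ 1 := by
    intro n
    beta_reduce
    split_ifs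
    · exact hb n
    · simp
  obtain ⟨B, hB1, hB2, hB3⟩ := halm (2 * N) q (by omega) hq (fun n => if n ∈ I then b n else 0) hb'
  refine ⟨B, hB1, ?_, ?_⟩
  · refine hB2.trans ?_
    apply mul_le_mul_of_nonneg_left _ (by positivity)
    apply Real.rpow_le_rpow_of_nonpos hN0
    · push_cast
      linarith
    · linarith
  · intro a ha haB T hT S hS hsep
    have h1 := hB3 a ha haB T hT S hS hsep
    have h2 : ∀ t ∈ S, ‖TW I q a b t‖ ^ 6 = ‖DD (2 * N) q a (fun n => if n ∈ I then b n else 0) t‖ ^ 6 := by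
      intro t _
      rw [TW_eq I (2 * N) hI]
    rw [sum_congr rfl h2]
    push_cast at h1
    have h4 : ((2 : ℝ) * N) ^ (2 * ε) = 2 ^ (2 * ε) * (N : ℝ) ^ (2 * ε) := Real.mul_rpow (by norm_num) hN0.le
    rw [h4] at h1
    have hT0 : 0 < T := by linarith
    have h5 : (q + 2 * (N : ℝ)) * (T + (2 * N) ^ 2) * (2 * N) ^ 3 ≤
        64 * (q * ((1 + N / q) * ((N : ℝ) ^ 3 * (T + (N : ℝ) ^ 2)))) := by
      have h6 : q + 2 * (N : ℝ) ≤ 2 * (q * (1 + N / q)) := by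
        have : (q : ℝ) * (1 + N / q) = q + N := by field_simp
        rw [this]
        linarith
      have h7 : T + (2 * (N : ℝ)) ^ 2 ≤ 4 * (T + (N : ℝ) ^ 2) := by nlinarith
      calc (q + 2 * (N : ℝ)) * (T + (2 * N) ^ 2) * (2 * N) ^ 3 ≤
            (2 * (q * (1 + N / q))) * (4 * (T + (N : ℝ) ^ 2)) * (2 * N) ^ 3 := by gcongr
        _ = _ := by ring
    have h8 : (q : ℝ) * ∑ t ∈ S, ‖DD (2 * N) q a (fun n => if n ∈ I then b n else 0) t‖ ^ 6 ≤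
        q * (64 * 2 ^ (2 * ε) * C * (N : ℝ) ^ (2 * ε) * T ^ ε * ((1 + N / q) * ((N : ℝ) ^ 3 * (T + (N : ℝ) ^ 2)))) := by
      refine h1.trans ?_
      calc C * (2 ^ (2 * ε) * (N : ℝ) ^ (2 * ε)) * T ^ ε * ((q + 2 * (N : ℝ)) * (T + (2 * N) ^ 2) * (2 * N) ^ 3) ≤
            C * (2 ^ (2 * ε) * (N : ℝ) ^ (2 * ε)) * T ^ ε *
              (64 * (q * ((1 + N / q) * ((N : ℝ) ^ 3 * (T + (N : ℝ) ^ 2))))) := by
            gcongr
        _ = _ := by ring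
    exact le_of_mul_le_mul_left h8 hq0

end Pool.Agent.Q261.L6
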