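import Pool.Agent.Q261.DR.Moment

set_option autoImplicit false

/-! Exponential sums over the points `(n, ψ n)`, averaged over a large finite group. -/

namespace Pool.Agent.Q261.L6

open Finset
open Pool.Agent.Q261.DR (ad ad_add ad_conj ad_norm ad_sum)

/-- the finite torus -/
def Om (m : ℕ) : Finset (ℕ × ℕ) := range m ×ˢ range m

/-- the character `(u, v)` -/
noncomputable def ph (m : ℕ) (u v : ℤ) (ω : ℕ × ℕ) : ℂ := ad m (ω.1 * u + ω.2 * v)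

lemma ph_norm (m : ℕ) (u v : ℤ) (ω : ℕ × ℕ) : ‖ph m u v ω‖ = 1 := ad_norm _ _

lemma ph_mul (m : ℕ) (u v u' v' : ℤ) (ω : ℕ × ℕ) :
    ph m u v ω * ph m u' v' ω = ph m (u + u') (v + v') ω := by
  unfold ph
  rw [← ad_add]
  congr 1
  ring

lemma ph_conj (m : ℕ) (u v : ℤ) (ω : ℕ × ℕ) :
    (starRingEnd ℂ) (ph m u v ω) = ph m (-u) (-v) ω := by
  unfold ph
  rw [ad_conj]
  congr 1
  ring

lemma ph_sum (m : ℕ) (hm : 1 ≤ m) (u v : ℤ) :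
    ∑ ω ∈ Om m, ph m u v ω = if (m : ℤ) ∣ u ∧ (m : ℤ) ∣ v then (m : ℂ) ^ 2 else 0 := by
  unfold Om ph
  rw [sum_product]
  have h1 : ∀ a ∈ range m, ∑ b ∈ range m, ad m ((((a, b) : ℕ × ℕ).1 : ℤ) * u + (((a, b) : ℕ × ℕ).2 : ℤ) * v) =
      ad m (a * u) * (if (m : ℤ) ∣ v then (m : ℂ) else 0) := by
    intro a _
    rw [← ad_sum m hm v, mul_sum]
    apply sum_congr rfl
    intro b _
    rw [ad_add]
  rw [sum_congr rfl h1, ← sum_mul, ad_sum m hm u]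
  by_cases hu : (m : ℤ) ∣ u <;> by_cases hv : (m : ℤ) ∣ v <;> simp [hu, hv, sq]

/-- the exponential sum -/
noncomputable def fS (m : ℕ) (ψ : ℤ → ℤ) (c : ℤ → ℂ) (S : Finset ℤ) (ω : ℕ × ℕ) : ℂ :=
  ∑ n ∈ S, c n * ph m n (ψ n) ω

/-- the square of the `ℓ²` norm of the coefficients -/
noncomputable def e2 (c : ℤ → ℂ) (S : Finset ℤ) : ℝ := ∑ n ∈ S, ‖c n‖ ^ 2

lemma e2_nonneg (c : ℤ → ℂ) (S : Finset ℤ) : 0 ≤ e2 c S := sum_nonneg fun _ _ => by positivity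

/-- no wrap around -/
def Gd (m : ℕ) (ψ : ℤ → ℤ) (S : Finset ℤ) : Prop :=
  1 ≤ m ∧ ∀ n ∈ S, 6 * |n| < m ∧ 6 * |ψ n| < m

lemma Gd.mono {m : ℕ} {ψ : ℤ → ℤ} {S S' : Finset ℤ} (h : Gd m ψ S) (hS : S' ⊆ S) : Gd m ψ S' :=
  ⟨h.1, fun n hn => h.2 n (hS hn)⟩

lemma norm_sq_mul_conj (z : ℂ) : ((‖z‖ ^ 2 : ℝ) : ℂ) = z * (starRingEnd ℂ) z := by
  rw [Complex.mul_conj, Complex.normSq_eq_norm_sq]

lemma norm4 (z : ℂ) : ((‖z‖ ^ 4 : ℝ) : ℂ) = (z * (starRingEnd ℂ) z) * (z * (starRingEnd ℂ) z) := by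
  rw [← norm_sq_mul_conj]
  push_cast
  ring

/-- the square of the modulus as a sum over pairs -/
lemma fS_sq (m : ℕ) (ψ : ℤ → ℤ) (c : ℤ → ℂ) (S : Finset ℤ) (ω : ℕ × ℕ) :
    fS m ψ c S ω * (starRingEnd ℂ) (fS m ψ c S ω) =
      ∑ p ∈ S ×ˢ S, (c p.1 * (starRingEnd ℂ) (c p.2)) * ph m (p.1 - p.2) (ψ p.1 - ψ p.2) ω := by
  unfold fS
  rw [map_sum, sum_mul_sum, sum_product]
  apply sum_congr rfl
  intro x _
  apply sum_congr rfl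
  intro y _
  rw [map_mul, ph_conj]
  have := ph_mul m x (ψ x) (-y) (-ψ y) ω
  rw [← sub_eq_add_neg, ← sub_eq_add_neg] at this
  rw [← this]
  ring

lemma no_wrap {m : ℕ} {a : ℤ} (h : (m : ℤ) ∣ a) (ha : |a| < m) : a = 0 :=
  Int.eq_zero_of_abs_lt_dvd h ha

/-- the fourth power of the modulus as a sum -/
lemma fS_four (m : ℕ) (ψ : ℤ → ℤ) (c : ℤ → ℂ) (S : Finset ℤ) (ω : ℕ × ℕ) :
    ((‖fS m ψ c S ω‖ ^ 4 : ℝ) : ℂ) =
      ∑ p ∈ S ×ˢ S, ∑ r ∈ S ×ˢ S, ((c p.1 * (starRingEnd ℂ) (c p.2)) * (c r.1 * (starRingEnd ℂ) (c r.2))) *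
        ph m ((p.1 - p.2) + (r.1 - r.2)) ((ψ p.1 - ψ p.2) + (ψ r.1 - ψ r.2)) ω := by
  rw [norm4, fS_sq, sum_mul_sum]
  apply sum_congr rfl
  intro p _
  apply sum_congr rfl
  intro r _
  rw [← ph_mul]
  ring

/-- the vanishing of far pairs -/
lemma far_zero {m : ℕ} {ψ : ℤ → ℤ} {S0 S2 : Finset ℤ} (hg : Gd m ψ S0) (hS : S2 ⊆ S0) {x y : ℤ}
    (hx : x ∈ S0) (hy : y ∈ S0) (c : ℤ → ℂ)
    (hfar : ∀ u1 ∈ S2, ∀ v1 ∈ S2, ∀ u2 ∈ S2, ∀ v2 ∈ S2, (x - y) + ((u1 - v1) + (u2 - v2)) = 0 →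
      (ψ x - ψ y) + ((ψ u1 - ψ v1) + (ψ u2 - ψ v2)) = 0 → False) :
    ∑ ω ∈ Om m, (ph m x (ψ x) ω * (starRingEnd ℂ) (ph m y (ψ y) ω)) *
      ((‖fS m ψ c S2 ω‖ ^ 4 : ℝ) : ℂ) = 0 := by
  have h1 : ∀ ω ∈ Om m, (ph m x (ψ x) ω * (starRingEnd ℂ) (ph m y (ψ y) ω)) *
      ((‖fS m ψ c S2 ω‖ ^ 4 : ℝ) : ℂ) = ∑ p ∈ S2 ×ˢ S2, ∑ r ∈ S2 ×ˢ S2,
        ((c p.1 * (starRingEnd ℂ) (c p.2)) * (c r.1 * (starRingEnd ℂ) (c r.2))) *
        ph m ((x - y) + ((p.1 - p.2) + (r.1 - r.2))) ((ψ x - ψ y) + ((ψ p.1 - ψ p.2) + (ψ r.1 - ψ r.2))) ω := by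
    intro ω _
    rw [fS_four, mul_sum]
    apply sum_congr rfl
    intro p _
    rw [mul_sum]
    apply sum_congr rfl
    intro r _
    rw [ph_conj, ph_mul, ← ph_mul m (x - y) (ψ x - ψ y)]
    rw [← sub_eq_add_neg, ← sub_eq_add_neg]
    ring
  rw [sum_congr rfl h1, sum_comm]
  apply sum_eq_zero
  intro p hp
  rw [sum_comm]
  apply sum_eq_zero
  intro r hr
  rw [← mul_sum, ph_sum m hg.1]
  rw [mem_product] at hp hr
  have hu1 := hg.2 p.1 (hS hp.1)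
  have hv1 := hg.2 p.2 (hS hp.2)
  have hu2 := hg.2 r.1 (hS hr.1)
  have hv2 := hg.2 r.2 (hS hr.2)
  have hx' := hg.2 x hx
  have hy' := hg.2 y hy
  rw [if_neg, mul_zero]
  rintro ⟨ha, hb⟩
  refine hfar p.1 hp.1 p.2 hp.2 r.1 hr.1 r.2 hr.2 (no_wrap ha ?_) (no_wrap hb ?_)
  · have a1 := abs_lt.1 (show |x| < (m : ℤ) by have := abs_nonneg x; omega)
    rw [abs_lt]
    have e1 := abs_le.1 (le_refl |x|)
    have e2 := abs_le.1 (le_refl |y|)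
    have e3 := abs_le.1 (le_refl |p.1|)
    have e4 := abs_le.1 (le_refl |p.2|)
    have e5 := abs_le.1 (le_refl |r.1|)
    have e6 := abs_le.1 (le_refl |r.2|)
    constructor <;> omega
  · rw [abs_lt]
    have e1 := abs_le.1 (le_refl |ψ x|)
    have e2 := abs_le.1 (le_refl |ψ y|)
    have e3 := abs_le.1 (le_refl |ψ p.1|)
    have e4 := abs_le.1 (le_refl |ψ p.2|)
    have e5 := abs_le.1 (le_refl |ψ r.1|)
    have e6 := abs_le.1 (le_refl |ψ r.2|)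
    constructor <;> omega

/-- orthogonality -/
lemma second {m : ℕ} {ψ : ℤ → ℤ} {S : Finset ℤ} (hg : Gd m ψ S) (c : ℤ → ℂ) :
    ∑ ω ∈ Om m, ‖fS m ψ c S ω‖ ^ 2 = m ^ 2 * e2 c S := by
  have h1 : ((∑ ω ∈ Om m, ‖fS m ψ c S ω‖ ^ 2 : ℝ) : ℂ) = ((m ^ 2 * e2 c S : ℝ) : ℂ) := by
    push_cast
    have h2 : ∀ ω ∈ Om m, ((‖fS m ψ c S ω‖ : ℂ)) ^ 2 = ∑ p ∈ S ×ˢ S,
        (c p.1 * (starRingEnd ℂ) (c p.2)) * ph m (p.1 - p.2) (ψ p.1 - ψ p.2) ω := by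
      intro ω _
      rw [← fS_sq, ← norm_sq_mul_conj]
      push_cast
      rfl
    rw [sum_congr rfl h2, sum_comm]
    have h3 : ∀ p ∈ S ×ˢ S, ∑ ω ∈ Om m, (c p.1 * (starRingEnd ℂ) (c p.2)) *
        ph m (p.1 - p.2) (ψ p.1 - ψ p.2) ω =
        if p.1 = p.2 then (m : ℂ) ^ 2 * (‖c p.1‖ : ℂ) ^ 2 else 0 := by
      intro p hp
      rw [mem_product] at hp
      rw [← mul_sum, ph_sum m hg.1]
      by_cases h : p.1 = p.2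
      · rw [if_pos h, h, sub_self, sub_self, if_pos ⟨dvd_zero _, dvd_zero _⟩, ← norm_sq_mul_conj]
        push_cast
        ring
      · rw [if_neg h, if_neg, mul_zero]
        rintro ⟨ha, -⟩
        apply h
        have hu := (hg.2 _ hp.1).1
        have hv := (hg.2 _ hp.2).1
        have := no_wrap ha (by
          rw [abs_lt]
          have e1 := abs_le.1 (le_refl |p.1|)
          have e2 := abs_le.1 (le_refl |p.2|)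
          constructor <;> omega)
        omega
    rw [sum_congr rfl h3, sum_product]
    unfold e2
    push_cast
    rw [mul_sum]
    apply sum_congr rfl
    intro x hx
    rw [sum_ite_eq, if_pos hx]
  exact_mod_cast h1

/-- Cauchy's inequality for the values -/
lemma fS_le (m : ℕ) (ψ : ℤ → ℤ) (c : ℤ → ℂ) (S : Finset ℤ) (ω : ℕ × ℕ) :
    ‖fS m ψ c S ω‖ ^ 2 ≤ S.card * e2 c S := by
  have h1 : ‖fS m ψ c S ω‖ ≤ ∑ n ∈ S, ‖c n‖ := by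
    unfold fS
    refine (norm_sum_le _ _).trans (sum_le_sum fun n _ => ?_)
    rw [norm_mul, ph_norm, mul_one]
  have h2 : (∑ n ∈ S, ‖c n‖) ^ 2 ≤ S.card * ∑ n ∈ S, ‖c n‖ ^ 2 := sq_sum_le_card_mul_sum_sq
  calc ‖fS m ψ c S ω‖ ^ 2 ≤ (∑ n ∈ S, ‖c n‖) ^ 2 := pow_le_pow_left₀ (norm_nonneg _) h1 2
    _ ≤ _ := h2

end Pool.Agent.Q261.L6
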