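import Pool.Agent.Q261.L6.Base

set_option autoImplicit false

namespace Pool.Agent.Q261.L6

open Finset
open Pool.Agent.Q261.DR (ad ad_add ad_conj ad_norm ad_sum)

/-- the part of `S` with the label `k` -/
def cell (l : ℤ → ℤ) (S : Finset ℤ) (k : ℤ) : Finset ℤ := S.filter fun x => l x = k

lemma cell_sub (l : ℤ → ℤ) (S : Finset ℤ) (k : ℤ) : cell l S k ⊆ S := filter_subset _ _

lemma mem_cell {l : ℤ → ℤ} {S : Finset ℤ} {k x : ℤ} : x ∈ cell l S k ↔ x ∈ S ∧ l x = k := by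
  unfold cell; rw [mem_filter]

lemma fS_cells (m : ℕ) (ψ : ℤ → ℤ) (c : ℤ → ℂ) (S : Finset ℤ) (l : ℤ → ℤ) (ω : ℕ × ℕ) :
    fS m ψ c S ω = ∑ k ∈ S.image l, fS m ψ c (cell l S k) ω := by
  unfold fS cell
  rw [sum_fiberwise_of_maps_to (fun x hx => mem_image_of_mem l hx)]

lemma e2_cells (c : ℤ → ℂ) (S : Finset ℤ) (l : ℤ → ℤ) :
    e2 c S = ∑ k ∈ S.image l, e2 c (cell l S k) := by
  unfold e2 cell
  rw [sum_fiberwise_of_maps_to (fun x hx => mem_image_of_mem l hx)]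

/-- the mixed mean value -/
noncomputable def Mx (m : ℕ) (ψ : ℤ → ℤ) (c : ℤ → ℂ) (S1 S2 : Finset ℤ) : ℝ :=
  ∑ ω ∈ Om m, ‖fS m ψ c S1 ω‖ ^ 2 * ‖fS m ψ c S2 ω‖ ^ 4

/-- the sixth moment -/
noncomputable def M6 (m : ℕ) (ψ : ℤ → ℤ) (c : ℤ → ℂ) (S : Finset ℤ) : ℝ :=
  ∑ ω ∈ Om m, ‖fS m ψ c S ω‖ ^ 6

lemma Mx_nonneg (m : ℕ) (ψ : ℤ → ℤ) (c : ℤ → ℂ) (S1 S2 : Finset ℤ) : 0 ≤ Mx m ψ c S1 S2 :=
  sum_nonneg fun _ _ => by positivity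

lemma M6_nonneg (m : ℕ) (ψ : ℤ → ℤ) (c : ℤ → ℂ) (S : Finset ℤ) : 0 ≤ M6 m ψ c S :=
  sum_nonneg fun _ _ => by positivity

/-- Cauchy's inequality -/
lemma Mx_cs (m : ℕ) (ψ : ℤ → ℤ) (c : ℤ → ℂ) (S1 S2 : Finset ℤ) :
    Mx m ψ c S1 S2 ^ 2 ≤ Mx m ψ c S2 S1 * M6 m ψ c S2 := by
  unfold Mx M6
  have h := sum_mul_sq_le_sq_mul_sq (Om m) (fun ω => ‖fS m ψ c S1 ω‖ ^ 2 * ‖fS m ψ c S2 ω‖)
    (fun ω => ‖fS m ψ c S2 ω‖ ^ 3)
  calc (∑ ω ∈ Om m, ‖fS m ψ c S1 ω‖ ^ 2 * ‖fS m ψ c S2 ω‖ ^ 4) ^ 2 =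
      (∑ ω ∈ Om m, (‖fS m ψ c S1 ω‖ ^ 2 * ‖fS m ψ c S2 ω‖) * ‖fS m ψ c S2 ω‖ ^ 3) ^ 2 := by
        congr 1
        apply sum_congr rfl
        intro ω _
        ring
    _ ≤ _ := h
    _ = _ := by
        congr 1
        · apply sum_congr rfl
          intro ω _
          ring
        · apply sum_congr rfl
          intro ω _
          ring

/-- the localisation of the pair of variables in the first set -/
lemma Mx_local {m : ℕ} {ψ : ℤ → ℤ} {S1 S2 : Finset ℤ} (c : ℤ → ℂ) (l : ℤ → ℤ)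
    (hfar : ∀ x ∈ S1, ∀ y ∈ S1, 2 ≤ |l x - l y| →
      ∑ ω ∈ Om m, (ph m x (ψ x) ω * (starRingEnd ℂ) (ph m y (ψ y) ω)) *
        ((‖fS m ψ c S2 ω‖ ^ 4 : ℝ) : ℂ) = 0) :
    Mx m ψ c S1 S2 ≤ 3 * ∑ k ∈ S1.image l, Mx m ψ c (cell l S1 k) S2 := by
  classical
  set K := S1.image l with hK
  set g : ℤ → ℕ × ℕ → ℂ := fun k ω => fS m ψ c (cell l S1 k) ω with hg
  set F : ℕ × ℕ → ℝ := fun ω => ‖fS m ψ c S2 ω‖ ^ 4 with hF
  have hF0 : ∀ ω, 0 ≤ F ω := fun ω => by simp only [hF]; positivity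
  set A : ℤ → ℝ := fun k => Mx m ψ c (cell l S1 k) S2 with hA
  have hA0 : ∀ k, 0 ≤ A k := fun k => Mx_nonneg _ _ _ _ _
  set X : ℤ → ℤ → ℂ := fun k j => ∑ ω ∈ Om m, (g k ω * (starRingEnd ℂ) (g j ω)) * (F ω : ℂ) with hX
  have hsum : ((Mx m ψ c S1 S2 : ℝ) : ℂ) = ∑ k ∈ K, ∑ j ∈ K, X k j := by
    unfold Mx
    rw [Complex.ofReal_sum]
    have h1 : ∀ ω ∈ Om m, ((‖fS m ψ c S1 ω‖ ^ 2 * ‖fS m ψ c S2 ω‖ ^ 4 : ℝ) : ℂ) =
        ∑ k ∈ K, ∑ j ∈ K, (g k ω * (starRingEnd ℂ) (g j ω)) * (F ω : ℂ) := by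
      intro ω _
      rw [Complex.ofReal_mul, norm_sq_mul_conj, fS_cells m ψ c S1 l ω, map_sum, sum_mul_sum, sum_mul]
      apply sum_congr rfl
      intro k _
      rw [sum_mul]
    rw [sum_congr rfl h1, sum_comm]
    apply sum_congr rfl
    intro k _
    rw [sum_comm]
  have hzero : ∀ k ∈ K, ∀ j ∈ K, 2 ≤ |k - j| → X k j = 0 := by
    intro k _ j _ hkj
    have h1 : ∀ ω ∈ Om m, (g k ω * (starRingEnd ℂ) (g j ω)) * (F ω : ℂ) =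
        ∑ x ∈ cell l S1 k, ∑ y ∈ cell l S1 j, (c x * (starRingEnd ℂ) (c y)) *
          ((ph m x (ψ x) ω * (starRingEnd ℂ) (ph m y (ψ y) ω)) * (F ω : ℂ)) := by
      intro ω _
      simp only [hg]
      unfold fS
      rw [map_sum, sum_mul_sum, sum_mul]
      apply sum_congr rfl
      intro x _
      rw [sum_mul]
      apply sum_congr rfl
      intro y _
      rw [map_mul]
      ring
    simp only [hX]
    rw [sum_congr rfl h1, sum_comm]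
    apply sum_eq_zero
    intro x hx
    rw [sum_comm]
    apply sum_eq_zero
    intro y hy
    rw [mem_cell] at hx hy
    rw [← mul_sum, hfar x hx.1 y hy.1 (by rw [hx.2, hy.2]; exact hkj), mul_zero]
  have hle : ∀ k j, ‖X k j‖ ≤ 1 / 2 * A k + 1 / 2 * A j := by
    intro k j
    simp only [hX, hA]
    refine (norm_sum_le _ _).trans ?_
    unfold Mx
    rw [mul_sum, mul_sum, ← sum_add_distrib]
    apply sum_le_sum
    intro ω _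
    rw [norm_mul, norm_mul, Complex.norm_conj, Complex.norm_real, Real.norm_eq_abs, abs_of_nonneg (hF0 ω)]
    have := hF0 ω
    simp only [hF, hg]
    simp only [hF] at this
    nlinarith [sq_nonneg (‖fS m ψ c (cell l S1 k) ω‖ - ‖fS m ψ c (cell l S1 j) ω‖)]
  have hnear : ∀ k ∈ K, ((K.filter fun j => |k - j| ≤ 1).card : ℝ) ≤ 3 := by
    intro k _
    have h1 : K.filter (fun j => |k - j| ≤ 1) ⊆ Icc (k - 1) (k + 1) := by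
      intro j hj
      rw [mem_filter] at hj
      have := abs_le.1 hj.2
      rw [mem_Icc]
      constructor <;> omega
    have h2 := card_le_card h1
    rw [Int.card_Icc] at h2
    have h3 : (k + 1 + 1 - (k - 1)).toNat = 3 := by omega
    rw [h3] at h2
    exact_mod_cast h2
  have hmain : Mx m ψ c S1 S2 ≤ ∑ k ∈ K, ∑ j ∈ K.filter (fun j => |k - j| ≤ 1), (1 / 2 * A k + 1 / 2 * A j) := by
    have h1 : ‖((Mx m ψ c S1 S2 : ℝ) : ℂ)‖ = Mx m ψ c S1 S2 := by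
      rw [Complex.norm_real, Real.norm_eq_abs, abs_of_nonneg (Mx_nonneg _ _ _ _ _)]
    rw [← h1, hsum]
    refine (norm_sum_le _ _).trans (sum_le_sum fun k hk => ?_)
    have h2 : ∑ j ∈ K, X k j = ∑ j ∈ K.filter (fun j => |k - j| ≤ 1), X k j := by
      symm
      apply sum_filter_of_ne
      intro j hj hne
      by_contra h
      exact hne (hzero k hk j hj (by omega))
    rw [h2]
    exact (norm_sum_le _ _).trans (sum_le_sum fun j _ => hle k j)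
  have hpart1 : ∑ k ∈ K, ∑ j ∈ K.filter (fun j => |k - j| ≤ 1), 1 / 2 * A k ≤ 3 / 2 * ∑ k ∈ K, A k := by
    rw [mul_sum]
    apply sum_le_sum
    intro k hk
    rw [sum_const, nsmul_eq_mul]
    have := hnear k hk
    nlinarith [hA0 k]
  have hpart2 : ∑ k ∈ K, ∑ j ∈ K.filter (fun j => |k - j| ≤ 1), 1 / 2 * A j =
      ∑ k ∈ K, ∑ j ∈ K.filter (fun j => |k - j| ≤ 1), 1 / 2 * A k := by
    simp_rw [sum_filter]
    rw [sum_comm]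
    apply sum_congr rfl
    intro k _
    apply sum_congr rfl
    intro j _
    rw [abs_sub_comm]
  calc Mx m ψ c S1 S2 ≤ ∑ k ∈ K, ∑ j ∈ K.filter (fun j => |k - j| ≤ 1), (1 / 2 * A k + 1 / 2 * A j) := hmain
    _ = ∑ k ∈ K, ∑ j ∈ K.filter (fun j => |k - j| ≤ 1), 1 / 2 * A k +
        ∑ k ∈ K, ∑ j ∈ K.filter (fun j => |k - j| ≤ 1), 1 / 2 * A j := by
        rw [← sum_add_distrib]
        apply sum_congr rfl
        intro k _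
        rw [sum_add_distrib]
    _ ≤ 3 / 2 * ∑ k ∈ K, A k + 3 / 2 * ∑ k ∈ K, A k := by
        rw [hpart2]
        exact add_le_add hpart1 hpart1
    _ = _ := by ring

/-- convexity: `ψ` is, up to `Λ`, a function with second derivative between `1` and `Λ` -/
def Cv (Λ : ℝ) (ψ : ℤ → ℤ) (S : Finset ℤ) : Prop :=
  ∀ c ∈ S, ∃ s : ℝ, (∀ x ∈ S, |(ψ x : ℝ) - ψ c - s * ((x : ℝ) - c)| ≤ Λ * (((x : ℝ) - c) ^ 2 + 1)) ∧
    ∀ d : ℝ, 0 ≤ d → ∀ x ∈ S, ∀ y ∈ S,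
      (((c : ℝ) + d ≤ x ∧ (c : ℝ) + d ≤ y) ∨ ((x : ℝ) + d ≤ c ∧ (y : ℝ) + d ≤ c)) →
      d * |(x : ℝ) - y| ≤ |((ψ x : ℝ) - ψ c - s * ((x : ℝ) - c)) - ((ψ y : ℝ) - ψ c - s * ((y : ℝ) - c))| + Λ

lemma Cv.mono {Λ : ℝ} {ψ : ℤ → ℤ} {S S' : Finset ℤ} (h : Cv Λ ψ S) (hS : S' ⊆ S) : Cv Λ ψ S' := by
  intro c hc
  obtain ⟨s, h1, h2⟩ := h c (hS hc)
  exact ⟨s, fun x hx => h1 x (hS hx), fun d hd x hx y hy hxy => h2 d hd x (hS hx) y (hS hy) hxy⟩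

/-- separation -/
def Sep (d : ℝ) (S1 S2 : Finset ℤ) : Prop :=
  (∀ x ∈ S1, ∀ u ∈ S2, (u : ℝ) + d ≤ x) ∨ (∀ x ∈ S1, ∀ u ∈ S2, (x : ℝ) + d ≤ u)

lemma Sep.symm {d : ℝ} {S1 S2 : Finset ℤ} (h : Sep d S1 S2) : Sep d S2 S1 := by
  rcases h with h | h
  · right
    exact fun x hx u hu => h u hu x hx
  · left
    exact fun x hx u hu => h u hu x hx

lemma Sep.mono {d : ℝ} {S1 S2 S1' S2' : Finset ℤ} (h : Sep d S1 S2) (h1 : S1' ⊆ S1) (h2 : S2' ⊆ S2) :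
    Sep d S1' S2' := by
  rcases h with h | h
  · left
    exact fun x hx u hu => h x (h1 hx) u (h2 hu)
  · right
    exact fun x hx u hu => h x (h1 hx) u (h2 hu)

/-- diameter at most `β` -/
def Dm (β : ℝ) (S : Finset ℤ) : Prop := ∀ x ∈ S, ∀ y ∈ S, |(x : ℝ) - y| ≤ β

lemma Dm.mono {β : ℝ} {S S' : Finset ℤ} (h : Dm β S) (hS : S' ⊆ S) : Dm β S' :=
  fun x hx y hy => h x (hS hx) y (hS hy)

/-- the real translation argument -/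
lemma close {Λ : ℝ} (hΛ : 1 ≤ Λ) {ψ : ℤ → ℤ} {S0 S1 S2 : Finset ℤ} (hcv : Cv Λ ψ S0) (hS1 : S1 ⊆ S0)
    (hS2 : S2 ⊆ S0) {d β : ℝ} (hd : 0 < d) (hβ : 1 ≤ β) (hsep : Sep d S1 S2) (hdm : Dm β S2)
    {x y : ℤ} (hx : x ∈ S1) (hy : y ∈ S1) {u1 v1 u2 v2 : ℤ} (hu1 : u1 ∈ S2) (hv1 : v1 ∈ S2)
    (hu2 : u2 ∈ S2) (hv2 : v2 ∈ S2) (h1 : (x - y) + ((u1 - v1) + (u2 - v2)) = 0)
    (h2 : (ψ x - ψ y) + ((ψ u1 - ψ v1) + (ψ u2 - ψ v2)) = 0) :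
    |(x : ℝ) - y| ≤ 7 * Λ * β ^ 2 / d := by
  obtain ⟨s, hs1, hs2⟩ := hcv u1 (hS2 hu1)
  have h3 := hs2 d hd.le x (hS1 hx) y (hS1 hy) (by
    rcases hsep with h | h
    · left
      exact ⟨h x hx u1 hu1, h y hy u1 hu1⟩
    · right
      exact ⟨h x hx u1 hu1, h y hy u1 hu1⟩)
  have hb : ∀ u ∈ S2, |(ψ u : ℝ) - ψ u1 - s * ((u : ℝ) - u1)| ≤ 2 * Λ * β ^ 2 := by
    intro u hu
    refine (hs1 u (hS2 hu)).trans ?_
    have h4 := hdm u hu u1 hu1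
    have h5 : ((u : ℝ) - u1) ^ 2 ≤ β ^ 2 := by
      rw [← sq_abs]
      exact pow_le_pow_left₀ (abs_nonneg _) h4 2
    have h6 : 1 ≤ β ^ 2 := one_le_pow₀ hβ
    nlinarith
  have e1 : ((x : ℝ) - y) + (((u1 : ℝ) - v1) + ((u2 : ℝ) - v2)) = 0 := by exact_mod_cast h1
  have e2 : ((ψ x : ℝ) - ψ y) + (((ψ u1 : ℝ) - ψ v1) + ((ψ u2 : ℝ) - ψ v2)) = 0 := by exact_mod_cast h2
  have hg : ((ψ x : ℝ) - ψ u1 - s * ((x : ℝ) - u1)) - ((ψ y : ℝ) - ψ u1 - s * ((y : ℝ) - u1)) =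
      ((ψ v1 : ℝ) - ψ u1 - s * ((v1 : ℝ) - u1)) + ((ψ v2 : ℝ) - ψ u1 - s * ((v2 : ℝ) - u1)) -
        ((ψ u2 : ℝ) - ψ u1 - s * ((u2 : ℝ) - u1)) := by
    linear_combination e2 - s * e1
  rw [hg] at h3
  have b1 := abs_le.1 (hb v1 hv1)
  have b2 := abs_le.1 (hb v2 hv2)
  have b3 := abs_le.1 (hb u2 hu2)
  have h7 : |((ψ v1 : ℝ) - ψ u1 - s * ((v1 : ℝ) - u1)) + ((ψ v2 : ℝ) - ψ u1 - s * ((v2 : ℝ) - u1)) -
        ((ψ u2 : ℝ) - ψ u1 - s * ((u2 : ℝ) - u1))| ≤ 6 * Λ * β ^ 2 := by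
    rw [abs_le]
    constructor <;> linarith [b1.1, b1.2, b2.1, b2.2, b3.1, b3.2]
  rw [le_div_iff₀ hd, mul_comm]
  have h8 : Λ ≤ Λ * β ^ 2 := by
    have : 1 ≤ β ^ 2 := one_le_pow₀ hβ
    nlinarith
  linarith

/-- labels by intervals of length `α` -/
noncomputable def lab (α : ℝ) (x : ℤ) : ℤ := ⌊(x : ℝ) / α⌋

lemma lab_far {α : ℝ} (hα : 0 < α) {x y : ℤ} (h : 2 ≤ |lab α x - lab α y|) : α < |(x : ℝ) - y| := by
  have hx1 := Int.floor_le ((x : ℝ) / α)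
  have hx2 := Int.lt_floor_add_one ((x : ℝ) / α)
  have hy1 := Int.floor_le ((y : ℝ) / α)
  have hy2 := Int.lt_floor_add_one ((y : ℝ) / α)
  have hx1' : (lab α x : ℝ) * α ≤ x := by
    have := hx1; rw [le_div_iff₀ hα] at this; exact this
  have hx2' : (x : ℝ) < ((lab α x : ℝ) + 1) * α := by
    have := hx2; rw [div_lt_iff₀ hα] at this; exact this
  have hy1' : (lab α y : ℝ) * α ≤ y := by
    have := hy1; rw [le_div_iff₀ hα] at this; exact this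
  have hy2' : (y : ℝ) < ((lab α y : ℝ) + 1) * α := by
    have := hy2; rw [div_lt_iff₀ hα] at this; exact this
  rcases le_abs'.1 h with h | h
  · have h3 : (lab α x : ℝ) - lab α y ≤ -2 := by exact_mod_cast h
    rw [abs_sub_comm]
    refine lt_of_lt_of_le ?_ (le_abs_self _)
    nlinarith
  · have h3 : (2 : ℝ) ≤ (lab α x : ℝ) - lab α y := by exact_mod_cast h
    refine lt_of_lt_of_le ?_ (le_abs_self _)
    nlinarith

lemma cell_diam {α : ℝ} (hα : 0 < α) (S : Finset ℤ) (k : ℤ) : Dm α (cell (lab α) S k) := by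
  intro x hx y hy
  rw [mem_cell] at hx hy
  have hx1 := Int.floor_le ((x : ℝ) / α)
  have hx2 := Int.lt_floor_add_one ((x : ℝ) / α)
  have hy1 := Int.floor_le ((y : ℝ) / α)
  have hy2 := Int.lt_floor_add_one ((y : ℝ) / α)
  have e1 : ⌊(x : ℝ) / α⌋ = k := hx.2
  have e2 : ⌊(y : ℝ) / α⌋ = k := hy.2
  rw [e1] at hx1 hx2
  rw [e2] at hy1 hy2
  rw [le_div_iff₀ hα] at hx1 hy1
  rw [div_lt_iff₀ hα] at hx2 hy2
  rw [abs_le]
  constructor <;> nlinarith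

/-- the local estimate -/
lemma Mx_step {Λ : ℝ} (hΛ : 1 ≤ Λ) {m : ℕ} {ψ : ℤ → ℤ} {S0 S1 S2 : Finset ℤ} (hg : Gd m ψ S0)
    (hcv : Cv Λ ψ S0) (hS1 : S1 ⊆ S0) (hS2 : S2 ⊆ S0) {d β : ℝ} (hd : 0 < d) (hβ : 1 ≤ β)
    (hsep : Sep d S1 S2) (hdm : Dm β S2) (c : ℤ → ℂ) :
    Mx m ψ c S1 S2 ≤ 3 * ∑ k ∈ S1.image (lab (7 * Λ * β ^ 2 / d)),
      Mx m ψ c (cell (lab (7 * Λ * β ^ 2 / d)) S1 k) S2 := by
  have hα : 0 < 7 * Λ * β ^ 2 / d := by positivity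
  apply Mx_local
  intro x hx y hy hxy
  apply far_zero hg hS2 (hS1 hx) (hS1 hy)
  intro u1 hu1 v1 hv1 u2 hu2 v2 hv2 h1 h2
  have h3 := close hΛ hcv hS1 hS2 hd hβ hsep hdm hx hy hu1 hv1 hu2 hv2 h1 h2
  have h4 := lab_far hα hxy
  linarith

end Pool.Agent.Q261.L6
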