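import Pool.Agent.Q261.L6.Main

set_option autoImplicit false

namespace Pool.Agent.Q261.L6

open Finset

/-- triples -/
def Tr (S : Finset ℤ) : Finset (ℤ × ℤ × ℤ) := S ×ˢ S ×ˢ S

lemma mem_Tr {S : Finset ℤ} {x : ℤ × ℤ × ℤ} : x ∈ Tr S ↔ x.1 ∈ S ∧ x.2.1 ∈ S ∧ x.2.2 ∈ S := by
  unfold Tr
  rw [mem_product, mem_product]

/-- the sum of the entries -/
def sn (x : ℤ × ℤ × ℤ) : ℤ := x.1 + x.2.1 + x.2.2

/-- the sum of the values -/
def sp (ψ : ℤ → ℤ) (x : ℤ × ℤ × ℤ) : ℤ := ψ x.1 + ψ x.2.1 + ψ x.2.2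

/-- the product of the coefficients -/
def pr {R : Type*} [Mul R] (a : ℤ → R) (x : ℤ × ℤ × ℤ) : R := a x.1 * a x.2.1 * a x.2.2

lemma cube_sum {R : Type*} [CommSemiring R] (S : Finset ℤ) (a : ℤ → R) :
    (∑ n ∈ S, a n) ^ 3 = ∑ x ∈ Tr S, pr a x := by
  unfold Tr pr
  rw [sum_product]
  simp_rw [sum_product]
  rw [pow_succ, sq, sum_mul_sum, sum_mul]
  apply sum_congr rfl
  intro x _
  rw [sum_mul]
  apply sum_congr rfl
  intro y _
  rw [mul_sum]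

lemma fS_cube (m : ℕ) (ψ : ℤ → ℤ) (c : ℤ → ℂ) (S : Finset ℤ) (ω : ℕ × ℕ) :
    fS m ψ c S ω ^ 3 = ∑ x ∈ Tr S, pr c x * ph m (sn x) (sp ψ x) ω := by
  unfold fS
  rw [cube_sum]
  apply sum_congr rfl
  intro x _
  unfold pr sn sp
  rw [← ph_mul, ← ph_mul]
  ring

lemma fS_six (m : ℕ) (ψ : ℤ → ℤ) (c : ℤ → ℂ) (S : Finset ℤ) (ω : ℕ × ℕ) :
    ((‖fS m ψ c S ω‖ ^ 6 : ℝ) : ℂ) = ∑ x ∈ Tr S, ∑ y ∈ Tr S, pr c x * (starRingEnd ℂ) (pr c y) *
      ph m (sn x - sn y) (sp ψ x - sp ψ y) ω := by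
  have h1 : ‖fS m ψ c S ω‖ ^ 6 = ‖fS m ψ c S ω ^ 3‖ ^ 2 := by
    rw [norm_pow]
    ring
  rw [h1, norm_sq_mul_conj, fS_cube, map_sum, sum_mul_sum]
  apply sum_congr rfl
  intro x _
  apply sum_congr rfl
  intro y _
  rw [map_mul, ph_conj, sub_eq_add_neg, sub_eq_add_neg, ← ph_mul]
  ring

/-- the weighted number of solutions -/
noncomputable def En (ψ : ℤ → ℤ) (a : ℤ → ℝ) (S : Finset ℤ) (i j : ℤ) : ℝ :=
  ∑ x ∈ Tr S, ∑ y ∈ Tr S, if sn x - sn y = i ∧ sp ψ x - sp ψ y = j then pr a x * pr a y else 0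

lemma pr_nonneg {a : ℤ → ℝ} (ha : ∀ n, 0 ≤ a n) (x : ℤ × ℤ × ℤ) : 0 ≤ pr a x := by
  unfold pr
  have h1 := ha x.1
  have h2 := ha x.2.1
  have h3 := ha x.2.2
  positivity

lemma pr_ofReal (a : ℤ → ℝ) (x : ℤ × ℤ × ℤ) : pr (fun n => (a n : ℂ)) x = ((pr a x : ℝ) : ℂ) := by
  unfold pr
  push_cast
  rfl

lemma En_le (m : ℕ) (hm : 1 ≤ m) (ψ : ℤ → ℤ) {a : ℤ → ℝ} (ha : ∀ n, 0 ≤ a n) (S : Finset ℤ) (i j : ℤ) :
    (m : ℝ) ^ 2 * En ψ a S i j ≤ M6 m ψ (fun n => (a n : ℂ)) S := by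
  have h1 : ∑ ω ∈ Om m, ((‖fS m ψ (fun n => (a n : ℂ)) S ω‖ ^ 6 : ℝ) : ℂ) * ph m (-i) (-j) ω =
      ((∑ x ∈ Tr S, ∑ y ∈ Tr S, pr a x * pr a y *
        (if (m : ℤ) ∣ (sn x - sn y) + -i ∧ (m : ℤ) ∣ (sp ψ x - sp ψ y) + -j then (m : ℝ) ^ 2 else 0) : ℝ) : ℂ) := by
    have h2 : ∀ ω ∈ Om m, ((‖fS m ψ (fun n => (a n : ℂ)) S ω‖ ^ 6 : ℝ) : ℂ) * ph m (-i) (-j) ω =
        ∑ x ∈ Tr S, ∑ y ∈ Tr S, ((pr a x * pr a y : ℝ) : ℂ) *
          ph m ((sn x - sn y) + -i) ((sp ψ x - sp ψ y) + -j) ω := by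
      intro ω _
      rw [fS_six, sum_mul]
      apply sum_congr rfl
      intro x _
      rw [sum_mul]
      apply sum_congr rfl
      intro y _
      rw [pr_ofReal, pr_ofReal, Complex.conj_ofReal, ← ph_mul]
      push_cast
      ring
    rw [sum_congr rfl h2, sum_comm]
    push_cast
    apply sum_congr rfl
    intro x _
    rw [sum_comm]
    apply sum_congr rfl
    intro y _
    rw [← mul_sum, ph_sum m hm]
    split_ifs <;> push_cast <;> rfl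
  have h3 : ‖∑ ω ∈ Om m, ((‖fS m ψ (fun n => (a n : ℂ)) S ω‖ ^ 6 : ℝ) : ℂ) * ph m (-i) (-j) ω‖ ≤
      M6 m ψ (fun n => (a n : ℂ)) S := by
    unfold M6
    refine (norm_sum_le _ _).trans (le_of_eq ?_)
    apply sum_congr rfl
    intro ω _
    rw [norm_mul, ph_norm, mul_one, Complex.norm_real, Real.norm_eq_abs, abs_of_nonneg (by positivity)]
  rw [h1, Complex.norm_real] at h3
  refine le_trans ?_ ((Real.le_norm_self _).trans h3)
  unfold En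
  rw [mul_sum]
  apply sum_le_sum
  intro x _
  rw [mul_sum]
  apply sum_le_sum
  intro y _
  have hx := pr_nonneg ha x
  have hy := pr_nonneg ha y
  by_cases h : sn x - sn y = i ∧ sp ψ x - sp ψ y = j
  · rw [if_pos h, if_pos ⟨by rw [h.1]; simp, by rw [h.2]; simp⟩]
    linarith
  · rw [if_neg h, mul_zero]
    split_ifs <;> positivity

lemma exists_Gd (ψ : ℤ → ℤ) (S : Finset ℤ) : ∃ m : ℕ, 1 ≤ m ∧ Gd m ψ S := by
  refine ⟨1 + ∑ n ∈ S, (6 * |n| + 6 * |ψ n|).toNat, by omega, by omega, ?_⟩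
  intro n hn
  have h1 : (6 * |n| + 6 * |ψ n|).toNat ≤ ∑ n ∈ S, (6 * |n| + 6 * |ψ n|).toNat :=
    single_le_sum (f := fun n : ℤ => (6 * |n| + 6 * |ψ n|).toNat) (fun _ _ => Nat.zero_le _) hn
  have h2 : 0 ≤ |n| := abs_nonneg _
  have h3 : 0 ≤ |ψ n| := abs_nonneg _
  have h4 : ((6 * |n| + 6 * |ψ n|).toNat : ℤ) = 6 * |n| + 6 * |ψ n| := Int.toNat_of_nonneg (by omega)
  have h5 : ((6 * |n| + 6 * |ψ n|).toNat : ℤ) ≤ ((∑ n ∈ S, (6 * |n| + 6 * |ψ n|).toNat : ℕ) : ℤ) := by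
    exact_mod_cast h1
  constructor <;> omega

/-- the number of solutions of the system of two equations -/
theorem energy {Λ : ℝ} (hΛ : 1 ≤ Λ) {ε : ℝ} (hε : 0 < ε) : ∃ C : ℝ, 1 ≤ C ∧
    ∀ (ψ : ℤ → ℤ) (a : ℤ → ℝ) (S : Finset ℤ) (N : ℝ), 1 ≤ N → (∀ n, 0 ≤ a n) → Cv Λ ψ S → Dm N S →
      ∀ i j : ℤ, En ψ a S i j ≤ C * N ^ ε * (∑ n ∈ S, a n ^ 2) ^ 3 := by
  obtain ⟨C, hC, h⟩ := sixth hΛ hε
  refine ⟨C, hC, ?_⟩
  intro ψ a S N hN ha hcv hdm i j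
  obtain ⟨m, hm, hg⟩ := exists_Gd ψ S
  have h1 := En_le m hm ψ ha S i j
  have h2 := h m ψ (fun n => (a n : ℂ)) S N hN hcv hg hdm
  have hm0 : (0 : ℝ) < (m : ℝ) ^ 2 := by
    have : (0 : ℝ) < m := by exact_mod_cast (by omega : 0 < m)
    positivity
  have h3 : e2 (fun n => (a n : ℂ)) S = ∑ n ∈ S, a n ^ 2 := by
    unfold e2
    apply sum_congr rfl
    intro n _
    rw [Complex.norm_real, Real.norm_eq_abs, sq_abs]
  rw [h3] at h2
  have h4 : (m : ℝ) ^ 2 * En ψ a S i j ≤ (m : ℝ) ^ 2 * (C * N ^ ε * (∑ n ∈ S, a n ^ 2) ^ 3) := by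
    refine (h1.trans h2).trans (le_of_eq ?_)
    ring
  exact le_of_mul_le_mul_left h4 hm0

/-- smooth sequences -/
lemma Cv_of {Λ : ℝ} (hΛ : 1 ≤ Λ) {A B : ℝ} {Φ Φ' : ℝ → ℝ} {σ : ℝ} (hσ : |σ| = 1)
    (hder : ∀ x ∈ Set.Icc A B, HasDerivAt Φ (Φ' x) x)
    (hmono : ∀ x ∈ Set.Icc A B, ∀ y ∈ Set.Icc A B, x ≤ y →
      (y - x) ≤ σ * (Φ' y - Φ' x) ∧ σ * (Φ' y - Φ' x) ≤ Λ * (y - x))
    {S : Finset ℤ} (hS : ∀ n ∈ S, (n : ℝ) ∈ Set.Icc A B) : Cv Λ (fun n => ⌊Φ n⌋) S := by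
  intro c hc
  have hcI := hS c hc
  -- the key inequality for the derivative
  have habs : ∀ u ∈ Set.Icc A B, |u - c| ≤ |Φ' u - Φ' c| ∧ |Φ' u - Φ' c| ≤ Λ * |u - c| := by
    intro u hu
    have e1 : |Φ' u - Φ' c| = |σ * (Φ' u - Φ' c)| := by rw [abs_mul, hσ, one_mul]
    rcases le_total (c : ℝ) u with h | h
    · have := hmono c hcI u hu h
      rw [e1, abs_of_nonneg (by linarith : 0 ≤ u - c), abs_of_nonneg (by linarith)]
      exact this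
    · have := hmono u hu c hcI h
      have e2 : |σ * (Φ' u - Φ' c)| = σ * (Φ' c - Φ' u) := by
        rw [abs_of_nonpos (by nlinarith)]
        ring
      rw [e1, e2, abs_of_nonpos (by linarith : u - c ≤ 0)]
      constructor
      · linarith [this.1]
      · linarith [this.2]
  -- the mean value theorem
  have hmvt : ∀ x ∈ Set.Icc A B, ∀ y ∈ Set.Icc A B, x < y → ∃ u ∈ Set.Ioo x y,
      (Φ y - Φ c - Φ' c * (y - c)) - (Φ x - Φ c - Φ' c * (x - c)) = (Φ' u - Φ' c) * (y - x) := by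
    intro x hx y hy hxy
    have hsub : Set.Icc x y ⊆ Set.Icc A B := fun z hz => ⟨hx.1.trans hz.1, hz.2.trans hy.2⟩
    have hd : ∀ z ∈ Set.Icc x y, HasDerivAt (fun z => Φ z - Φ' c * z) (Φ' z - Φ' c) z := by
      intro z hz
      have h1 := hder z (hsub hz)
      have h2 : HasDerivAt (fun z => Φ' c * z) (Φ' c) z := by
        simpa using (hasDerivAt_id z).const_mul (Φ' c)
      exact h1.sub h2
    obtain ⟨u, hu, hu2⟩ := exists_hasDerivAt_eq_slope (fun z => Φ z - Φ' c * z) (fun z => Φ' z - Φ' c) hxy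
      (fun z hz => (hd z hz).continuousAt.continuousWithinAt) (fun z hz => hd z ⟨hz.1.le, hz.2.le⟩)
    refine ⟨u, hu, ?_⟩
    rw [hu2]
    have : y - x ≠ 0 := by linarith
    field_simp
    ring
  have hfl : ∀ n : ℤ, |(⌊Φ n⌋ : ℝ) - Φ n + 1 / 2| ≤ 1 / 2 := by
    intro n
    have h1 := Int.floor_le (Φ n)
    have h2 := Int.lt_floor_add_one (Φ n)
    rw [abs_le]
    constructor <;> linarith
  refine ⟨Φ' c, ?_, ?_⟩
  · intro x hx
    have hxI := hS x hx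
    have key : |Φ x - Φ c - Φ' c * ((x : ℝ) - c)| ≤ Λ * ((x : ℝ) - c) ^ 2 := by
      rcases lt_trichotomy (c : ℝ) x with h | h | h
      · obtain ⟨u, hu, hu2⟩ := hmvt c hcI x hxI h
        have h1 : (Φ c - Φ c - Φ' c * ((c : ℝ) - c)) = 0 := by ring
        rw [h1, sub_zero] at hu2
        have huI : u ∈ Set.Icc A B := ⟨hcI.1.trans hu.1.le, hu.2.le.trans hxI.2⟩
        have h3 := (habs u huI).2
        rw [hu2, abs_mul, abs_of_pos (by linarith : 0 < (x : ℝ) - c)]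
        have h4 : |u - c| ≤ (x : ℝ) - c := by
          rw [abs_of_nonneg (by linarith [hu.1])]
          linarith [hu.2]
        have h5 : |Φ' u - Φ' c| ≤ Λ * ((x : ℝ) - c) := h3.trans (mul_le_mul_of_nonneg_left h4 (by linarith))
        nlinarith
      · rw [← h]
        simp
      · obtain ⟨u, hu, hu2⟩ := hmvt x hxI c hcI h
        have h1 : (Φ c - Φ c - Φ' c * ((c : ℝ) - c)) = 0 := by ring
        rw [h1, zero_sub] at hu2
        have huI : u ∈ Set.Icc A B := ⟨hxI.1.trans hu.1.le, hu.2.le.trans hcI.2⟩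
        have h3 := (habs u huI).2
        rw [← abs_neg, hu2, abs_mul, abs_of_pos (by linarith : 0 < (c : ℝ) - x)]
        have h4 : |u - c| ≤ (c : ℝ) - x := by
          rw [abs_of_nonpos (by linarith [hu.2])]
          linarith [hu.1]
        have h5 : |Φ' u - Φ' c| ≤ Λ * ((c : ℝ) - x) := h3.trans (mul_le_mul_of_nonneg_left h4 (by linarith))
        nlinarith
    have k1 := abs_le.1 (hfl x)
    have k2 := abs_le.1 (hfl c)
    have k3 := abs_le.1 key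
    beta_reduce
    rw [abs_le]
    constructor
    · nlinarith [k1.1, k1.2, k2.1, k2.2, k3.1, k3.2]
    · nlinarith [k1.1, k1.2, k2.1, k2.2, k3.1, k3.2]
  · intro d hd x hx y hy hxy
    have hxI := hS x hx
    have hyI := hS y hy
    have main : ∀ x ∈ Set.Icc A B, ∀ y ∈ Set.Icc A B, x < y →
        (((c : ℝ) + d ≤ x ∧ (c : ℝ) + d ≤ y) ∨ (x + d ≤ c ∧ y + d ≤ c)) →
        d * |x - y| ≤ |(Φ y - Φ c - Φ' c * (y - c)) - (Φ x - Φ c - Φ' c * (x - c))| := by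
      intro x hx y hy hlt hxy
      obtain ⟨u, hu, hu2⟩ := hmvt x hx y hy hlt
      have huI : u ∈ Set.Icc A B := ⟨hx.1.trans hu.1.le, hu.2.le.trans hy.2⟩
      have h3 := (habs u huI).1
      rw [hu2, abs_mul, abs_sub_comm x y]
      apply mul_le_mul_of_nonneg_right _ (abs_nonneg _)
      refine le_trans ?_ h3
      rcases hxy with h | h
      · refine le_trans ?_ (le_abs_self _)
        linarith [hu.1, h.1]
      · rw [abs_sub_comm]
        refine le_trans ?_ (le_abs_self _)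
        linarith [hu.2, h.2]
    have key : d * |(x : ℝ) - y| ≤ |(Φ y - Φ c - Φ' c * ((y : ℝ) - c)) - (Φ x - Φ c - Φ' c * ((x : ℝ) - c))| := by
      rcases lt_trichotomy (x : ℝ) y with h | h | h
      · exact main x hxI y hyI h hxy
      · rw [h]
        simp
      · have h1 := main y hyI x hxI h (by
          rcases hxy with h | h
          · left
            exact ⟨h.2, h.1⟩
          · right
            exact ⟨h.2, h.1⟩)
        rw [abs_sub_comm] at h1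
        refine h1.trans (le_of_eq ?_)
        rw [abs_sub_comm]
    have k1 := abs_le.1 (hfl x)
    have k2 := abs_le.1 (hfl y)
    refine key.trans ?_
    beta_reduce
    have e1 : (Φ y - Φ c - Φ' c * ((y : ℝ) - c)) - (Φ x - Φ c - Φ' c * ((x : ℝ) - c)) =
        -((((⌊Φ x⌋ : ℝ) - ⌊Φ c⌋ - Φ' c * ((x : ℝ) - c)) - ((⌊Φ y⌋ : ℝ) - ⌊Φ c⌋ - Φ' c * ((y : ℝ) - c)))) +
        (((⌊Φ x⌋ : ℝ) - Φ x + 1 / 2) - ((⌊Φ y⌋ : ℝ) - Φ y + 1 / 2)) := by ring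
    rw [e1]
    refine (abs_add_le _ _).trans ?_
    rw [abs_neg]
    have e2 : |(((⌊Φ x⌋ : ℝ) - Φ x + 1 / 2) - ((⌊Φ y⌋ : ℝ) - Φ y + 1 / 2))| ≤ 1 := by
      rw [abs_le]
      constructor <;> linarith
    linarith

end Pool.Agent.Q261.L6
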