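import Pool.Agent.Q261.L6.WeylA
import Pool.Agent.TH181.MW.Cov
import Pool.Agent.TH181.MW.Max
import Pool.Agent.W928.MW.Dim

set_option autoImplicit false

namespace Pool.Agent.Q261.L6

open Finset MeasureTheory
open Pool.Agent.W928.MW (sm sm_le e_add ev_pow ev_log)
open Pool.Agent.TH181.MW (S_COV_t S_DIMG_t S_MAX_t shift_le)

/-- the set `K` is covered by at most `A M^(β+δ)` intervals of length `1/M`, for all `M` and `δ > 0` -/
def BoxLe (K : Set ℝ) (β : ℝ) : Prop := ∀ δ : ℝ, 0 < δ → ∃ A : ℝ, 0 < A ∧ ∀ M : ℕ, 1 ≤ M →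
  ∃ S : Finset ℝ, (S.card : ℝ) ≤ A * (M : ℝ) ^ (β + δ) ∧ K ⊆ ⋃ x ∈ S, Set.Icc x (x + 1 / (M : ℝ))

/-- the inequality of `H_k(η)` at the point `t` -/
def HoldsT (k : ℕ) (η ε C t : ℝ) : Prop :=
  ∀ N : ℕ, 2 ≤ N → ∀ ξ : ℝ, ∀ a q : ℕ, 1 ≤ a → a < q → q ≤ N → Nat.Coprime a q →
    |t - (a : ℝ) / (q : ℝ)| ≤ 1 / (q : ℝ) ^ 2 →
    ‖sm k N t ξ‖ ≤ C * (N : ℝ) ^ (1 + ε) *
      (1 / (q : ℝ) + 1 / (N : ℝ) + (q : ℝ) / (N : ℝ) ^ k) ^ η

lemma WS_sm (k N : ℕ) (t ξ : ℝ) : WS k N (fun _ => 1) t ξ = sm k N t ξ := by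
  rw [WS_eq]
  unfold Pool.Agent.W928.MW.sm Pool.Agent.W928.MW.e
  simp

/-- bad leading coefficients of `K` at scale `2^i` -/
def BT (k : ℕ) (K : Set ℝ) (α : ℝ) (i : ℕ) : Set ℝ :=
  {t : ℝ | t ∈ K ∧ ∃ M : ℕ, M ≤ 2 ^ i ∧ 2 ^ i ≤ 2 * M ∧ ∃ ξ : ℝ, (M : ℝ) ^ α < ‖sm k M t ξ‖}

lemma main_low (k N q : ℕ) {η ε : ℝ} (hη : 0 ≤ η) (hN : 1 ≤ N) (hq : 1 ≤ q) (hqN : q ≤ N) :
    (N : ℝ) ^ (1 + ε - η) ≤ (N : ℝ) ^ (1 + ε) *
      (1 / (q : ℝ) + 1 / (N : ℝ) + (q : ℝ) / (N : ℝ) ^ k) ^ η := by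
  have hN0 : (0 : ℝ) < N := by exact_mod_cast hN
  have hq0 : (0 : ℝ) < q := by exact_mod_cast hq
  have h1 : (N : ℝ) ^ (1 + ε - η) = (N : ℝ) ^ (1 + ε) * (1 / (N : ℝ)) ^ η := by
    rw [Real.div_rpow (by norm_num) hN0.le, Real.one_rpow, mul_one_div, ← Real.rpow_sub hN0]
  rw [h1]
  apply mul_le_mul_of_nonneg_left _ (by positivity)
  apply Real.rpow_le_rpow (by positivity) _ hη
  have h2 : 0 ≤ 1 / (q : ℝ) + (q : ℝ) / (N : ℝ) ^ k := by positivity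
  linarith

lemma bad_sub (k : ℕ) (K : Set ℝ) {η ε : ℝ} (hη : 0 ≤ η) (hη1 : η ≤ 1) (hε : 0 < ε) {t : ℝ} (htK : t ∈ K)
    (ht : ¬ ∃ C : ℝ, HoldsT k η ε C t) : ∀ i1 : ℕ, ∃ i : ℕ, i1 ≤ i ∧ t ∈ BT k K (1 + ε - η) i := by
  intro i1
  by_contra hcon
  push Not at hcon
  apply ht
  refine ⟨(2 : ℝ) ^ i1 + 1, ?_⟩
  intro N hN2' ξ a q ha haq hqN hcop hap
  have hN : 1 ≤ N := by omega
  have hN' : (1 : ℝ) ≤ (N : ℝ) := by exact_mod_cast hN
  set R : ℝ := (N : ℝ) ^ (1 + ε) *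
      (1 / (q : ℝ) + 1 / (N : ℝ) + (q : ℝ) / (N : ℝ) ^ k) ^ η with hR
  have h0 : (N : ℝ) ^ (1 + ε - η) ≤ R := main_low k N q hη hN (by omega) hqN
  have h1 : 1 ≤ R := le_trans (Real.one_le_rpow hN' (by linarith)) h0
  have h3 : ((2 : ℝ) ^ i1 + 1) * (N : ℝ) ^ (1 + ε) *
      (1 / (q : ℝ) + 1 / (N : ℝ) + (q : ℝ) / (N : ℝ) ^ k) ^ η = ((2 : ℝ) ^ i1 + 1) * R := by
    rw [hR]; ring
  rw [h3]
  have hp : (0 : ℝ) < (2 : ℝ) ^ i1 := by positivity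
  rcases le_total N (2 ^ i1) with hN2 | hN2
  · have h4 : (N : ℝ) ≤ (2 : ℝ) ^ i1 := by exact_mod_cast hN2
    refine (sm_le k N t ξ).trans ?_
    nlinarith
  · obtain ⟨i, hi1, hi2⟩ : ∃ i : ℕ, N ≤ 2 ^ i ∧ 2 ^ i ≤ 2 * N := by
      refine ⟨Nat.log 2 N + 1, (Nat.lt_pow_succ_log_self (by norm_num) N).le, ?_⟩
      have := Nat.pow_log_le_self 2 (show N ≠ 0 by omega)
      rw [pow_succ]
      omega
    have hii : i1 ≤ i := by
      have : 2 ^ i1 ≤ 2 ^ i := hN2.trans hi1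
      exact (Nat.pow_le_pow_iff_right (by norm_num)).mp this
    have h5 := hcon i hii
    have h6 : ‖sm k N t ξ‖ ≤ R := by
      by_contra h7
      push Not at h7
      apply h5
      exact ⟨htK, N, hi1, hi2, ξ, lt_of_le_of_lt h0 h7⟩
    nlinarith

/-- around a bad point the complete sums are large -/
lemma nbhd {k i M : ℕ} {α V t t' ξ : ℝ} (hM : M ≤ 2 ^ i) (hM2 : 2 ^ i ≤ 2 * M) (hα : 0 ≤ α) (hV : 0 ≤ V)
    (h : (M : ℝ) ^ α < ‖sm k M t ξ‖) (htt : |t' - t| ≤ 1 / ((2 : ℝ) ^ i) ^ k)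
    (hVs : (1 + 2 * Real.pi * 2 ^ k) * 2 ^ α * (4 + 4 * Real.log ((2 : ℝ) ^ i)) * V ≤ ((2 : ℝ) ^ i) ^ α) :
    ∃ ξ' : ℝ, V ≤ ‖sm k (2 ^ i) t' ξ'‖ := by
  by_contra hcon
  push Not at hcon
  have hP : 1 ≤ 2 ^ i := Nat.one_le_two_pow
  have hcast : ((2 ^ i : ℕ) : ℝ) = (2 : ℝ) ^ i := by push_cast; rfl
  have h1 : ∀ m : ℕ, m ≤ 2 ^ i → ‖sm k m t' ξ‖ ≤ (4 + 4 * Real.log ((2 ^ i : ℕ) : ℝ)) * V := by
    intro m hm
    exact S_MAX_t k (2 ^ i) m t' V hP hm (fun η => (hcon η).le) ξ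
  have hlog : 0 ≤ Real.log ((2 ^ i : ℕ) : ℝ) := Real.log_nonneg (by exact_mod_cast hP)
  have h2 := shift_le k (2 ^ i) M t t' ξ _ hP hM (mul_nonneg (by linarith) hV) (by
    rw [hcast, abs_sub_comm]
    exact htt) h1
  rw [hcast] at h2
  have h3 : ((2 : ℝ) ^ i) ^ α ≤ 2 ^ α * (M : ℝ) ^ α := by
    rw [← Real.mul_rpow (by norm_num) (by positivity)]
    apply Real.rpow_le_rpow (by positivity) _ hα
    exact_mod_cast hM2
  have h2α : (0 : ℝ) < 2 ^ α := by positivity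
  have h4 : 2 ^ α * (M : ℝ) ^ α < 2 ^ α * ((1 + 2 * Real.pi * 2 ^ k) * ((4 + 4 * Real.log ((2 : ℝ) ^ i)) * V)) :=
    mul_lt_mul_of_pos_left (lt_of_lt_of_le h h2) h2α
  nlinarith

/-- the covering number of the bad set -/
lemma coverT {k : ℕ} (hk : 2 ≤ k) {α β : ℝ} (hα : 0 ≤ α) {K : Set ℝ} (hK : BoxLe K β)
    {δ : ℝ} (hδ : 0 < δ) (hδα : δ ≤ 1) :
    ∃ i0 : ℕ, ∀ i : ℕ, i0 ≤ i → ∃ S : Finset ℝ,
      (S.card : ℝ) ≤ ((2 : ℝ) ^ i) ^ ((k - 2) * β + max (6 * (1 - α)) (k * (1 - α)) + (2 * k + 8) * δ) ∧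
      BT k K α i ⊆ ⋃ x ∈ S, Set.Icc x (x + ((2 : ℝ) ^ i) ^ (-(k : ℝ))) := by
  classical
  obtain ⟨C, hC1, hC⟩ := weyl_measure hk hδ
  obtain ⟨A, hA0, hA⟩ := hK δ hδ
  have hkr : (2 : ℝ) ≤ k := by exact_mod_cast hk
  obtain ⟨i1, h1⟩ := ev_log δ hδ ((1 + 2 * Real.pi * 2 ^ k) * 2 ^ α)
  obtain ⟨i2, h2⟩ := ev_pow δ hδ (A * (4 * C))
  refine ⟨max i1 i2, fun i hi => ?_⟩
  have h1' := h1 i ((le_max_left _ _).trans hi)
  have h2' := h2 i ((le_max_right _ _).trans hi)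
  set P : ℝ := (2 : ℝ) ^ i with hP
  have hP1 : 1 ≤ P := one_le_pow₀ (by norm_num)
  have hP0 : 0 < P := by linarith
  set V : ℝ := P ^ (α - δ) with hV
  have hV0 : 0 < V := by positivity
  have hVs : (1 + 2 * Real.pi * 2 ^ k) * 2 ^ α * (4 + 4 * Real.log P) * V ≤ P ^ α := by
    calc _ ≤ P ^ δ * V := mul_le_mul_of_nonneg_right h1' hV0.le
      _ = P ^ α := by
          rw [hV, ← Real.rpow_add hP0]
          congr 1
          ring
  have hcast : ((2 ^ i : ℕ) : ℝ) = P := by rw [hP]; push_cast; rfl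
  set M0 : ℝ := 1 / P ^ (k - 2) with hM0
  have hM00 : 0 < M0 := by positivity
  set θ : ℝ := max (6 * (1 - α)) (k * (1 - α)) with hθ
  set B : ℝ := C * P ^ (-(k : ℝ) + θ + (k + 7) * δ) with hB
  have hB0 : 0 ≤ B := by positivity
  have hvol : ∀ x : ℝ, volume {t : ℝ | t ∈ Set.Icc x (x + M0) ∧ ∃ ξ : ℝ, V ≤ ‖sm k (2 ^ i) t ξ‖} ≤ ENNReal.ofReal B := by
    intro x
    have h3 := hC (2 ^ i) Nat.one_le_two_pow (fun _ => 1) (fun _ => by simp) x V hV0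
    simp only [WS_sm] at h3
    rw [hcast] at h3
    refine h3.trans (ENNReal.ofReal_le_ofReal ?_)
    rw [hB, mul_assoc]
    apply mul_le_mul_of_nonneg_left _ (by linarith)
    have hm : max (P ^ (6 - (k : ℝ)) / V ^ 6) (1 / V ^ k) ≤ P ^ (-(k : ℝ) + θ + (k + 6) * δ) := by
      have e6 : P ^ (6 - (k : ℝ)) / V ^ 6 = P ^ (-(k : ℝ) + 6 * (1 - α) + 6 * δ) := by
        rw [hV, ← Real.rpow_natCast (P ^ (α - δ)) 6, ← Real.rpow_mul hP0.le, ← Real.rpow_sub hP0]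
        congr 1
        push_cast
        ring
      have ek : 1 / V ^ k = P ^ (-(k : ℝ) + k * (1 - α) + k * δ) := by
        rw [hV, ← Real.rpow_natCast (P ^ (α - δ)) k, ← Real.rpow_mul hP0.le, one_div, ← Real.rpow_neg hP0.le]
        congr 1
        ring
      apply max_le
      · rw [e6]
        apply Real.rpow_le_rpow_of_exponent_le hP1
        have := le_max_left (6 * (1 - α)) (k * (1 - α))
        nlinarith
      · rw [ek]
        apply Real.rpow_le_rpow_of_exponent_le hP1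
        have := le_max_right (6 * (1 - α)) (k * (1 - α))
        nlinarith
    calc P ^ δ * max (P ^ (6 - (k : ℝ)) / V ^ 6) (1 / V ^ k) ≤ P ^ δ * P ^ (-(k : ℝ) + θ + (k + 6) * δ) :=
          mul_le_mul_of_nonneg_left hm (by positivity)
      _ = P ^ (-(k : ℝ) + θ + (k + 7) * δ) := by
          rw [← Real.rpow_add hP0]
          congr 1
          ring
  have hPk : 0 < 1 / P ^ k := by positivity
  have hδM : 1 / P ^ k ≤ M0 := by
    rw [hM0]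
    apply one_div_le_one_div_of_le (by positivity)
    exact pow_le_pow_right₀ hP1 (by omega)
  -- one short interval
  have hone : ∀ x : ℝ, ∃ S : Finset ℝ, (S.card : ℝ) ≤ 4 * B / (1 / P ^ k) ∧
      {t : ℝ | t ∈ BT k K α i ∧ t ∈ Set.Icc x (x + M0)} ⊆ ⋃ y ∈ S, Set.Icc y (y + 1 / P ^ k) := by
    intro x
    refine S_COV_t _ {t : ℝ | t ∈ Set.Icc (x - M0) ((x - M0) + 3 * M0) ∧ ∃ ξ : ℝ, V ≤ ‖sm k (2 ^ i) t ξ‖}
      (1 / P ^ k) (4 * B) x (x + M0) hPk (by positivity) (fun t ht => ht.2) ?_ ?_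
    · rintro t ⟨⟨_, M, hM, hM2, ξ, hξ⟩, ht⟩ t' htt
      refine ⟨?_, nbhd hM hM2 hα hV0.le hξ htt hVs⟩
      rw [abs_le] at htt
      constructor
      · linarith [ht.1, htt.1]
      · linarith [ht.2, htt.2]
    · have h3 := cover_meas (P := fun t => ∃ ξ : ℝ, V ≤ ‖sm k (2 ^ i) t ξ‖) (y := x - M0) (ℓ := 3 * M0) hM00
        (by positivity) hB0 hvol
      refine h3.trans (le_of_eq ?_)
      congr 1
      field_simp
      ring
  choose Sx hSx1 hSx2 using hone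
  obtain ⟨S0, hS0c, hS0⟩ := hA ((2 ^ i) ^ (k - 2)) (Nat.one_le_pow _ _ (by positivity))
  have hcast2 : (((2 ^ i) ^ (k - 2) : ℕ) : ℝ) = P ^ (k - 2) := by rw [hP]; push_cast; rfl
  rw [hcast2] at hS0c hS0
  refine ⟨S0.biUnion Sx, ?_, ?_⟩
  · have h3 : ((S0.biUnion Sx).card : ℝ) ≤ S0.card * (4 * B / (1 / P ^ k)) := by
      have h4 : (S0.biUnion Sx).card ≤ ∑ x ∈ S0, (Sx x).card := card_biUnion_le
      calc ((S0.biUnion Sx).card : ℝ) ≤ ((∑ x ∈ S0, (Sx x).card : ℕ) : ℝ) := by exact_mod_cast h4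
        _ = ∑ x ∈ S0, ((Sx x).card : ℝ) := by push_cast; rfl
        _ ≤ ∑ _x ∈ S0, (4 * B / (1 / P ^ k)) := sum_le_sum fun x _ => hSx1 x
        _ = _ := by rw [sum_const, nsmul_eq_mul]
    refine h3.trans ?_
    have e1 : P ^ (k - 2) = P ^ ((k : ℝ) - 2) := by
      rw [← Real.rpow_natCast, Nat.cast_sub hk]
      push_cast
      rfl
    have e2 : 4 * B / (1 / P ^ k) = 4 * C * P ^ (θ + (k + 7) * δ) := by
      rw [div_div_eq_mul_div, div_one, hB, ← Real.rpow_natCast P k]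
      calc 4 * (C * P ^ (-(k : ℝ) + θ + (k + 7) * δ)) * P ^ ((k : ℕ) : ℝ) =
          4 * C * (P ^ (-(k : ℝ) + θ + (k + 7) * δ) * P ^ ((k : ℕ) : ℝ)) := by ring
        _ = _ := by
            rw [← Real.rpow_add hP0]
            congr 2
            ring
    calc (S0.card : ℝ) * (4 * B / (1 / P ^ k)) ≤ (A * (P ^ (k - 2)) ^ (β + δ)) * (4 * B / (1 / P ^ k)) :=
          mul_le_mul_of_nonneg_right hS0c (by positivity)
      _ = (A * (4 * C)) * (P ^ (((k : ℝ) - 2) * (β + δ)) * P ^ (θ + (k + 7) * δ)) := by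
          rw [e2, e1, ← Real.rpow_mul hP0.le]
          ring
      _ ≤ P ^ δ * (P ^ (((k : ℝ) - 2) * (β + δ)) * P ^ (θ + (k + 7) * δ)) :=
          mul_le_mul_of_nonneg_right h2' (by positivity)
      _ = P ^ (δ + (((k : ℝ) - 2) * (β + δ) + (θ + (k + 7) * δ))) := by
          rw [← Real.rpow_add hP0, ← Real.rpow_add hP0]
      _ ≤ _ := by
          apply Real.rpow_le_rpow_of_exponent_le hP1
          nlinarith
  · intro t ht
    obtain ⟨x, hx, htx⟩ : ∃ x ∈ S0, t ∈ Set.Icc x (x + 1 / P ^ (k - 2)) := by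
      have h4 := hS0 ht.1
      simp only [Set.mem_iUnion] at h4
      obtain ⟨x, hx, h5⟩ := h4
      exact ⟨x, hx, h5⟩
    have h3 := hSx2 x ⟨ht, htx⟩
    simp only [Set.mem_iUnion] at h3 ⊢
    obtain ⟨y, hy, hty⟩ := h3
    refine ⟨y, mem_biUnion.2 ⟨x, hx, hy⟩, ?_⟩
    have e3 : P ^ (-(k : ℝ)) = 1 / P ^ k := by
      rw [Real.rpow_neg hP0.le, Real.rpow_natCast, one_div]
    rw [e3]
    exact hty

/-- **the exceptional leading coefficients in a set of given box dimension** -/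
theorem dim_fractal {k : ℕ} (hk : 2 ≤ k) {η ε β : ℝ} (hη : 0 ≤ η) (hη1 : η ≤ 1) (hε : 0 < ε) (hβ : 0 ≤ β)
    {K : Set ℝ} (hK : BoxLe K β) :
    dimH {t : ℝ | t ∈ K ∧ ¬ ∃ C : ℝ, HoldsT k η ε C t} ≤
      ENNReal.ofReal (((k - 2) * β + max 6 (k : ℝ) * (η - ε)) / k) := by
  have hkr : (2 : ℝ) ≤ k := by exact_mod_cast hk
  have hk0 : (0 : ℝ) < k := by linarith
  rcases lt_or_ge η ε with hηε | hηε
  · have h1 : {t : ℝ | t ∈ K ∧ ¬ ∃ C : ℝ, HoldsT k η ε C t} = ∅ := by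
      rw [Set.eq_empty_iff_forall_notMem]
      rintro t ⟨_, ht⟩
      apply ht
      refine ⟨1, fun N hN ξ a q ha haq hqN _ _ => ?_⟩
      have hN' : (1 : ℝ) ≤ (N : ℝ) := by exact_mod_cast (show 1 ≤ N by omega)
      have h2 := main_low k N q (ε := ε) hη (by omega) (show 1 ≤ q by omega) hqN
      calc ‖sm k N t ξ‖ ≤ N := sm_le k N t ξ
        _ = (N : ℝ) ^ (1 : ℝ) := (Real.rpow_one _).symm
        _ ≤ (N : ℝ) ^ (1 + ε - η) := Real.rpow_le_rpow_of_exponent_le hN' (by linarith)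
        _ ≤ _ := by
            rw [one_mul]
            exact h2
    rw [h1, dimH_empty]
    exact zero_le
  set α : ℝ := 1 + ε - η with hα
  have hα0 : 0 ≤ α := by linarith
  set D0 : ℝ := ((k - 2) * β + max 6 (k : ℝ) * (η - ε)) / k with hD0
  have hm : max (6 * (1 - α)) (k * (1 - α)) = max 6 (k : ℝ) * (η - ε) := by
    have e1 : 1 - α = η - ε := by rw [hα]; ring
    rw [e1, max_mul_of_nonneg _ _ (by linarith)]
  have hD00 : 0 ≤ D0 := by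
    have : (0 : ℝ) ≤ max 6 (k : ℝ) := le_trans (by norm_num) (le_max_left _ _)
    have h1 : 0 ≤ (k - 2) * β := mul_nonneg (by linarith) hβ
    have h2 : 0 ≤ max 6 (k : ℝ) * (η - ε) := mul_nonneg this (by linarith)
    positivity
  have hsub : {t : ℝ | t ∈ K ∧ ¬ ∃ C : ℝ, HoldsT k η ε C t} ⊆
      {t : ℝ | ∀ i1 : ℕ, ∃ i : ℕ, i1 ≤ i ∧ t ∈ BT k K α i} := by
    rintro t ⟨htK, ht⟩
    exact bad_sub k K hη hη1 hε htK ht
  refine (dimH_mono hsub).trans ?_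
  apply ENNReal.le_of_forall_pos_le_add
  intro ρ hρ _
  have hρ' : (0 : ℝ) < (ρ : ℝ) := by exact_mod_cast hρ
  set δ : ℝ := min 1 (ρ * k / (2 * (2 * k + 8))) with hδ
  have hδ0 : 0 < δ := lt_min one_pos (by positivity)
  have hδ2 : (2 * (k : ℝ) + 8) * δ ≤ ρ * k / 2 := by
    have h1 : δ ≤ ρ * k / (2 * (2 * k + 8)) := min_le_right _ _
    calc (2 * (k : ℝ) + 8) * δ ≤ (2 * (k : ℝ) + 8) * (ρ * k / (2 * (2 * k + 8))) :=
          mul_le_mul_of_nonneg_left h1 (by positivity)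
      _ = ρ * k / 2 := by field_simp
  have h1 := S_DIMG_t ((k - 2) * β + max (6 * (1 - α)) (k * (1 - α)) + (2 * k + 8) * δ) k (D0 + ρ) (BT k K α) hk0
    (by linarith) (by
      rw [hm]
      have : (k : ℝ) * D0 = (k - 2) * β + max 6 (k : ℝ) * (η - ε) := by
        rw [hD0]
        field_simp
      have h2 : 0 < ρ * k / 2 := by positivity
      nlinarith)
    (coverT hk hα0 hK hδ0 (min_le_left _ _))
  refine h1.trans (le_of_eq ?_)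
  rw [ENNReal.ofReal_add hD00 hρ'.le, ENNReal.ofReal_coe_nnreal]

end Pool.Agent.Q261.L6
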