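import Pool.Agent.Q261.L6.Frac

set_option autoImplicit false

namespace Pool.Agent.Q261.L6

open Finset MeasureTheory
open scoped ENNReal NNReal

/-- mass distribution principle -/
lemma null_of_dim {μ : Measure ℝ} {s C0 : ℝ} (hs : 0 < s)
    (hμ : ∀ x r : ℝ, 0 ≤ r → r ≤ 1 → μ (Set.Icc x (x + r)) ≤ ENNReal.ofReal (C0 * r ^ s))
    {E : Set ℝ} (hE : dimH E < ENNReal.ofReal s) : μ E = 0 := by
  set C1 : ℝ := max C0 1 with hC1
  have hC10 : 0 < C1 := lt_of_lt_of_le one_pos (le_max_right _ _)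
  have hc0 : ENNReal.ofReal C1 ≠ 0 := by
    rw [Ne, ENNReal.ofReal_eq_zero, not_le]
    exact hC10
  have hct : ENNReal.ofReal C1 ≠ ⊤ := ENNReal.ofReal_ne_top
  have hle : (ENNReal.ofReal C1)⁻¹ • μ ≤ μH[s] := by
    apply Measure.le_hausdorffMeasure s _ 1 one_pos
    intro S hS
    rcases S.eq_empty_or_nonempty with rfl | hne
    · simp
    have hbdd : Bornology.IsBounded S := by
      rw [Metric.isBounded_iff_ediam_ne_top]
      exact ne_top_of_le_ne_top ENNReal.one_ne_top hS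
    have hdiam := Real.ediam_eq hbdd
    set r : ℝ := sSup S - sInf S with hr
    have hbb : BddBelow S := hbdd.bddBelow
    have hba : BddAbove S := hbdd.bddAbove
    have hr0 : 0 ≤ r := by
      obtain ⟨y, hy⟩ := hne
      have h1 := csInf_le hbb hy
      have h2 := le_csSup hba hy
      linarith
    have hr1 : r ≤ 1 := by
      rw [hdiam] at hS
      have : ENNReal.ofReal r ≤ ENNReal.ofReal 1 := by simpa using hS
      exact (ENNReal.ofReal_le_ofReal_iff (by norm_num)).1 this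
    have hsub : S ⊆ Set.Icc (sInf S) (sInf S + r) := by
      intro y hy
      refine ⟨csInf_le hbb hy, ?_⟩
      have := le_csSup hba hy
      rw [hr]
      linarith
    have h1 := (measure_mono hsub).trans (hμ (sInf S) r hr0 hr1)
    have h2 : ENNReal.ofReal (C0 * r ^ s) ≤ ENNReal.ofReal C1 * ENNReal.ofReal (r ^ s) := by
      rw [← ENNReal.ofReal_mul hC10.le]
      apply ENNReal.ofReal_le_ofReal
      exact mul_le_mul_of_nonneg_right (le_max_left _ _) (by positivity)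
    rw [Measure.smul_apply, smul_eq_mul, hdiam, ENNReal.ofReal_rpow_of_nonneg hr0 hs.le]
    calc (ENNReal.ofReal C1)⁻¹ * μ S ≤ (ENNReal.ofReal C1)⁻¹ * (ENNReal.ofReal C1 * ENNReal.ofReal (r ^ s)) :=
          mul_le_mul_right (h1.trans h2) _
      _ = ENNReal.ofReal (r ^ s) := by
          rw [← mul_assoc, ENNReal.inv_mul_cancel hc0 hct, one_mul]
  have h3 := hle E
  have h4 : μH[s] E = 0 := by
    have h5 : dimH E < ((s.toNNReal : ℝ≥0) : ℝ≥0∞) := hE
    have h6 := hausdorffMeasure_of_dimH_lt h5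
    rwa [Real.coe_toNNReal s hs.le] at h6
  rw [h4, nonpos_iff_eq_zero, Measure.smul_apply, smul_eq_mul, mul_eq_zero] at h3
  rcases h3 with h3 | h3
  · exact absurd (ENNReal.inv_eq_zero.1 h3) hct
  · exact h3

/-- almost everywhere for Frostman measures -/
theorem ae_fractal {k : ℕ} (hk : 2 ≤ k) {η s C0 : ℝ} (hη : 0 ≤ η) (hη1 : η ≤ 1) (hs : 0 < s)
    (hks : max 6 (k : ℝ) * η ≤ 2 * s) {K : Set ℝ} (hK : BoxLe K s) {μ : Measure ℝ} (hμK : μ Kᶜ = 0)
    (hμ : ∀ x r : ℝ, 0 ≤ r → r ≤ 1 → μ (Set.Icc x (x + r)) ≤ ENNReal.ofReal (C0 * r ^ s)) :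
    ∀ᵐ t ∂μ, ∀ ε : ℝ, 0 < ε → ∃ C : ℝ, HoldsT k η ε C t := by
  have hkr : (2 : ℝ) ≤ k := by exact_mod_cast hk
  have hk0 : (0 : ℝ) < k := by linarith
  have h1 : ∀ n : ℕ, μ {t : ℝ | t ∈ K ∧ ¬ ∃ C : ℝ, HoldsT k η (1 / ((n : ℝ) + 1)) C t} = 0 := by
    intro n
    have hε : (0 : ℝ) < 1 / ((n : ℝ) + 1) := by positivity
    apply null_of_dim hs hμ
    refine lt_of_le_of_lt (dim_fractal hk hη hη1 hε hs.le hK) ?_
    rw [ENNReal.ofReal_lt_ofReal_iff hs, div_lt_iff₀ hk0]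
    have h2 : 0 < max 6 (k : ℝ) * (1 / ((n : ℝ) + 1)) := by positivity
    nlinarith
  have h2 : ∀ᵐ t ∂μ, ∀ n : ℕ, ¬ (t ∈ K ∧ ¬ ∃ C : ℝ, HoldsT k η (1 / ((n : ℝ) + 1)) C t) := by
    rw [ae_all_iff]
    intro n
    exact measure_eq_zero_iff_ae_notMem.1 (h1 n)
  have h3 : ∀ᵐ t ∂μ, t ∈ K := by
    have := measure_eq_zero_iff_ae_notMem.1 hμK
    filter_upwards [this] with t ht
    simpa using ht
  filter_upwards [h2, h3] with t ht htK ε hε
  obtain ⟨n, hn⟩ := exists_nat_one_div_lt hε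
  have h4 := ht n
  push Not at h4
  obtain ⟨C, hC⟩ := h4 htK
  refine ⟨max C 0, fun N hN ξ a q ha haq hqN hcop hap => (hC N hN ξ a q ha haq hqN hcop hap).trans ?_⟩
  have hN1 : (1 : ℝ) ≤ N := by exact_mod_cast (show 1 ≤ N by omega)
  have h5 : (N : ℝ) ^ (1 + 1 / ((n : ℝ) + 1)) ≤ (N : ℝ) ^ (1 + ε) :=
    Real.rpow_le_rpow_of_exponent_le hN1 (by linarith)
  apply mul_le_mul_of_nonneg_right _ (by positivity)
  exact mul_le_mul (le_max_left _ _) h5 (by positivity) (le_max_right _ _)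

end Pool.Agent.Q261.L6
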