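import Pool.Agent.Q261.L6.Moment
import Pool.Agent.Q261.DR.Almost

set_option autoImplicit false

namespace Pool.Agent.Q261.L6

open Finset MeasureTheory
open Pool.Agent.Q261.DR (ad ad_add ad_conj ad_norm ad_sum w wh wh_bound phi ep quad DD LL LL_ge bb bb_norm DD_deriv DD_cont DD_le sob w_integrable w_continuous log_count)

lemma log_Cv {N0 : ℝ} (hN0 : 1 ≤ N0) {S : Finset ℤ} (hS : ∀ n ∈ S, (n : ℝ) ∈ Set.Icc N0 (2 * N0)) :
    Cv 4 (Ph (4 * N0 ^ 2) (fun n => Real.log n)) S := by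
  have h := Cv_of (Λ := 4) (by norm_num) (A := N0) (B := 2 * N0) (Φ := fun x => 4 * N0 ^ 2 * Real.log x)
    (Φ' := fun x => 4 * N0 ^ 2 * x⁻¹) (σ := -1) (by norm_num) (by
      intro x hx
      have hx0 : x ≠ 0 := by linarith [hx.1]
      exact (Real.hasDerivAt_log hx0).const_mul _) (by
      intro x hx y hy hxy
      have hx0 : 0 < x := by linarith [hx.1]
      have hy0 : 0 < y := by linarith [hy.1]
      have e1 : -1 * (4 * N0 ^ 2 * y⁻¹ - 4 * N0 ^ 2 * x⁻¹) = 4 * N0 ^ 2 / (x * y) * (y - x) := by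
        field_simp
        ring
      beta_reduce
      rw [e1]
      have h1 : x * y ≤ 4 * N0 ^ 2 := by nlinarith [hx.1, hx.2, hy.1, hy.2]
      have h2 : N0 ^ 2 ≤ x * y := by nlinarith [hx.1, hx.2, hy.1, hy.2]
      have h3 : 1 ≤ 4 * N0 ^ 2 / (x * y) := by
        rw [one_le_div (by positivity)]
        exact h1
      have h4 : 4 * N0 ^ 2 / (x * y) ≤ 4 := by
        rw [div_le_iff₀ (by positivity)]
        linarith
      constructor
      · nlinarith
      · exact mul_le_mul_of_nonneg_right h4 (by linarith)) hS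
  exact h

/-- the blocks -/
def bk (N j : ℕ) : Finset ℕ := (Icc 1 N).filter fun n => Nat.log 2 n = j

lemma mem_bk {N j n : ℕ} (h : n ∈ bk N j) : 1 ≤ n ∧ n ≤ N ∧ 2 ^ j ≤ n ∧ n < 2 ^ (j + 1) := by
  unfold bk at h
  rw [mem_filter, mem_Icc] at h
  obtain ⟨⟨h1, h2⟩, h3⟩ := h
  refine ⟨h1, h2, ?_, ?_⟩
  · rw [← h3]
    exact Nat.pow_log_le_self 2 (by omega)
  · rw [← h3]
    exact Nat.lt_pow_succ_log_self (by norm_num) n

/-- the part of the polynomial on a block -/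
noncomputable def DB (N q a j : ℕ) (b : ℕ → ℂ) (t : ℝ) : ℂ :=
  ∑ n ∈ bk N j, b n * ad q (a * n) * Complex.exp (((Real.log n * t : ℝ) : ℂ) * Complex.I)

lemma DD_blocks (N q a : ℕ) (b : ℕ → ℂ) (t : ℝ) :
    DD N q a b t = ∑ j ∈ range (Nat.log 2 N + 1), DB N q a j b t := by
  unfold DD DB bk
  rw [sum_fiberwise_of_maps_to]
  intro n hn
  rw [mem_Icc] at hn
  rw [mem_range]
  have := Nat.log_mono_right (b := 2) hn.2
  omega

lemma DB_ep (N q a j : ℕ) (b : ℕ → ℂ) (t : ℝ) :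
    DB N q a j b t = ep ((bk N j).image (fun n : ℕ => (n : ℤ))) (fun n => b n.toNat * ad q (a * n))
      (fun n => Real.log n) t := by
  unfold DB ep
  rw [sum_image (fun x _ y _ h => by exact_mod_cast h)]
  apply sum_congr rfl
  intro n _
  simp

lemma DB_cont (N q a j : ℕ) (b : ℕ → ℂ) : Continuous (DB N q a j b) := by
  unfold DB
  fun_prop

lemma bk_card (N j : ℕ) : (bk N j).card ≤ 2 ^ j := by
  have h1 : bk N j ⊆ Ico (2 ^ j) (2 ^ (j + 1)) := by
    intro n hn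
    have := mem_bk hn
    rw [mem_Ico]
    exact ⟨this.2.2.1, this.2.2.2⟩
  have h2 := card_le_card h1
  rw [Nat.card_Ico, pow_succ] at h2
  omega

lemma DB_le (N q a j : ℕ) (b : ℕ → ℂ) (hb : ∀ n, ‖b n‖ ≤ 1) (t : ℝ) : ‖DB N q a j b t‖ ≤ 2 ^ j := by
  unfold DB
  calc ‖∑ n ∈ bk N j, b n * ad q (a * n) * Complex.exp (((Real.log n * t : ℝ) : ℂ) * Complex.I)‖ ≤
        ∑ n ∈ bk N j, (1 : ℝ) := by
        apply norm_sum_le_of_le
        intro n _
        rw [norm_mul, norm_mul, ad_norm, Complex.norm_exp_ofReal_mul_I, mul_one, mul_one]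
        exact hb n
    _ = (bk N j).card := by simp
    _ ≤ _ := by exact_mod_cast bk_card N j

lemma int_w {f : ℝ → ℝ} (hf : Continuous f) {K : ℝ} (hK : ∀ t, |f t| ≤ K) {M : ℝ} (hM : 0 < M) :
    Integrable (fun t => w M t * f t) := by
  refine ((w_integrable M hM).mul_const K).mono' ?_ (Filter.Eventually.of_forall fun t => ?_)
  · exact ((w_continuous M).mul hf).aestronglyMeasurable
  · have h0 : 0 < w M t := Real.exp_pos _
    rw [Real.norm_eq_abs, abs_mul, abs_of_pos h0]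
    exact mul_le_mul_of_nonneg_left (hK t) h0.le

/-- the sixth moment for one block -/
lemma block {ε : ℝ} (hε : 0 < ε) : ∃ C : ℝ, 1 ≤ C ∧ ∀ (N j q : ℕ) (M : ℝ) (b : ℕ → ℂ), 1 ≤ q → 0 < M →
    (∀ n, ‖b n‖ ≤ 1) → 2 ^ j ≤ N → ∑ r ∈ range q, ∫ t : ℝ, w M t * ‖DB N q r j b t‖ ^ 6 ≤
      C * (N : ℝ) ^ ε * ((q + N) * (M + 4 * (N : ℝ) ^ 2)) * (N : ℝ) ^ 3 := by
  obtain ⟨C, hC, h⟩ := moment6 (Λ := 4) (by norm_num) hε
  refine ⟨C, hC, ?_⟩
  intro N j q M b hq hM hb hj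
  set S := (bk N j).image (fun n : ℕ => (n : ℤ)) with hS
  have hj1 : (1 : ℝ) ≤ 2 ^ j := one_le_pow₀ (by norm_num)
  have hjN : (2 : ℝ) ^ j ≤ N := by exact_mod_cast hj
  have hmem : ∀ n ∈ S, (n : ℝ) ∈ Set.Icc ((2 : ℝ) ^ j) (2 * 2 ^ j) := by
    intro n hn
    rw [hS, mem_image] at hn
    obtain ⟨k, hk, rfl⟩ := hn
    have h1 := mem_bk hk
    have h2 : (2 : ℝ) ^ j ≤ k := by exact_mod_cast h1.2.2.1
    have h3 : (k : ℝ) ≤ 2 ^ (j + 1) := by exact_mod_cast h1.2.2.2.le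
    rw [pow_succ] at h3
    rw [Int.cast_natCast]
    exact ⟨h2, by linarith⟩
  have hdm : Dm (2 ^ j) S := by
    intro x hx y hy
    have h1 := hmem x hx
    have h2 := hmem y hy
    rw [abs_le]
    constructor <;> linarith [h1.1, h1.2, h2.1, h2.2]
  have h1 := h S (2 ^ j) (4 * (2 ^ j) ^ 2) (fun n => Real.log n) hj1 (by positivity) (log_Cv hj1 hmem) hdm q M
    (fun n => b n.toNat) hq hM
  have h2 : ∀ r : ℕ, ∀ t : ℝ, ‖DB N q r j b t‖ = ‖ep S (fun n => b n.toNat * ad q (r * n)) (fun n => Real.log n) t‖ := by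
    intro r t
    rw [DB_ep]
  simp only [h2]
  refine h1.trans ?_
  have h3 : ∑ n ∈ S, ‖b n.toNat‖ ^ 2 ≤ N := by
    calc ∑ n ∈ S, ‖b n.toNat‖ ^ 2 ≤ ∑ n ∈ S, (1 : ℝ) := by
          apply sum_le_sum
          intro n _
          exact pow_le_one₀ (norm_nonneg _) (hb _)
      _ = S.card := by simp
      _ ≤ (2 : ℝ) ^ j := by
          have : S.card ≤ 2 ^ j := card_image_le.trans (bk_card N j)
          exact_mod_cast this
      _ ≤ N := hjN
  have h4 : (0 : ℝ) ≤ ∑ n ∈ S, ‖b n.toNat‖ ^ 2 := sum_nonneg fun _ _ => by positivity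
  have hN0 : (0 : ℝ) ≤ N := by positivity
  have h5 : ((2 : ℝ) ^ j) ^ ε ≤ (N : ℝ) ^ ε := Real.rpow_le_rpow (by positivity) hjN hε.le
  have h6 : (2 : ℝ) ^ j * 2 ^ j ≤ N * N := by nlinarith
  apply mul_le_mul
  · apply mul_le_mul
    · apply mul_le_mul_of_nonneg_left h5 (by linarith)
    · apply mul_le_mul
      · linarith
      · nlinarith
      · positivity
      · positivity
    · positivity
    · positivity
  · exact pow_le_pow_left₀ h4 h3 3
  · positivity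
  · positivity

/-- the sixth moment -/
lemma full {ε : ℝ} (hε : 0 < ε) : ∃ C : ℝ, 1 ≤ C ∧ ∀ (N q : ℕ) (M : ℝ) (b : ℕ → ℂ), 1 ≤ N → 1 ≤ q → 0 < M →
    (∀ n, ‖b n‖ ≤ 1) → ∑ r ∈ range q, ∫ t : ℝ, w M t * ‖DD N q r b t‖ ^ 6 ≤
      C * (N : ℝ) ^ ε * ((q + N) * (M + 4 * (N : ℝ) ^ 2)) * (N : ℝ) ^ 3 := by
  obtain ⟨C, hC, h⟩ := block (ε := ε / 2) (by positivity)
  refine ⟨(3 + 4 / (ε / 12)) ^ 6 * C, ?_, ?_⟩
  · have h1 : (1 : ℝ) ≤ 3 + 4 / (ε / 12) := by
      have : 0 ≤ 4 / (ε / 12) := by positivity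
      linarith
    have h2 : (1 : ℝ) ≤ (3 + 4 / (ε / 12)) ^ 6 := one_le_pow₀ h1
    nlinarith
  intro N q M b hN hq hM hb
  have hNr : (1 : ℝ) ≤ N := by exact_mod_cast hN
  have hN0 : (0 : ℝ) < N := by linarith
  set L : ℝ := ((Nat.log 2 N + 1 : ℕ) : ℝ) with hL
  have hL0 : 0 ≤ L := by positivity
  set X : ℝ := C * (N : ℝ) ^ (ε / 2) * ((q + N) * (M + 4 * (N : ℝ) ^ 2)) * (N : ℝ) ^ 3 with hX
  have hX0 : 0 ≤ X := by positivity
  have hint : ∀ r j, Integrable (fun t => w M t * ‖DB N q r j b t‖ ^ 6) := by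
    intro r j
    apply int_w (K := (2 ^ j) ^ 6) _ _ hM
    · have := DB_cont N q r j b
      fun_prop
    · intro t
      rw [abs_of_nonneg (by positivity)]
      exact pow_le_pow_left₀ (norm_nonneg _) (DB_le N q r j b hb t) 6
  have h1 : ∀ r ∈ range q, ∫ t : ℝ, w M t * ‖DD N q r b t‖ ^ 6 ≤
      L ^ 5 * ∑ j ∈ range (Nat.log 2 N + 1), ∫ t : ℝ, w M t * ‖DB N q r j b t‖ ^ 6 := by
    intro r _
    rw [← integral_finset_sum _ (fun j _ => hint r j), ← integral_const_mul]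
    apply integral_mono_of_nonneg
    · apply Filter.Eventually.of_forall
      intro t
      have : 0 < w M t := Real.exp_pos _
      positivity
    · exact (integrable_finset_sum _ (fun j _ => hint r j)).const_mul _
    · apply Filter.Eventually.of_forall
      intro t
      have hw : 0 < w M t := Real.exp_pos _
      have h2 : ‖DD N q r b t‖ ≤ ∑ j ∈ range (Nat.log 2 N + 1), ‖DB N q r j b t‖ := by
        rw [DD_blocks]
        exact norm_sum_le _ _
      have h3 := pow_sum_le_card_mul_sum_pow (s := range (Nat.log 2 N + 1))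
        (f := fun j => ‖DB N q r j b t‖) (fun _ _ => norm_nonneg _) 5
      rw [card_range] at h3
      have h4 := (pow_le_pow_left₀ (norm_nonneg _) h2 6).trans h3
      beta_reduce
      rw [← mul_sum]
      calc w M t * ‖DD N q r b t‖ ^ 6 ≤ w M t * (L ^ 5 * ∑ j ∈ range (Nat.log 2 N + 1), ‖DB N q r j b t‖ ^ 6) :=
            mul_le_mul_of_nonneg_left h4 hw.le
        _ = _ := by ring
  calc ∑ r ∈ range q, ∫ t : ℝ, w M t * ‖DD N q r b t‖ ^ 6 ≤
      ∑ r ∈ range q, L ^ 5 * ∑ j ∈ range (Nat.log 2 N + 1), ∫ t : ℝ, w M t * ‖DB N q r j b t‖ ^ 6 := sum_le_sum h1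
    _ = L ^ 5 * ∑ j ∈ range (Nat.log 2 N + 1), ∑ r ∈ range q, ∫ t : ℝ, w M t * ‖DB N q r j b t‖ ^ 6 := by
        rw [← mul_sum, sum_comm]
    _ ≤ L ^ 5 * ∑ j ∈ range (Nat.log 2 N + 1), X := by
        apply mul_le_mul_of_nonneg_left _ (by positivity)
        apply sum_le_sum
        intro j hj
        rw [mem_range] at hj
        apply h N j q M b hq hM hb
        exact (Nat.pow_le_pow_right (by norm_num) (by omega)).trans (Nat.pow_log_le_self 2 (by omega))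
    _ = L ^ 6 * X := by
        rw [sum_const, card_range, nsmul_eq_mul]
        ring
    _ ≤ ((3 + 4 / (ε / 12)) * (N : ℝ) ^ (ε / 12)) ^ 6 * X := by
        apply mul_le_mul_of_nonneg_right _ hX0
        apply pow_le_pow_left₀ hL0
        have := log_count (ε / 12) (by positivity) N hN
        rw [hL]
        push_cast
        have h0 : (0 : ℝ) ≤ Nat.log 2 N := by positivity
        linarith
    _ = _ := by
        rw [hX, mul_pow]
        have e1 : ((N : ℝ) ^ (ε / 12)) ^ 6 * (N : ℝ) ^ (ε / 2) = (N : ℝ) ^ ε := by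
          rw [← Real.rpow_natCast, ← Real.rpow_mul hN0.le, ← Real.rpow_add hN0]
          congr 1
          push_cast
          ring
        rw [← e1]
        ring

/-- the integrand -/
noncomputable def G6 (N q a : ℕ) (b : ℕ → ℂ) (t : ℝ) : ℝ :=
  8 * ‖DD N q a b t‖ ^ 6 + 3 * LL N ^ 6 * ‖DD N q a (bb N b) t‖ ^ 6

lemma G6_cont (N q a : ℕ) (b : ℕ → ℂ) : Continuous (G6 N q a b) := by
  unfold G6
  have h1 := DD_cont N q a b
  have h2 := DD_cont N q a (bb N b)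
  fun_prop

lemma G6_nonneg (N q a : ℕ) (b : ℕ → ℂ) (t : ℝ) : 0 ≤ G6 N q a b t := by
  unfold G6
  positivity

lemma wD6_integrable (N q a : ℕ) (b : ℕ → ℂ) (hb : ∀ n, ‖b n‖ ≤ 1) (M : ℝ) (hM : 0 < M) :
    Integrable (fun t => w M t * ‖DD N q a b t‖ ^ 6) := by
  apply int_w (K := (N : ℝ) ^ 6) _ _ hM
  · have := DD_cont N q a b
    fun_prop
  · intro t
    rw [abs_of_nonneg (by positivity)]
    exact pow_le_pow_left₀ (norm_nonneg _) (DD_le N q a b hb t) 6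

lemma wG6_integrable (N q a : ℕ) (hN : 1 ≤ N) (b : ℕ → ℂ) (hb : ∀ n, ‖b n‖ ≤ 1) (M : ℝ) (hM : 0 < M) :
    Integrable (fun t => w M t * G6 N q a b t) := by
  have h1 := (wD6_integrable N q a b hb M hM).const_mul 8
  have h2 := (wD6_integrable N q a (bb N b) (bb_norm N hN b hb) M hM).const_mul (3 * LL N ^ 6)
  refine (h1.add h2).congr (Filter.Eventually.of_forall fun t => ?_)
  simp only [Pi.add_apply]
  unfold G6
  ring

lemma unit6 (N q a : ℕ) (hN : 1 ≤ N) (b : ℕ → ℂ) (x u : ℝ) (hx : x ∈ Set.Icc u (u + 1)) :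
    ‖DD N q a b x‖ ^ 6 ≤ ∫ t in u..(u + 1), G6 N q a b t := by
  have hder : ∀ t, HasDerivAt (fun t => DD N q a b t ^ 3)
      (3 * DD N q a b t ^ 2 * ((LL N : ℂ) * Complex.I * DD N q a (bb N b) t)) t := by
    intro t
    refine (HasDerivAt.fun_pow (DD_deriv N q a hN b t) 3).congr_deriv ?_
    norm_num
  have hc1 := DD_cont N q a b
  have hc2 := DD_cont N q a (bb N b)
  have hcont : Continuous (fun t => 3 * DD N q a b t ^ 2 * ((LL N : ℂ) * Complex.I * DD N q a (bb N b) t)) := by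
    fun_prop
  have h1 := sob hder hcont hx
  have h2 : ‖DD N q a b x‖ ^ 6 = ‖DD N q a b x ^ 3‖ ^ 2 := by
    rw [norm_pow]
    ring
  rw [h2]
  refine h1.trans ?_
  apply intervalIntegral.integral_mono_on (by linarith)
  · apply Continuous.intervalIntegrable
    fun_prop
  · exact (G6_cont N q a b).intervalIntegrable _ _
  · intro t _
    unfold G6
    rw [norm_pow, norm_mul, norm_mul, norm_pow, norm_mul, norm_mul, Complex.norm_I, Complex.norm_real,
      Real.norm_eq_abs, abs_of_pos (show 0 < LL N by have := LL_ge N hN; linarith), Complex.norm_ofNat]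
    set A := ‖DD N q a b t‖ with hA
    set B := LL N * ‖DD N q a (bb N b) t‖ with hB
    have hA0 : 0 ≤ A := norm_nonneg _
    have hB0 : 0 ≤ B := by
      have := LL_ge N hN
      positivity
    have key : 3 * (A ^ 4 * B ^ 2) ≤ 2 * A ^ 6 + B ^ 6 := by
      have : 0 ≤ (2 * A ^ 2 + B ^ 2) * (A ^ 2 - B ^ 2) ^ 2 := by positivity
      nlinarith
    have e1 : (3 * A ^ 2 * (LL N * 1 * ‖DD N q a (bb N b) t‖)) ^ 2 = 9 * (A ^ 4 * B ^ 2) := by
      rw [hB]
      ring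
    have e2 : 3 * LL N ^ 6 * ‖DD N q a (bb N b) t‖ ^ 6 = 3 * B ^ 6 := by
      rw [hB]
      ring
    rw [e1, e2]
    nlinarith

lemma sep6 (N q a : ℕ) (hN : 1 ≤ N) (b : ℕ → ℂ) (hb : ∀ n, ‖b n‖ ≤ 1) (T : ℝ) (hT : 0 ≤ T)
    (S : Finset ℝ) (hS : ∀ t ∈ S, 0 ≤ t ∧ t ≤ T) (hsep : ∀ t ∈ S, ∀ u ∈ S, t ≠ u → 1 ≤ |t - u|) :
    ∑ t ∈ S, ‖DD N q a b t‖ ^ 6 ≤ 3 * ∫ t : ℝ, w (T + 1) t * G6 N q a b t := by
  classical
  have hinj : Set.InjOn (fun t : ℝ => ⌊t⌋₊) S := by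
    intro t ht u hu h
    by_contra hne
    have h1 := hsep t ht u hu hne
    have h2 : ⌊t⌋₊ = ⌊u⌋₊ := h
    have h3 := Nat.floor_le (hS t ht).1
    have h4 := Nat.lt_floor_add_one t
    have h5 := Nat.floor_le (hS u hu).1
    have h6 := Nat.lt_floor_add_one u
    rw [h2] at h3 h4
    have h7 : |t - u| < 1 := by
      rw [abs_lt]
      constructor <;> linarith
    linarith
  have hmono : ∀ m : ℕ, 0 ≤ ∫ t in (m : ℝ)..((m : ℝ) + 1), G6 N q a b t := by
    intro m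
    apply intervalIntegral.integral_nonneg (by linarith)
    intro t _
    exact G6_nonneg N q a b t
  have h1 : ∑ t ∈ S, ‖DD N q a b t‖ ^ 6 ≤ ∑ m ∈ range (⌊T⌋₊ + 1), ∫ t in (m : ℝ)..((m : ℝ) + 1), G6 N q a b t := by
    calc ∑ t ∈ S, ‖DD N q a b t‖ ^ 6 ≤ ∑ t ∈ S, ∫ s in ((⌊t⌋₊ : ℕ) : ℝ)..(((⌊t⌋₊ : ℕ) : ℝ) + 1), G6 N q a b s := by
          apply sum_le_sum
          intro t ht
          apply unit6 N q a hN b
          exact ⟨Nat.floor_le (hS t ht).1, (Nat.lt_floor_add_one t).le⟩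
      _ = ∑ m ∈ S.image (fun t : ℝ => ⌊t⌋₊), ∫ s in (m : ℝ)..((m : ℝ) + 1), G6 N q a b s := by
          rw [sum_image hinj]
      _ ≤ _ := by
          apply sum_le_sum_of_subset_of_nonneg
          · intro m hm
            rw [mem_image] at hm
            obtain ⟨t, ht, rfl⟩ := hm
            rw [mem_range]
            have := Nat.floor_mono (hS t ht).2
            omega
          · intro m _ _
            exact hmono m
  have h2 : ∑ m ∈ range (⌊T⌋₊ + 1), ∫ t in (m : ℝ)..((m : ℝ) + 1), G6 N q a b t =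
      ∫ t in (0 : ℝ)..((⌊T⌋₊ + 1 : ℕ) : ℝ), G6 N q a b t := by
    have h3 := intervalIntegral.sum_integral_adjacent_intervals (μ := volume) (f := G6 N q a b)
      (a := fun m : ℕ => (m : ℝ)) (n := ⌊T⌋₊ + 1) (fun m _ => (G6_cont N q a b).intervalIntegrable _ _)
    simpa using h3
  have hK : ((⌊T⌋₊ + 1 : ℕ) : ℝ) ≤ T + 1 := by
    push_cast
    have := Nat.floor_le hT
    linarith
  have hK0 : (0 : ℝ) ≤ ((⌊T⌋₊ + 1 : ℕ) : ℝ) := by positivity
  have hint := (wG6_integrable N q a hN b hb (T + 1) (by linarith)).const_mul 3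
  have h3 : ∫ t in (0 : ℝ)..((⌊T⌋₊ + 1 : ℕ) : ℝ), G6 N q a b t ≤
      ∫ t in (0 : ℝ)..((⌊T⌋₊ + 1 : ℕ) : ℝ), 3 * (w (T + 1) t * G6 N q a b t) := by
    apply intervalIntegral.integral_mono_on hK0
    · exact (G6_cont N q a b).intervalIntegrable _ _
    · exact hint.intervalIntegrable
    · intro t ht
      have h4 : 1 ≤ 3 * w (T + 1) t := by
        unfold w
        have h5 : (t / (T + 1)) ^ 2 ≤ 1 := by
          rw [div_pow, div_le_one (by positivity)]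
          have := ht.1
          have := ht.2
          nlinarith
        have h6 : Real.exp (-1) ≤ Real.exp (-(t / (T + 1)) ^ 2) := Real.exp_le_exp.2 (by linarith)
        have h7 : 1 ≤ 3 * Real.exp (-1) := by
          rw [Real.exp_neg]
          have := Real.exp_one_lt_d9
          rw [← div_eq_mul_inv, le_div_iff₀ (Real.exp_pos 1)]
          linarith
        linarith
      have h5 := G6_nonneg N q a b t
      nlinarith
  have h4 : ∫ t in (0 : ℝ)..((⌊T⌋₊ + 1 : ℕ) : ℝ), 3 * (w (T + 1) t * G6 N q a b t) ≤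
      ∫ t : ℝ, 3 * (w (T + 1) t * G6 N q a b t) := by
    rw [intervalIntegral.integral_of_le hK0]
    apply setIntegral_le_integral hint
    refine Filter.Eventually.of_forall fun t => ?_
    have h5 := G6_nonneg N q a b t
    have h6 : 0 < w (T + 1) t := Real.exp_pos _
    show 0 ≤ 3 * (w (T + 1) t * G6 N q a b t)
    positivity
  rw [integral_const_mul] at h4
  linarith

/-- **the hybrid sixth moment with additive twists** -/
theorem hybrid6 {ε : ℝ} (hε : 0 < ε) : ∃ C : ℝ, 1 ≤ C ∧ ∀ (N q : ℕ), 1 ≤ N → 1 ≤ q → ∀ T : ℝ, 1 ≤ T →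
    ∀ b : ℕ → ℂ, (∀ n, ‖b n‖ ≤ 1) → ∀ S : ℕ → Finset ℝ, (∀ a, ∀ t ∈ S a, 0 ≤ t ∧ t ≤ T) →
    (∀ a, ∀ t ∈ S a, ∀ u ∈ S a, t ≠ u → 1 ≤ |t - u|) →
    ∑ a ∈ range q, ∑ t ∈ S a, ‖DD N q a b t‖ ^ 6 ≤
      C * (N : ℝ) ^ ε * ((q + N) * (T + (N : ℝ) ^ 2)) * (N : ℝ) ^ 3 := by
  obtain ⟨C, hC, hfull⟩ := full (ε := ε / 2) (by positivity)
  have hc1 : (1 : ℝ) ≤ 1 + 1 / (ε / 12) := by
    have : 0 ≤ 1 / (ε / 12) := by positivity
    linarith
  refine ⟨132 * (1 + 1 / (ε / 12)) ^ 6 * C, ?_, ?_⟩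
  · have h2 : (1 : ℝ) ≤ (1 + 1 / (ε / 12)) ^ 6 := one_le_pow₀ hc1
    nlinarith
  intro N q hN hq T hT b hb S hS hsep
  have hNr : (1 : ℝ) ≤ N := by exact_mod_cast hN
  have hN0 : (0 : ℝ) < N := by linarith
  have hM : 0 < T + 1 := by linarith
  have hL := LL_ge N hN
  set X : ℝ := C * (N : ℝ) ^ (ε / 2) * ((q + N) * (4 * (T + (N : ℝ) ^ 2))) * (N : ℝ) ^ 3 with hX
  have hX0 : 0 ≤ X := by positivity
  have key : ∀ c : ℕ → ℂ, (∀ n, ‖c n‖ ≤ 1) → ∑ a ∈ range q, ∫ t : ℝ, w (T + 1) t * ‖DD N q a c t‖ ^ 6 ≤ X := by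
    intro c hc
    refine (hfull N q (T + 1) c hN hq hM hc).trans ?_
    rw [hX]
    apply mul_le_mul_of_nonneg_right _ (by positivity)
    apply mul_le_mul_of_nonneg_left _ (by positivity)
    apply mul_le_mul_of_nonneg_left _ (by positivity)
    linarith
  have h1 : ∑ a ∈ range q, ∑ t ∈ S a, ‖DD N q a b t‖ ^ 6 ≤
      ∑ a ∈ range q, (3 * ∫ t : ℝ, w (T + 1) t * G6 N q a b t) := by
    apply sum_le_sum
    intro a _
    exact sep6 N q a hN b hb T (by linarith) (S a) (hS a) (hsep a)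
  have h2 : ∀ a ∈ range q, (3 * ∫ t : ℝ, w (T + 1) t * G6 N q a b t) =
      24 * (∫ t : ℝ, w (T + 1) t * ‖DD N q a b t‖ ^ 6) +
      9 * LL N ^ 6 * (∫ t : ℝ, w (T + 1) t * ‖DD N q a (bb N b) t‖ ^ 6) := by
    intro a _
    have h3 : (∫ t : ℝ, w (T + 1) t * G6 N q a b t) =
        8 * (∫ t : ℝ, w (T + 1) t * ‖DD N q a b t‖ ^ 6) +
        3 * LL N ^ 6 * (∫ t : ℝ, w (T + 1) t * ‖DD N q a (bb N b) t‖ ^ 6) := by
      rw [← integral_const_mul, ← integral_const_mul, ← integral_add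
        ((wD6_integrable N q a b hb (T + 1) hM).const_mul 8)
        ((wD6_integrable N q a (bb N b) (bb_norm N hN b hb) (T + 1) hM).const_mul (3 * LL N ^ 6))]
      congr 1
      ext t
      unfold G6
      ring
    rw [h3]
    ring
  rw [sum_congr rfl h2, sum_add_distrib, ← mul_sum, ← mul_sum] at h1
  have h3 := key b hb
  have h4 := key (bb N b) (bb_norm N hN b hb)
  have hL6 : 1 ≤ LL N ^ 6 := one_le_pow₀ hL
  have hLN : LL N ≤ (1 + 1 / (ε / 12)) * (N : ℝ) ^ (ε / 12) := by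
    unfold LL
    have h2 := Real.log_le_rpow_div hN0.le (show 0 < ε / 12 by positivity)
    have h3 : 1 ≤ (N : ℝ) ^ (ε / 12) := Real.one_le_rpow hNr (by positivity)
    have h4 : (1 + 1 / (ε / 12)) * (N : ℝ) ^ (ε / 12) = (N : ℝ) ^ (ε / 12) + (N : ℝ) ^ (ε / 12) / (ε / 12) := by ring
    linarith
  calc _ ≤ 24 * ∑ a ∈ range q, (∫ t : ℝ, w (T + 1) t * ‖DD N q a b t‖ ^ 6) +
      9 * LL N ^ 6 * ∑ a ∈ range q, (∫ t : ℝ, w (T + 1) t * ‖DD N q a (bb N b) t‖ ^ 6) := h1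
    _ ≤ 24 * X + 9 * LL N ^ 6 * X := by
        apply add_le_add
        · linarith
        · exact mul_le_mul_of_nonneg_left h4 (by positivity)
    _ ≤ 33 * LL N ^ 6 * X := by nlinarith
    _ ≤ 33 * ((1 + 1 / (ε / 12)) * (N : ℝ) ^ (ε / 12)) ^ 6 * X := by
        apply mul_le_mul_of_nonneg_right _ hX0
        apply mul_le_mul_of_nonneg_left _ (by norm_num)
        exact pow_le_pow_left₀ (by linarith) hLN 6
    _ = _ := by
        rw [hX, mul_pow]
        have e1 : ((N : ℝ) ^ (ε / 12)) ^ 6 * (N : ℝ) ^ (ε / 2) = (N : ℝ) ^ ε := by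
          rw [← Real.rpow_natCast, ← Real.rpow_mul hN0.le, ← Real.rpow_add hN0]
          congr 1
          push_cast
          ring
        rw [← e1]
        ring

end Pool.Agent.Q261.L6
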