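import Pool.Agent.Q261.L6.Cells

set_option autoImplicit false

namespace Pool.Agent.Q261.L6

open Finset

lemma card_le_of_Dm {β : ℝ} (hβ : 0 ≤ β) {S : Finset ℤ} (h : Dm β S) : (S.card : ℝ) ≤ β + 1 := by
  rcases S.eq_empty_or_nonempty with h0 | h0
  · subst h0
    simp
    linarith
  · have h1 : S ⊆ Icc (S.min' h0) (S.max' h0) := fun x hx => by
      rw [mem_Icc]
      exact ⟨min'_le _ _ hx, le_max' _ _ hx⟩
    have h2 := card_le_card h1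
    rw [Int.card_Icc] at h2
    have h3 := min'_le _ _ (max'_mem S h0)
    have h4 := (abs_le.1 (h _ (max'_mem S h0) _ (min'_mem S h0))).2
    have h5 : ((S.max' h0 + 1 - S.min' h0).toNat : ℝ) = (S.max' h0 : ℝ) + 1 - S.min' h0 := by
      have : ((S.max' h0 + 1 - S.min' h0).toNat : ℤ) = S.max' h0 + 1 - S.min' h0 :=
        Int.toNat_of_nonneg (by omega)
      exact_mod_cast this
    have h6 : (S.card : ℝ) ≤ ((S.max' h0 + 1 - S.min' h0).toNat : ℝ) := by exact_mod_cast h2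
    linarith

lemma image_Dm {α N : ℝ} (hα : 0 < α) {S : Finset ℤ} (h : Dm N S) :
    Dm (N / α + 1) (S.image (lab α)) := by
  intro a ha b hb
  rw [mem_image] at ha hb
  obtain ⟨x, hx, rfl⟩ := ha
  obtain ⟨y, hy, rfl⟩ := hb
  have h1 := abs_le.1 (h x hx y hy)
  have hx1 := Int.floor_le ((x : ℝ) / α)
  have hx2 := Int.lt_floor_add_one ((x : ℝ) / α)
  have hy1 := Int.floor_le ((y : ℝ) / α)
  have hy2 := Int.lt_floor_add_one ((y : ℝ) / α)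
  have e1 : ((x : ℝ) / α - y / α) ≤ N / α := by
    rw [← sub_div]
    exact div_le_div_of_nonneg_right h1.2 hα.le
  have e2 : -(N / α) ≤ ((x : ℝ) / α - y / α) := by
    rw [← sub_div, ← neg_div]
    exact div_le_div_of_nonneg_right h1.1 hα.le
  unfold lab
  rw [abs_le]
  constructor <;> linarith

lemma image_card {α N : ℝ} (hα : 0 < α) (hN : 0 ≤ N) {S : Finset ℤ} (h : Dm N S) :
    ((S.image (lab α)).card : ℝ) ≤ N / α + 2 := by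
  have := card_le_of_Dm (by positivity) (image_Dm hα h)
  linarith

/-- the sixth moment bound with exponent `l` -/
def Bd (Λ l C : ℝ) : Prop := ∀ (m : ℕ) (ψ : ℤ → ℤ) (c : ℤ → ℂ) (S : Finset ℤ) (N : ℝ), 1 ≤ N →
  Cv Λ ψ S → Gd m ψ S → Dm N S → M6 m ψ c S ≤ C * N ^ l * ((m : ℝ) ^ 2 * e2 c S ^ 3)

/-- the mixed bound -/
def Vb (m : ℕ) (ψ : ℤ → ℤ) (c : ℤ → ℂ) (S0 : Finset ℤ) (d β B : ℝ) : Prop :=
  ∀ S1 S2 : Finset ℤ, S1 ⊆ S0 → S2 ⊆ S0 → Sep d S1 S2 → Dm β S2 →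
    Mx m ψ c S1 S2 ≤ B * ((m : ℝ) ^ 2 * (e2 c S1 * e2 c S2 ^ 2))

lemma Vb_crude {m : ℕ} {ψ : ℤ → ℤ} {S0 : Finset ℤ} (hg : Gd m ψ S0) (c : ℤ → ℂ) {d β : ℝ}
    (hβ : 0 ≤ β) : Vb m ψ c S0 d β ((β + 1) ^ 2) := by
  intro S1 S2 h1 h2 _ hdm
  have h3 := card_le_of_Dm hβ hdm
  have h4 := second (hg.mono h1) c
  have h5 : ∀ ω ∈ Om m, ‖fS m ψ c S1 ω‖ ^ 2 * ‖fS m ψ c S2 ω‖ ^ 4 ≤
      ((β + 1) ^ 2 * e2 c S2 ^ 2) * ‖fS m ψ c S1 ω‖ ^ 2 := by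
    intro ω _
    have h6 := fS_le m ψ c S2 ω
    have h7 : ‖fS m ψ c S2 ω‖ ^ 2 ≤ (β + 1) * e2 c S2 :=
      h6.trans (mul_le_mul_of_nonneg_right h3 (e2_nonneg _ _))
    have h8 : ‖fS m ψ c S2 ω‖ ^ 4 ≤ ((β + 1) * e2 c S2) ^ 2 := by
      calc ‖fS m ψ c S2 ω‖ ^ 4 = (‖fS m ψ c S2 ω‖ ^ 2) ^ 2 := by ring
        _ ≤ _ := pow_le_pow_left₀ (by positivity) h7 2
    calc ‖fS m ψ c S1 ω‖ ^ 2 * ‖fS m ψ c S2 ω‖ ^ 4 ≤ ‖fS m ψ c S1 ω‖ ^ 2 * ((β + 1) * e2 c S2) ^ 2 :=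
        mul_le_mul_of_nonneg_left h8 (by positivity)
      _ = _ := by ring
  unfold Mx
  refine (sum_le_sum h5).trans ?_
  rw [← mul_sum, h4]
  apply le_of_eq
  ring

lemma M6_crude {m : ℕ} {ψ : ℤ → ℤ} {S : Finset ℤ} (hg : Gd m ψ S) (c : ℤ → ℂ) {N : ℝ}
    (hN : 0 ≤ N) (hdm : Dm N S) : M6 m ψ c S ≤ (N + 1) ^ 2 * ((m : ℝ) ^ 2 * e2 c S ^ 3) := by
  have h3 := card_le_of_Dm hN hdm
  have h4 := second hg c
  have h5 : ∀ ω ∈ Om m, ‖fS m ψ c S ω‖ ^ 6 ≤ ((N + 1) ^ 2 * e2 c S ^ 2) * ‖fS m ψ c S ω‖ ^ 2 := by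
    intro ω _
    have h6 := fS_le m ψ c S ω
    have h7 : ‖fS m ψ c S ω‖ ^ 2 ≤ (N + 1) * e2 c S :=
      h6.trans (mul_le_mul_of_nonneg_right h3 (e2_nonneg _ _))
    have h8 : ‖fS m ψ c S ω‖ ^ 4 ≤ ((N + 1) * e2 c S) ^ 2 := by
      calc ‖fS m ψ c S ω‖ ^ 4 = (‖fS m ψ c S ω‖ ^ 2) ^ 2 := by ring
        _ ≤ _ := pow_le_pow_left₀ (by positivity) h7 2
    calc ‖fS m ψ c S ω‖ ^ 6 = ‖fS m ψ c S ω‖ ^ 2 * ‖fS m ψ c S ω‖ ^ 4 := by ring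
      _ ≤ ‖fS m ψ c S ω‖ ^ 2 * ((N + 1) * e2 c S) ^ 2 :=
        mul_le_mul_of_nonneg_left h8 (by positivity)
      _ = _ := by ring
  unfold M6
  refine (sum_le_sum h5).trans ?_
  rw [← mul_sum, h4]
  apply le_of_eq
  ring

lemma e2_sq_cells (c : ℤ → ℂ) (S : Finset ℤ) (l : ℤ → ℤ) (n : ℕ) (hn : 1 ≤ n) :
    ∑ k ∈ S.image l, e2 c (cell l S k) ^ n ≤ e2 c S ^ n := by
  have h1 : ∀ k ∈ S.image l, e2 c (cell l S k) ≤ e2 c S := by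
    intro k hk
    rw [e2_cells c S l]
    exact single_le_sum (f := fun k => e2 c (cell l S k)) (fun _ _ => e2_nonneg _ _) hk
  obtain ⟨j, rfl⟩ : ∃ j, n = j + 1 := ⟨n - 1, by omega⟩
  calc ∑ k ∈ S.image l, e2 c (cell l S k) ^ (j + 1) ≤ ∑ k ∈ S.image l, e2 c S ^ j * e2 c (cell l S k) := by
        apply sum_le_sum
        intro k hk
        rw [pow_succ]
        exact mul_le_mul_of_nonneg_right (pow_le_pow_left₀ (e2_nonneg _ _) (h1 k hk) j) (e2_nonneg _ _)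
    _ = _ := by rw [← mul_sum, ← e2_cells, pow_succ]

/-- the recursion step -/
lemma Vb_step {Λ : ℝ} (hΛ : 1 ≤ Λ) {l C : ℝ} (hC : 0 ≤ C) (hB : Bd Λ l C) {m : ℕ} {ψ : ℤ → ℤ}
    {S0 : Finset ℤ} (hg : Gd m ψ S0) (hcv : Cv Λ ψ S0) (c : ℤ → ℂ) {d β B' : ℝ} (hd : 0 < d)
    (hβ : 1 ≤ β) (hB' : 0 ≤ B') (hV : Vb m ψ c S0 d (7 * Λ * β ^ 2 / d) B') :
    Vb m ψ c S0 d β (3 * √(B' * (C * β ^ l))) := by
  intro S1 S2 h1 h2 hsep hdm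
  have hα : 0 < 7 * Λ * β ^ 2 / d := by positivity
  refine (Mx_step hΛ hg hcv h1 h2 hd hβ hsep hdm c).trans ?_
  have hk : ∀ k ∈ S1.image (lab (7 * Λ * β ^ 2 / d)), Mx m ψ c (cell (lab (7 * Λ * β ^ 2 / d)) S1 k) S2 ≤
      √(B' * (C * β ^ l)) * ((m : ℝ) ^ 2 * (e2 c (cell (lab (7 * Λ * β ^ 2 / d)) S1 k) * e2 c S2 ^ 2)) := by
    intro k _
    set T := cell (lab (7 * Λ * β ^ 2 / d)) S1 k with hT
    have hTS : T ⊆ S1 := cell_sub _ _ _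
    have h3 := Mx_cs m ψ c T S2
    have h4 := hV S2 T h2 (hTS.trans h1) (hsep.mono hTS (subset_refl _)).symm (cell_diam hα S1 k)
    have h5 := hB m ψ c S2 β hβ (hcv.mono h2) (hg.mono h2) hdm
    have he1 := e2_nonneg c T
    have he2 := e2_nonneg c S2
    have h6 : Mx m ψ c T S2 ^ 2 ≤ (√(B' * (C * β ^ l)) * ((m : ℝ) ^ 2 * (e2 c T * e2 c S2 ^ 2))) ^ 2 := by
      have hβl : 0 ≤ β ^ l := Real.rpow_nonneg (by linarith) _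
      rw [mul_pow, Real.sq_sqrt (by positivity)]
      refine h3.trans ?_
      calc Mx m ψ c S2 T * M6 m ψ c S2 ≤ (B' * ((m : ℝ) ^ 2 * (e2 c S2 * e2 c T ^ 2))) *
          (C * β ^ l * ((m : ℝ) ^ 2 * e2 c S2 ^ 3)) :=
            mul_le_mul h4 h5 (M6_nonneg _ _ _ _) (by positivity)
        _ = _ := by ring
    exact le_of_sq_le_sq h6 (by positivity)
  calc 3 * ∑ k ∈ S1.image (lab (7 * Λ * β ^ 2 / d)), Mx m ψ c (cell (lab (7 * Λ * β ^ 2 / d)) S1 k) S2 ≤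
      3 * ∑ k ∈ S1.image (lab (7 * Λ * β ^ 2 / d)),
      √(B' * (C * β ^ l)) * ((m : ℝ) ^ 2 * (e2 c (cell (lab (7 * Λ * β ^ 2 / d)) S1 k) * e2 c S2 ^ 2)) := by
        apply mul_le_mul_of_nonneg_left (sum_le_sum hk) (by norm_num)
    _ = _ := by
        rw [e2_cells c S1 (lab (7 * Λ * β ^ 2 / d)), ← mul_sum, ← mul_sum, ← sum_mul]
        ring

end Pool.Agent.Q261.L6
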