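import Pool.Agent.Q261.L6.Rec

set_option autoImplicit false

namespace Pool.Agent.Q261.L6

open Finset

lemma main_step {Λ : ℝ} (hΛ : 1 ≤ Λ) {l C : ℝ} (hC : 1 ≤ C) (hB : Bd Λ l C)
    {m : ℕ} {ψ : ℤ → ℤ} {S : Finset ℤ} (hg : Gd m ψ S) (hcv : Cv Λ ψ S) (c : ℤ → ℂ) {P M B : ℝ}
    (hM : 1 ≤ M) (hMP : M ≤ P) (hB0 : 0 ≤ B) (hdm : Dm (P * (7 * Λ) ^ 2) S)
    (hV : Vb m ψ c S (P * (7 * Λ) / M) (P / M ^ 2) B) :
    M6 m ψ c S ≤ (4 ^ 6 * (C * (P * (7 * Λ) / M) ^ l) + (3 * (7 * Λ) * M) ^ 12 * B) *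
      ((m : ℝ) ^ 2 * e2 c S ^ 3) := by
  have hP0 : 0 < P := by linarith
  have hM0 : 0 < M := by linarith
  set d := P * (7 * Λ) / M with hd
  set w := P / M ^ 2 with hw
  set R := 3 * (7 * Λ) * M with hR
  have hΛM : 1 ≤ Λ * M := one_le_mul_of_one_le_of_one_le hΛ hM
  have hd0 : 0 < d := by positivity
  have hw0 : 0 < w := by positivity
  have hR1 : 1 ≤ R := by rw [hR]; nlinarith
  have hd1 : 1 ≤ d := by
    rw [hd, le_div_iff₀ hM0]
    nlinarith
  have hK : ((S.image (lab d)).card : ℝ) ≤ R := by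
    refine (image_card hd0 (by positivity) hdm).trans ?_
    have h1 : P * (7 * Λ) ^ 2 / d = 7 * Λ * M := by
      rw [hd]
      field_simp
    rw [h1, hR]
    nlinarith
  have hK2 : ∀ j, (((cell (lab d) S j).image (lab w)).card : ℝ) ≤ R := by
    intro j
    refine (image_card hw0 hd0.le (cell_diam hd0 S j)).trans ?_
    have h1 : d / w = 7 * Λ * M := by
      rw [hd, hw]
      field_simp
    rw [h1, hR]
    nlinarith
  have hm0 : (0 : ℝ) ≤ (m : ℝ) ^ 2 := by positivity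
  have h1 : ∀ ω ∈ Om m, ‖fS m ψ c S ω‖ ^ 6 ≤ 4 ^ 6 * ∑ k ∈ S.image (lab d), ‖fS m ψ c (cell (lab d) S k) ω‖ ^ 6 +
      R ^ 9 * ∑ k ∈ S.image (lab d), ∑ j ∈ (S.image (lab d)).filter (fun j => 2 ≤ |k - j|),
        ‖fS m ψ c (cell (lab d) S k) ω‖ ^ 2 * ‖fS m ψ c (cell (lab d) S j) ω‖ ^ 4 := by
    intro ω _
    rw [fS_cells m ψ c S (lab d) ω]
    exact pointwise _ (fun k => fS m ψ c (cell (lab d) S k) ω) hR1 hK
  have h2 : M6 m ψ c S ≤ 4 ^ 6 * ∑ k ∈ S.image (lab d), M6 m ψ c (cell (lab d) S k) +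
      R ^ 9 * ∑ k ∈ S.image (lab d), ∑ j ∈ (S.image (lab d)).filter (fun j => 2 ≤ |k - j|),
        Mx m ψ c (cell (lab d) S k) (cell (lab d) S j) := by
    unfold M6 Mx
    refine (sum_le_sum h1).trans (le_of_eq ?_)
    rw [sum_add_distrib, ← mul_sum, ← mul_sum, sum_comm]
    congr 2
    rw [sum_comm]
    apply sum_congr rfl
    intro k _
    rw [sum_comm]
  have h3 : ∑ k ∈ S.image (lab d), M6 m ψ c (cell (lab d) S k) ≤ C * d ^ l * ((m : ℝ) ^ 2 * e2 c S ^ 3) := by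
    calc ∑ k ∈ S.image (lab d), M6 m ψ c (cell (lab d) S k) ≤ ∑ k ∈ S.image (lab d),
        C * d ^ l * ((m : ℝ) ^ 2 * e2 c (cell (lab d) S k) ^ 3) := by
          apply sum_le_sum
          intro k _
          exact hB m ψ c _ d hd1 (hcv.mono (cell_sub _ _ _)) (hg.mono (cell_sub _ _ _)) (cell_diam hd0 S k)
      _ = C * d ^ l * ((m : ℝ) ^ 2 * ∑ k ∈ S.image (lab d), e2 c (cell (lab d) S k) ^ 3) := by
          rw [← mul_sum, ← mul_sum]
      _ ≤ _ := by
          apply mul_le_mul_of_nonneg_left _ (mul_nonneg (by linarith) (Real.rpow_nonneg hd0.le _))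
          exact mul_le_mul_of_nonneg_left (e2_sq_cells c S _ 3 (by norm_num)) hm0
  have h4 : ∀ k ∈ S.image (lab d), ∀ j ∈ S.image (lab d), 2 ≤ |k - j| →
      Mx m ψ c (cell (lab d) S k) (cell (lab d) S j) ≤
        R ^ 3 * B * ((m : ℝ) ^ 2 * (e2 c (cell (lab d) S k) * e2 c (cell (lab d) S j) ^ 2)) := by
    intro k _ j _ hkj
    refine (Mx_split c (w := w) (hK2 j)).trans ?_
    have h5 : ∀ i ∈ (cell (lab d) S j).image (lab w), Mx m ψ c (cell (lab d) S k) (cell (lab w) (cell (lab d) S j) i) ≤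
        B * ((m : ℝ) ^ 2 * (e2 c (cell (lab d) S k) * e2 c (cell (lab w) (cell (lab d) S j) i) ^ 2)) := by
      intro i _
      exact hV _ _ (cell_sub _ _ _) ((cell_sub _ _ _).trans (cell_sub _ _ _))
        ((sep_cells hd0 S hkj).mono (subset_refl _) (cell_sub _ _ _)) (cell_diam hw0 _ i)
    calc R ^ 3 * ∑ i ∈ (cell (lab d) S j).image (lab w), Mx m ψ c (cell (lab d) S k) (cell (lab w) (cell (lab d) S j) i) ≤
        R ^ 3 * ∑ i ∈ (cell (lab d) S j).image (lab w),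
          B * ((m : ℝ) ^ 2 * (e2 c (cell (lab d) S k) * e2 c (cell (lab w) (cell (lab d) S j) i) ^ 2)) :=
          mul_le_mul_of_nonneg_left (sum_le_sum h5) (by positivity)
      _ = R ^ 3 * B * ((m : ℝ) ^ 2 * (e2 c (cell (lab d) S k) *
          ∑ i ∈ (cell (lab d) S j).image (lab w), e2 c (cell (lab w) (cell (lab d) S j) i) ^ 2)) := by
          rw [← mul_sum, ← mul_sum, ← mul_sum]
          ring
      _ ≤ _ := by
          apply mul_le_mul_of_nonneg_left _ (by positivity)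
          apply mul_le_mul_of_nonneg_left _ hm0
          exact mul_le_mul_of_nonneg_left (e2_sq_cells c _ _ 2 (by norm_num)) (e2_nonneg _ _)
  have h5 : ∑ k ∈ S.image (lab d), ∑ j ∈ (S.image (lab d)).filter (fun j => 2 ≤ |k - j|),
      Mx m ψ c (cell (lab d) S k) (cell (lab d) S j) ≤ R ^ 3 * B * ((m : ℝ) ^ 2 * e2 c S ^ 3) := by
    calc ∑ k ∈ S.image (lab d), ∑ j ∈ (S.image (lab d)).filter (fun j => 2 ≤ |k - j|),
        Mx m ψ c (cell (lab d) S k) (cell (lab d) S j) ≤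
        ∑ k ∈ S.image (lab d), ∑ j ∈ (S.image (lab d)).filter (fun j => 2 ≤ |k - j|),
        R ^ 3 * B * ((m : ℝ) ^ 2 * (e2 c (cell (lab d) S k) * e2 c (cell (lab d) S j) ^ 2)) := by
          apply sum_le_sum
          intro k hk
          apply sum_le_sum
          intro j hj
          rw [mem_filter] at hj
          exact h4 k hk j hj.1 hj.2
      _ ≤ ∑ k ∈ S.image (lab d), ∑ j ∈ (S.image (lab d)),
        R ^ 3 * B * ((m : ℝ) ^ 2 * (e2 c (cell (lab d) S k) * e2 c (cell (lab d) S j) ^ 2)) := by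
          apply sum_le_sum
          intro k hk
          apply sum_le_sum_of_subset_of_nonneg (filter_subset _ _)
          intro j _ _
          have := e2_nonneg c (cell (lab d) S k)
          positivity
      _ = R ^ 3 * B * ((m : ℝ) ^ 2 * (e2 c S * ∑ j ∈ (S.image (lab d)), e2 c (cell (lab d) S j) ^ 2)) := by
          rw [e2_cells c S (lab d), sum_mul, mul_sum, mul_sum]
          apply sum_congr rfl
          intro k _
          rw [← mul_sum, ← mul_sum, ← mul_sum]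
      _ ≤ R ^ 3 * B * ((m : ℝ) ^ 2 * (e2 c S * e2 c S ^ 2)) := by
          apply mul_le_mul_of_nonneg_left _ (by positivity)
          apply mul_le_mul_of_nonneg_left _ hm0
          exact mul_le_mul_of_nonneg_left (e2_sq_cells c _ _ 2 (by norm_num)) (e2_nonneg _ _)
      _ = _ := by ring
  calc M6 m ψ c S ≤ 4 ^ 6 * ∑ k ∈ S.image (lab d), M6 m ψ c (cell (lab d) S k) +
      R ^ 9 * ∑ k ∈ S.image (lab d), ∑ j ∈ (S.image (lab d)).filter (fun j => 2 ≤ |k - j|),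
        Mx m ψ c (cell (lab d) S k) (cell (lab d) S j) := h2
    _ ≤ 4 ^ 6 * (C * d ^ l * ((m : ℝ) ^ 2 * e2 c S ^ 3)) + R ^ 9 * (R ^ 3 * B * ((m : ℝ) ^ 2 * e2 c S ^ 3)) :=
        add_le_add (mul_le_mul_of_nonneg_left h3 (by norm_num)) (mul_le_mul_of_nonneg_left h5 (by positivity))
    _ = _ := by ring

/-- improving the exponent -/
lemma improve {Λ : ℝ} (hΛ : 1 ≤ Λ) {ε : ℝ} (hε : 0 < ε) (hε1 : ε ≤ 1) : ∃ η : ℝ, 0 < η ∧ η ≤ ε ∧
    ∀ l C : ℝ, ε ≤ l → 1 ≤ C → Bd Λ l C → ∃ C' : ℝ, 1 ≤ C' ∧ ∀ μ : ℝ, l - η ≤ μ → Bd Λ μ C' := by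
  set n : ℕ := ⌈34 / ε⌉₊ with hn
  have hn1 : 34 / ε ≤ n := Nat.le_ceil _
  set κ : ℝ := 1 / 2 ^ (n + 1) with hκ
  have hκ0 : 0 < κ := by positivity
  have hκ1 : κ ≤ 1 := by
    rw [hκ, div_le_one (by positivity)]
    exact one_le_pow₀ (by norm_num)
  refine ⟨κ * ε, by positivity, by nlinarith, ?_⟩
  intro l C hl hC hB
  have hl0 : 0 < l := by linarith
  have h7 : (1 : ℝ) ≤ 7 * Λ := by linarith
  refine ⟨4 ^ 6 * (C * (7 * Λ) ^ l) + 9 * C * (3 * (7 * Λ)) ^ 12 + 4 * ((7 * Λ) ^ 2) ^ 2, ?_, ?_⟩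
  · have e1 : 1 ≤ ((7 * Λ) ^ 2) ^ 2 := one_le_pow₀ (one_le_pow₀ h7)
    have e2 : 0 ≤ 4 ^ 6 * (C * (7 * Λ) ^ l) := by positivity
    have e3 : 0 ≤ 9 * C * (3 * (7 * Λ)) ^ 12 := by positivity
    linarith
  · intro μ hμ m ψ c S N hN hcv hg hdm
    have hμ0 : 0 ≤ μ := by nlinarith
    have hX0 : 0 ≤ (m : ℝ) ^ 2 * e2 c S ^ 3 := by
      have := e2_nonneg c S
      positivity
    have hNμ : 1 ≤ N ^ μ := Real.one_le_rpow hN hμ0
    have e2 : 0 ≤ 4 ^ 6 * (C * (7 * Λ) ^ l) := by positivity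
    have e3 : 0 ≤ 9 * C * (3 * (7 * Λ)) ^ 12 := by positivity
    by_cases hNL : N < (7 * Λ) ^ 2
    · refine (M6_crude hg c (by linarith) hdm).trans (mul_le_mul_of_nonneg_right ?_ hX0)
      have h1 : (N + 1) ^ 2 ≤ 4 * ((7 * Λ) ^ 2) ^ 2 := by
        calc (N + 1) ^ 2 ≤ (2 * (7 * Λ) ^ 2) ^ 2 := by
              apply pow_le_pow_left₀ (by linarith)
              linarith
          _ = _ := by ring
      calc (N + 1) ^ 2 ≤ (4 * ((7 * Λ) ^ 2) ^ 2) * 1 := by linarith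
        _ ≤ _ := by
          apply mul_le_mul _ hNμ (by norm_num) (by positivity)
          linarith
    · push Not at hNL
      have hL0 : 0 < (7 * Λ) ^ 2 := by positivity
      set P := N / (7 * Λ) ^ 2 with hP
      have hPN : P * (7 * Λ) ^ 2 = N := by
        rw [hP]
        field_simp
      have hP1 : 1 ≤ P := by
        rw [hP, one_le_div hL0]
        exact hNL
      have hP0 : 0 < P := by linarith
      have hPleN : P ≤ N := by
        rw [hP]
        exact div_le_self (by linarith) (one_le_pow₀ h7)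
      set M := P ^ κ with hM
      have hM1 : 1 ≤ M := Real.one_le_rpow hP1 hκ0.le
      have hMP : M ≤ P := by
        calc M ≤ P ^ (1 : ℝ) := Real.rpow_le_rpow_of_exponent_le hP1 hκ1
          _ = P := Real.rpow_one _
      have hMpow : M ^ (2 ^ n * 1 + 1) ≤ P := by
        rw [hM, ← Real.rpow_natCast, ← Real.rpow_mul hP0.le]
        calc P ^ (κ * ((2 ^ n * 1 + 1 : ℕ) : ℝ)) ≤ P ^ (1 : ℝ) := by
              apply Real.rpow_le_rpow_of_exponent_le hP1
              push_cast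
              rw [hκ, one_div, inv_mul_le_iff₀ (by positivity), pow_succ]
              have : (1 : ℝ) ≤ 2 ^ n := one_le_pow₀ (by norm_num)
              linarith
          _ = P := Real.rpow_one _
      have hV := Vb_iter hΛ hl0.le hC hB hg hcv c hM1 n 1 le_rfl hMpow
      have h1 := main_step hΛ hC hB hg hcv c hM1 hMP (by positivity) (by rw [hPN]; exact hdm) hV
      refine h1.trans (mul_le_mul_of_nonneg_right ?_ hX0)
      have hM0 : 0 < M := by linarith
      have hln : 34 ≤ l * n := by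
        rw [div_le_iff₀ hε] at hn1
        have : (n : ℝ) * ε ≤ l * n := by nlinarith [Nat.cast_nonneg (α := ℝ) n]
        linarith
      have hPμ : P ^ (l - κ * ε) ≤ N ^ μ := by
        calc P ^ (l - κ * ε) ≤ N ^ (l - κ * ε) := Real.rpow_le_rpow hP0.le hPleN (by nlinarith)
          _ ≤ N ^ μ := Real.rpow_le_rpow_of_exponent_le hN hμ
      have a1 : (P * (7 * Λ) / M) ^ l ≤ (7 * Λ) ^ l * N ^ μ := by
        have b1 : P * (7 * Λ) / M = (7 * Λ) * P ^ (1 - κ) := by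
          rw [Real.rpow_sub hP0, Real.rpow_one, hM]
          ring
        rw [b1, Real.mul_rpow (by linarith) (by positivity), ← Real.rpow_mul hP0.le]
        apply mul_le_mul_of_nonneg_left _ (by positivity)
        refine le_trans ?_ hPμ
        apply Real.rpow_le_rpow_of_exponent_le hP1
        nlinarith
      have a2 : (3 * (7 * Λ) * M) ^ 12 * (9 * C * P ^ (l + 2 / 2 ^ n) * M ^ (-(l * n * ((1 : ℕ) : ℝ) / 2))) ≤
          9 * C * (3 * (7 * Λ)) ^ 12 * N ^ μ := by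
        have b1 : M ^ 12 * (P ^ (l + 2 / 2 ^ n) * M ^ (-(l * n * ((1 : ℕ) : ℝ) / 2))) ≤ N ^ μ := by
          refine le_trans ?_ hPμ
          rw [hM, ← Real.rpow_natCast, ← Real.rpow_mul hP0.le, ← Real.rpow_mul hP0.le, ← Real.rpow_add hP0,
            ← Real.rpow_add hP0]
          apply Real.rpow_le_rpow_of_exponent_le hP1
          have b2 : (2 : ℝ) / 2 ^ n = 4 * κ := by
            rw [hκ, pow_succ]
            field_simp
            norm_num
          rw [b2]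
          push_cast
          nlinarith
        calc (3 * (7 * Λ) * M) ^ 12 * (9 * C * P ^ (l + 2 / 2 ^ n) * M ^ (-(l * n * ((1 : ℕ) : ℝ) / 2))) =
            9 * C * (3 * (7 * Λ)) ^ 12 * (M ^ 12 * (P ^ (l + 2 / 2 ^ n) * M ^ (-(l * n * ((1 : ℕ) : ℝ) / 2)))) := by ring
          _ ≤ _ := mul_le_mul_of_nonneg_left b1 (by positivity)
      calc 4 ^ 6 * (C * (P * (7 * Λ) / M) ^ l) + (3 * (7 * Λ) * M) ^ 12 * (9 * C * P ^ (l + 2 / 2 ^ n) * M ^ (-(l * n * ((1 : ℕ) : ℝ) / 2))) ≤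
          4 ^ 6 * (C * ((7 * Λ) ^ l * N ^ μ)) + 9 * C * (3 * (7 * Λ)) ^ 12 * N ^ μ := by
            apply add_le_add _ a2
            apply mul_le_mul_of_nonneg_left _ (by norm_num)
            exact mul_le_mul_of_nonneg_left a1 (by linarith)
        _ ≤ _ := by
            have : 0 ≤ 4 * ((7 * Λ) ^ 2) ^ 2 * N ^ μ := by positivity
            nlinarith

lemma Bd_two (Λ : ℝ) : Bd Λ 2 4 := by
  intro m ψ c S N hN hcv hg hdm
  refine (M6_crude hg c (by linarith) hdm).trans (mul_le_mul_of_nonneg_right ?_ ?_)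
  · have : N ^ (2 : ℝ) = N ^ 2 := by
      rw [← Real.rpow_natCast]
      norm_num
    rw [this]
    nlinarith
  · have := e2_nonneg c S
    positivity

lemma Bd.mono {Λ l l' C : ℝ} (h : Bd Λ l C) (hC : 0 ≤ C) (hl : l ≤ l') : Bd Λ l' C := by
  intro m ψ c S N hN hcv hg hdm
  refine (h m ψ c S N hN hcv hg hdm).trans (mul_le_mul_of_nonneg_right ?_ ?_)
  · exact mul_le_mul_of_nonneg_left (Real.rpow_le_rpow_of_exponent_le hN hl) hC
  · have := e2_nonneg c S
    positivity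

/-- the sixth moment estimate -/
theorem sixth {Λ : ℝ} (hΛ : 1 ≤ Λ) {ε : ℝ} (hε : 0 < ε) : ∃ C : ℝ, 1 ≤ C ∧ Bd Λ ε C := by
  wlog hε1 : ε ≤ 1 with H
  · obtain ⟨C, hC, h⟩ := H hΛ (ε := 1) one_pos le_rfl
    exact ⟨C, hC, h.mono (by linarith) (by linarith)⟩
  obtain ⟨η, hη, hηε, himp⟩ := improve hΛ hε hε1
  have key : ∀ j : ℕ, ∃ C : ℝ, 1 ≤ C ∧ Bd Λ (max (2 - j * η) ε) C := by
    intro j
    induction j with
    | zero =>
      refine ⟨4, by norm_num, (Bd_two Λ).mono (by norm_num) ?_⟩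
      simp
    | succ j ih =>
      obtain ⟨C, hC, h⟩ := ih
      obtain ⟨C', hC', h'⟩ := himp _ C (le_max_right _ _) hC h
      refine ⟨C', hC', h' _ ?_⟩
      push_cast
      rcases le_total (2 - j * η) ε with h1 | h1
      · rw [max_eq_right h1]
        exact le_trans (by linarith) (le_max_right _ _)
      · rw [max_eq_left h1]
        exact le_trans (by linarith) (le_max_left _ _)
  obtain ⟨j, hj⟩ := exists_nat_ge (2 / η)
  obtain ⟨C, hC, h⟩ := key j
  refine ⟨C, hC, ?_⟩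
  rw [max_eq_right] at h
  · exact h
  · rw [div_le_iff₀ hη] at hj
    linarith

end Pool.Agent.Q261.L6
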