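import Pool.Agent.Q261.L6.Energy
import Pool.Agent.Q261.DR.Kernel
import Pool.Agent.Q261.DR.Moment

set_option autoImplicit false

namespace Pool.Agent.Q261.L6

open Finset MeasureTheory
open Pool.Agent.Q261.DR (ad ad_add ad_conj ad_norm ad_sum w wh wh_bound phi phi_nonneg phi_sum ep quad)

/-- the sum of real values -/
def sl (l : ℤ → ℝ) (x : ℤ × ℤ × ℤ) : ℝ := l x.1 + l x.2.1 + l x.2.2

lemma ep_cube (S : Finset ℤ) (c : ℤ → ℂ) (l : ℤ → ℝ) (t : ℝ) :
    ep S c l t ^ 3 = ep (Tr S) (fun x => pr c x) (sl l) t := by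
  unfold ep
  rw [cube_sum]
  apply sum_congr rfl
  intro x _
  unfold pr sl
  have h : Complex.exp ((((l x.1 + l x.2.1 + l x.2.2) * t : ℝ) : ℂ) * Complex.I) =
      Complex.exp (((l x.1 * t : ℝ) : ℂ) * Complex.I) * Complex.exp (((l x.2.1 * t : ℝ) : ℂ) * Complex.I) *
        Complex.exp (((l x.2.2 * t : ℝ) : ℂ) * Complex.I) := by
    rw [← Complex.exp_add, ← Complex.exp_add]
    congr 1
    push_cast
    ring
  rw [h]
  ring

lemma pr_ad (c : ℤ → ℂ) (q : ℕ) (r : ℕ) (x : ℤ × ℤ × ℤ) :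
    pr (fun n => c n * ad q (r * n)) x = pr c x * ad q (r * sn x) := by
  unfold pr sn
  have h : ad q ((r : ℤ) * (x.1 + x.2.1 + x.2.2)) = ad q (r * x.1) * ad q (r * x.2.1) * ad q (r * x.2.2) := by
    rw [← ad_add, ← ad_add]
    congr 1
    ring
  rw [h]
  ring

/-- the kernel in terms of the integer parts -/
lemma kernel {M H : ℝ} (hM : 0 < M) (hH : 0 < H) {lam : ℝ} {j : ℤ} (hj : |H * lam - j| ≤ 3) :
    ‖wh M lam‖ ≤ 74 * M * phi (2 * H / M + 1) j := by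
  refine (wh_bound M lam hM).trans ?_
  set R := 2 * H / M with hR
  have hR0 : 0 < R := by positivity
  have h1 : lam * M / 2 = (H * lam) / R := by
    rw [hR]
    field_simp
  rw [h1]
  unfold phi
  have key : 1 / (1 + (H * lam / R) ^ 2) ≤ 37 * (1 / (1 + ((j : ℝ) / (R + 1)) ^ 2)) := by
    rw [mul_one_div, div_le_div_iff₀ (by positivity) (by positivity), one_mul]
    have hb := abs_le.1 hj
    have hjsq : ((j : ℝ) / (R + 1)) ^ 2 = (|(j : ℝ)| / (R + 1)) ^ 2 := by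
      rw [div_pow, div_pow, sq_abs]
    rw [hjsq]
    rcases le_total |(j : ℝ)| 6 with h | h
    · have h2 : |(j : ℝ)| / (R + 1) ≤ 6 := by
        rw [div_le_iff₀ (by positivity)]
        nlinarith
      have h3 : (|(j : ℝ)| / (R + 1)) ^ 2 ≤ 6 ^ 2 := pow_le_pow_left₀ (by positivity) h2 2
      have h4 : 0 ≤ (H * lam / R) ^ 2 := by positivity
      linarith
    · have h2 : |(j : ℝ)| / 2 ≤ |H * lam| := by
        have h3 : |(j : ℝ)| - |H * lam| ≤ |(j : ℝ) - H * lam| := abs_sub_abs_le_abs_sub _ _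
        rw [abs_sub_comm] at h3
        linarith
      have h3 : (|(j : ℝ)| / (R + 1)) / 2 ≤ |H * lam / R| := by
        rw [abs_div, abs_of_pos hR0, div_div, div_le_div_iff₀ (by positivity) hR0]
        have := abs_nonneg (j : ℝ)
        nlinarith
      have h4 : ((|(j : ℝ)| / (R + 1)) / 2) ^ 2 ≤ (H * lam / R) ^ 2 := by
        rw [← sq_abs (H * lam / R)]
        exact pow_le_pow_left₀ (by positivity) h3 2
      nlinarith
  calc 2 * M / (1 + (H * lam / R) ^ 2) = 2 * M * (1 / (1 + (H * lam / R) ^ 2)) := by ring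
    _ ≤ 2 * M * (37 * (1 / (1 + ((j : ℝ) / (R + 1)) ^ 2))) := mul_le_mul_of_nonneg_left key (by positivity)
    _ = _ := by ring

lemma sn_diam {S : Finset ℤ} {N : ℝ} (hdm : Dm N S) {x y : ℤ × ℤ × ℤ} (hx : x ∈ Tr S) (hy : y ∈ Tr S) :
    |((sn x - sn y : ℤ) : ℝ)| ≤ 3 * N := by
  rw [mem_Tr] at hx hy
  have h1 := abs_le.1 (hdm _ hx.1 _ hy.1)
  have h2 := abs_le.1 (hdm _ hx.2.1 _ hy.2.1)
  have h3 := abs_le.1 (hdm _ hx.2.2 _ hy.2.2)
  unfold sn
  push_cast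
  rw [abs_le]
  constructor <;> linarith [h1.1, h1.2, h2.1, h2.2, h3.1, h3.2]

/-- the number of multiples of `q` -/
lemma mult_count {N : ℝ} (hN : 0 ≤ N) {q : ℕ} (hq : 1 ≤ q) {I : Finset ℤ} (hI : ∀ i ∈ I, |(i : ℝ)| ≤ 3 * N) :
    ((I.filter fun i => (q : ℤ) ∣ i).card : ℝ) ≤ 6 * N / q + 1 := by
  have hq0 : (0 : ℝ) < q := by exact_mod_cast (by omega : 0 < q)
  have h1 : ((I.filter fun i => (q : ℤ) ∣ i).image fun i => i / (q : ℤ)).card = (I.filter fun i => (q : ℤ) ∣ i).card := by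
    apply card_image_of_injOn
    intro a ha b hb hab
    rw [mem_coe, mem_filter] at ha hb
    have e1 := Int.mul_ediv_cancel' ha.2
    have e2 := Int.mul_ediv_cancel' hb.2
    beta_reduce at hab
    rw [← e1, ← e2, hab]
  rw [← h1]
  apply card_le_of_Dm (by positivity)
  intro a ha b hb
  rw [mem_image] at ha hb
  obtain ⟨x, hx, rfl⟩ := ha
  obtain ⟨y, hy, rfl⟩ := hb
  rw [mem_filter] at hx hy
  obtain ⟨u, hu⟩ := hx.2
  obtain ⟨v, hv⟩ := hy.2
  have hqz : (q : ℤ) ≠ 0 := by omega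
  have e1 : x / (q : ℤ) = u := by rw [hu]; exact Int.mul_ediv_cancel_left _ hqz
  have e2 : y / (q : ℤ) = v := by rw [hv]; exact Int.mul_ediv_cancel_left _ hqz
  rw [e1, e2]
  have h2 := abs_le.1 (hI x hx.1)
  have h3 := abs_le.1 (hI y hy.1)
  have h4 : (x : ℝ) = q * u := by exact_mod_cast hu
  have h5 : (y : ℝ) = q * v := by exact_mod_cast hv
  rw [h4] at h2
  rw [h5] at h3
  have h6 : |(u : ℝ) - v| * q = |((u : ℝ) - v) * q| := by rw [abs_mul, abs_of_pos hq0]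
  rw [le_div_iff₀ hq0, h6, abs_le]
  constructor
  · linarith [h2.1, h2.2, h3.1, h3.2]
  · linarith [h2.1, h2.2, h3.1, h3.2]

/-- the sum against a weight depending on the two differences -/
lemma weighted {ψ : ℤ → ℤ} {a : ℤ → ℝ} {S : Finset ℤ} {E : ℝ} (hE : ∀ i j, En ψ a S i j ≤ E)
    (hE0 : 0 ≤ E) {N : ℝ} (hN : 0 ≤ N) (hdm : Dm N S) {q : ℕ} (hq : 1 ≤ q) {R : ℝ} (hR : 0 < R) :
    ∑ x ∈ Tr S, ∑ y ∈ Tr S, (pr a x * pr a y) * ((if (q : ℤ) ∣ sn x - sn y then 1 else 0) *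
      phi R (sp ψ x - sp ψ y)) ≤ E * ((6 * N / q + 1) * (1 + 4 * R)) := by
  classical
  set T := Tr S ×ˢ Tr S with hT
  set I := T.image fun z => sn z.1 - sn z.2 with hI
  set J := T.image fun z => sp ψ z.1 - sp ψ z.2 with hJ
  have hIb : ∀ i ∈ I, |(i : ℝ)| ≤ 3 * N := by
    intro i hi
    rw [hI, mem_image] at hi
    obtain ⟨z, hz, rfl⟩ := hi
    rw [hT, mem_product] at hz
    exact sn_diam hdm hz.1 hz.2
  have h1 : ∀ x ∈ Tr S, ∀ y ∈ Tr S, (pr a x * pr a y) * ((if (q : ℤ) ∣ sn x - sn y then 1 else 0) *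
      phi R (sp ψ x - sp ψ y)) = ∑ i ∈ I, ∑ j ∈ J, ((if (q : ℤ) ∣ i then 1 else 0) * phi R j) *
        (if sn x - sn y = i ∧ sp ψ x - sp ψ y = j then pr a x * pr a y else 0) := by
    intro x hx y hy
    have hxy : (x, y) ∈ T := mem_product.2 ⟨hx, hy⟩
    have hi : sn x - sn y ∈ I := mem_image.2 ⟨(x, y), hxy, rfl⟩
    have hj : sp ψ x - sp ψ y ∈ J := mem_image.2 ⟨(x, y), hxy, rfl⟩
    rw [sum_eq_single (sn x - sn y), sum_eq_single (sp ψ x - sp ψ y)]
    · rw [if_pos (⟨rfl, rfl⟩ : sn x - sn y = sn x - sn y ∧ sp ψ x - sp ψ y = sp ψ x - sp ψ y)]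
      ring
    · intro j _ hj
      have hn : ¬ (sn x - sn y = sn x - sn y ∧ sp ψ x - sp ψ y = j) := fun h => hj h.2.symm
      rw [if_neg hn, mul_zero]
    · intro h
      exact absurd hj h
    · intro i _ hi
      apply sum_eq_zero
      intro j _
      have hn : ¬ (sn x - sn y = i ∧ sp ψ x - sp ψ y = j) := fun h => hi h.1.symm
      rw [if_neg hn, mul_zero]
    · intro h
      exact absurd hi h
  rw [sum_congr rfl (fun x hx => sum_congr rfl (fun y hy => h1 x hx y hy))]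
  have h2 : ∑ x ∈ Tr S, ∑ y ∈ Tr S, ∑ i ∈ I, ∑ j ∈ J, ((if (q : ℤ) ∣ i then 1 else 0) * phi R j) *
        (if sn x - sn y = i ∧ sp ψ x - sp ψ y = j then pr a x * pr a y else 0) =
      ∑ i ∈ I, ∑ j ∈ J, ((if (q : ℤ) ∣ i then 1 else 0) * phi R j) * En ψ a S i j := by
    calc ∑ x ∈ Tr S, ∑ y ∈ Tr S, ∑ i ∈ I, ∑ j ∈ J, ((if (q : ℤ) ∣ i then 1 else 0) * phi R j) *
        (if sn x - sn y = i ∧ sp ψ x - sp ψ y = j then pr a x * pr a y else 0) =
        ∑ x ∈ Tr S, ∑ i ∈ I, ∑ y ∈ Tr S, ∑ j ∈ J, ((if (q : ℤ) ∣ i then 1 else 0) * phi R j) *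
        (if sn x - sn y = i ∧ sp ψ x - sp ψ y = j then pr a x * pr a y else 0) :=
          sum_congr rfl fun x _ => sum_comm
      _ = ∑ i ∈ I, ∑ x ∈ Tr S, ∑ y ∈ Tr S, ∑ j ∈ J, ((if (q : ℤ) ∣ i then 1 else 0) * phi R j) *
        (if sn x - sn y = i ∧ sp ψ x - sp ψ y = j then pr a x * pr a y else 0) := sum_comm
      _ = ∑ i ∈ I, ∑ x ∈ Tr S, ∑ j ∈ J, ∑ y ∈ Tr S, ((if (q : ℤ) ∣ i then 1 else 0) * phi R j) *
        (if sn x - sn y = i ∧ sp ψ x - sp ψ y = j then pr a x * pr a y else 0) :=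
          sum_congr rfl fun i _ => sum_congr rfl fun x _ => sum_comm
      _ = ∑ i ∈ I, ∑ j ∈ J, ∑ x ∈ Tr S, ∑ y ∈ Tr S, ((if (q : ℤ) ∣ i then 1 else 0) * phi R j) *
        (if sn x - sn y = i ∧ sp ψ x - sp ψ y = j then pr a x * pr a y else 0) :=
          sum_congr rfl fun i _ => sum_comm
      _ = _ := by
          apply sum_congr rfl
          intro i _
          apply sum_congr rfl
          intro j _
          unfold En
          rw [mul_sum]
          apply sum_congr rfl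
          intro x _
          rw [mul_sum]
  rw [h2]
  have hq0 : (0 : ℝ) < q := by exact_mod_cast (by omega : 0 < q)
  calc ∑ i ∈ I, ∑ j ∈ J, ((if (q : ℤ) ∣ i then 1 else 0) * phi R j) * En ψ a S i j ≤
      ∑ i ∈ I, ∑ j ∈ J, ((if (q : ℤ) ∣ i then (1 : ℝ) else 0) * phi R j) * E := by
        apply sum_le_sum
        intro i _
        apply sum_le_sum
        intro j _
        apply mul_le_mul_of_nonneg_left (hE i j)
        have := phi_nonneg R j
        split_ifs <;> simp [this]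
    _ = E * ((∑ i ∈ I, if (q : ℤ) ∣ i then (1 : ℝ) else 0) * ∑ j ∈ J, phi R j) := by
        rw [sum_mul_sum, mul_sum]
        apply sum_congr rfl
        intro i _
        rw [mul_sum]
        apply sum_congr rfl
        intro j _
        ring
    _ ≤ _ := by
        apply mul_le_mul_of_nonneg_left _ hE0
        apply mul_le_mul
        · rw [sum_boole]
          exact mult_count hN hq hIb
        · exact phi_sum R hR J
        · exact sum_nonneg fun j _ => phi_nonneg R j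
        · positivity

/-- the phases come from a convex sequence -/
noncomputable def Ph (H : ℝ) (l : ℤ → ℝ) : ℤ → ℤ := fun n => ⌊H * l n⌋

lemma sp_near {H : ℝ} (l : ℤ → ℝ) (x y : ℤ × ℤ × ℤ) :
    |H * (sl l x - sl l y) - ((sp (Ph H l) x - sp (Ph H l) y : ℤ) : ℝ)| ≤ 3 := by
  have h : ∀ n : ℤ, 0 ≤ H * l n - (Ph H l n : ℝ) ∧ H * l n - (Ph H l n : ℝ) ≤ 1 := by
    intro n
    unfold Ph
    have h1 := Int.floor_le (H * l n)
    have h2 := Int.lt_floor_add_one (H * l n)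
    constructor <;> linarith
  have h1 := h x.1
  have h2 := h x.2.1
  have h3 := h x.2.2
  have h4 := h y.1
  have h5 := h y.2.1
  have h6 := h y.2.2
  unfold sl sp
  push_cast
  rw [abs_le]
  constructor <;> linarith [h1.1, h1.2, h2.1, h2.2, h3.1, h3.2, h4.1, h4.2, h5.1, h5.2, h6.1, h6.2]

lemma pr_norm (c : ℤ → ℂ) (x : ℤ × ℤ × ℤ) : ‖pr c x‖ = pr (fun n => ‖c n‖) x := by
  unfold pr
  rw [norm_mul, norm_mul]

/-- **the hybrid sixth moment** -/
theorem moment6 {Λ : ℝ} (hΛ : 1 ≤ Λ) {ε : ℝ} (hε : 0 < ε) : ∃ C : ℝ, 1 ≤ C ∧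
    ∀ (S : Finset ℤ) (N H : ℝ) (l : ℤ → ℝ), 1 ≤ N → 0 < H → Cv Λ (Ph H l) S → Dm N S →
      ∀ (q : ℕ) (M : ℝ) (c : ℤ → ℂ), 1 ≤ q → 0 < M →
      ∑ r ∈ range q, ∫ t : ℝ, w M t * ‖ep S (fun n => c n * ad q (r * n)) l t‖ ^ 6 ≤
        C * N ^ ε * ((q + N) * (M + H)) * (∑ n ∈ S, ‖c n‖ ^ 2) ^ 3 := by
  obtain ⟨C, hC, h⟩ := energy hΛ hε
  refine ⟨3552 * C, by linarith, ?_⟩
  intro S N H l hN hH hcv hdm q M c hq hM
  have hq0 : (0 : ℝ) < q := by exact_mod_cast (by omega : 0 < q)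
  set ψ := Ph H l with hψ
  have h1 : ((∑ r ∈ range q, ∫ t : ℝ, w M t * ‖ep S (fun n => c n * ad q (r * n)) l t‖ ^ 6 : ℝ) : ℂ) =
      ∑ x ∈ Tr S, ∑ y ∈ Tr S, (pr c x * (starRingEnd ℂ) (pr c y)) *
        (if (q : ℤ) ∣ sn x - sn y then (q : ℂ) else 0) * wh M (sl l x - sl l y) := by
    rw [Complex.ofReal_sum]
    have h2 : ∀ r ∈ range q, ((∫ t : ℝ, w M t * ‖ep S (fun n => c n * ad q (r * n)) l t‖ ^ 6 : ℝ) : ℂ) =
        ∑ x ∈ Tr S, ∑ y ∈ Tr S, (pr c x * (starRingEnd ℂ) (pr c y)) *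
          ad q (r * (sn x - sn y)) * wh M (sl l x - sl l y) := by
      intro r _
      have h3 : ∀ t : ℝ, w M t * ‖ep S (fun n => c n * ad q (r * n)) l t‖ ^ 6 =
          w M t * ‖ep (Tr S) (fun x => pr (fun n => c n * ad q (r * n)) x) (sl l) t‖ ^ 2 := by
        intro t
        rw [← ep_cube, norm_pow]
        ring
      rw [integral_congr_ae (Filter.Eventually.of_forall h3), quad _ _ _ _ hM]
      apply sum_congr rfl
      intro x _
      apply sum_congr rfl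
      intro y _
      congr 1
      rw [pr_ad, pr_ad, map_mul, ad_conj]
      have h4 : ad q ((r : ℤ) * (sn x - sn y)) = ad q (r * sn x) * ad q (-(r * sn y)) := by
        rw [← ad_add]
        congr 1
        ring
      rw [h4]
      ring
    rw [sum_congr rfl h2, sum_comm]
    apply sum_congr rfl
    intro x _
    rw [sum_comm]
    apply sum_congr rfl
    intro y _
    rw [← sum_mul, ← mul_sum, ad_sum q hq]
  have hnn : 0 ≤ ∑ r ∈ range q, ∫ t : ℝ, w M t * ‖ep S (fun n => c n * ad q (r * n)) l t‖ ^ 6 := by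
    apply sum_nonneg
    intro a _
    apply integral_nonneg
    intro t
    have : 0 < w M t := Real.exp_pos _
    positivity
  have h5 : ∑ r ∈ range q, ∫ t : ℝ, w M t * ‖ep S (fun n => c n * ad q (r * n)) l t‖ ^ 6 =
      ‖((∑ r ∈ range q, ∫ t : ℝ, w M t * ‖ep S (fun n => c n * ad q (r * n)) l t‖ ^ 6 : ℝ) : ℂ)‖ := by
    rw [Complex.norm_real, Real.norm_eq_abs, abs_of_nonneg hnn]
  rw [h5, h1]
  have h6 : ∀ x ∈ Tr S, ∀ y ∈ Tr S, ‖(pr c x * (starRingEnd ℂ) (pr c y)) *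
        (if (q : ℤ) ∣ sn x - sn y then (q : ℂ) else 0) * wh M (sl l x - sl l y)‖ ≤
      (74 * M * q) * ((pr (fun n => ‖c n‖) x * pr (fun n => ‖c n‖) y) *
        ((if (q : ℤ) ∣ sn x - sn y then 1 else 0) * phi (2 * H / M + 1) (sp ψ x - sp ψ y))) := by
    intro x _ y _
    rw [norm_mul, norm_mul, norm_mul, Complex.norm_conj, pr_norm, pr_norm]
    have h7 := kernel hM hH (lam := sl l x - sl l y) (j := sp ψ x - sp ψ y) (sp_near l x y)
    have hx := pr_nonneg (a := fun n => ‖c n‖) (fun n => norm_nonneg _) x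
    have hy := pr_nonneg (a := fun n => ‖c n‖) (fun n => norm_nonneg _) y
    split_ifs
    · rw [Complex.norm_natCast]
      calc pr (fun n => ‖c n‖) x * pr (fun n => ‖c n‖) y * (q : ℝ) * ‖wh M (sl l x - sl l y)‖ ≤
          pr (fun n => ‖c n‖) x * pr (fun n => ‖c n‖) y * (q : ℝ) *
            (74 * M * phi (2 * H / M + 1) (sp ψ x - sp ψ y)) :=
            mul_le_mul_of_nonneg_left h7 (by positivity)
        _ = _ := by ring
    · simp
  have h8 : ‖∑ x ∈ Tr S, ∑ y ∈ Tr S, (pr c x * (starRingEnd ℂ) (pr c y)) *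
        (if (q : ℤ) ∣ sn x - sn y then (q : ℂ) else 0) * wh M (sl l x - sl l y)‖ ≤
      (74 * M * q) * ∑ x ∈ Tr S, ∑ y ∈ Tr S, ((pr (fun n => ‖c n‖) x * pr (fun n => ‖c n‖) y) *
        ((if (q : ℤ) ∣ sn x - sn y then 1 else 0) * phi (2 * H / M + 1) (sp ψ x - sp ψ y))) := by
    rw [mul_sum]
    refine (norm_sum_le _ _).trans (sum_le_sum fun x hx => ?_)
    rw [mul_sum]
    exact (norm_sum_le _ _).trans (sum_le_sum fun y hy => h6 x hx y hy)
  set E := C * N ^ ε * (∑ n ∈ S, ‖c n‖ ^ 2) ^ 3 with hE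
  have hE0 : 0 ≤ E := by
    have : 0 ≤ ∑ n ∈ S, ‖c n‖ ^ 2 := sum_nonneg fun _ _ => by positivity
    positivity
  have h9 := weighted (ψ := ψ) (a := fun n => ‖c n‖) (S := S) (E := E)
    (h ψ (fun n => ‖c n‖) S N hN (fun n => norm_nonneg _) hcv hdm) hE0 (by linarith) hdm hq
    (R := 2 * H / M + 1) (by positivity)
  refine h8.trans ((mul_le_mul_of_nonneg_left h9 (by positivity)).trans ?_)
  have e1 : 74 * M * q * (E * ((6 * N / q + 1) * (1 + 4 * (2 * H / M + 1)))) =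
      E * (74 * (6 * N + q) * (5 * M + 8 * H)) := by
    field_simp
    ring
  rw [e1]
  have e2 : 74 * (6 * N + q) * (5 * M + 8 * H) ≤ 3552 * ((q + N) * (M + H)) := by
    have : (6 * N + q) * (5 * M + 8 * H) ≤ (6 * (q + N)) * (8 * (M + H)) := by
      apply mul_le_mul <;> nlinarith
    nlinarith
  calc E * (74 * (6 * N + q) * (5 * M + 8 * H)) ≤ E * (3552 * ((q + N) * (M + H))) :=
        mul_le_mul_of_nonneg_left e2 hE0
    _ = _ := by
        rw [hE]
        ring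

end Pool.Agent.Q261.L6
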