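import Pool.Agent.Q261.L6.Iter

set_option autoImplicit false

namespace Pool.Agent.Q261.L6

open Finset

lemma Vb.mono {m : ℕ} {ψ : ℤ → ℤ} {c : ℤ → ℂ} {S0 : Finset ℤ} {d β B B' : ℝ}
    (h : Vb m ψ c S0 d β B) (hB : B ≤ B') : Vb m ψ c S0 d β B' := by
  intro S1 S2 h1 h2 h3 h4
  refine (h S1 S2 h1 h2 h3 h4).trans (mul_le_mul_of_nonneg_right hB ?_)
  have := e2_nonneg c S1
  positivity

/-- the iteration -/
lemma Vb_iter {Λ : ℝ} (hΛ : 1 ≤ Λ) {l C : ℝ} (hl : 0 ≤ l) (hC : 1 ≤ C) (hB : Bd Λ l C) {m : ℕ}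
    {ψ : ℤ → ℤ} {S0 : Finset ℤ} (hg : Gd m ψ S0) (hcv : Cv Λ ψ S0) (c : ℤ → ℂ) {P M : ℝ}
    (hM : 1 ≤ M) : ∀ n a : ℕ, 1 ≤ a → M ^ (2 ^ n * a + 1) ≤ P →
      Vb m ψ c S0 (P * (7 * Λ) / M) (P / M ^ (a + 1))
        (9 * C * P ^ (l + 2 / 2 ^ n) * M ^ (-(l * n * a / 2))) := by
  intro n
  induction n with
  | zero =>
    intro a ha hP
    have hP1 : 1 ≤ P := (one_le_pow₀ hM).trans hP
    have hP0 : 0 < P := by linarith
    have hM0 : 0 < M := by linarith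
    have hβ1 : 1 ≤ P / M ^ (a + 1) := by
      rw [one_le_div (by positivity)]
      simpa using hP
    have hβ2 : P / M ^ (a + 1) ≤ P := div_le_self hP0.le (one_le_pow₀ hM)
    apply (Vb_crude hg c (by linarith : (0 : ℝ) ≤ P / M ^ (a + 1))).mono
    have e1 : (l + 2 / 2 ^ 0 : ℝ) = l + (2 : ℕ) := by norm_num
    have e2 : (-(l * ((0 : ℕ) : ℝ) * a / 2) : ℝ) = 0 := by simp
    rw [e2, Real.rpow_zero, mul_one, e1, Real.rpow_add_natCast hP0.ne']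
    have e3 : 1 ≤ P ^ l := Real.one_le_rpow hP1 hl
    calc (P / M ^ (a + 1) + 1) ^ 2 ≤ (2 * P) ^ 2 := by
          apply pow_le_pow_left₀ (by linarith)
          linarith
      _ = 4 * 1 * (1 * P ^ 2) := by ring
      _ ≤ 9 * C * (P ^ l * P ^ 2) := by
          apply mul_le_mul
          · linarith
          · apply mul_le_mul_of_nonneg_right e3 (by positivity)
          · positivity
          · positivity
  | succ n ih =>
    intro a ha hP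
    have hP1 : 1 ≤ P := (one_le_pow₀ hM).trans hP
    have hP0 : 0 < P := by linarith
    have hM0 : 0 < M := by linarith
    have hle : M ^ (a + 1) ≤ P := by
      refine (pow_le_pow_right₀ hM ?_).trans hP
      have : 1 ≤ 2 ^ (n + 1) := Nat.one_le_two_pow
      nlinarith
    have hβ1 : 1 ≤ P / M ^ (a + 1) := by
      rw [one_le_div (by positivity)]
      exact hle
    have ih' := ih (2 * a) (by omega) (by
      have : 2 ^ n * (2 * a) + 1 = 2 ^ (n + 1) * a + 1 := by ring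
      rw [this]
      exact hP)
    have hα : 7 * Λ * (P / M ^ (a + 1)) ^ 2 / (P * (7 * Λ) / M) = P / M ^ (2 * a + 1) := by
      field_simp
      ring
    have h1 := Vb_step hΛ (by linarith) hB hg hcv c (d := P * (7 * Λ) / M) (β := P / M ^ (a + 1))
      (B' := 9 * C * P ^ (l + 2 / 2 ^ n) * M ^ (-(l * n * ((2 * a : ℕ) : ℝ) / 2))) (by positivity) hβ1
      (by positivity) (by rw [hα]; exact ih')
    apply h1.mono
    have h2 : 9 * C * P ^ (l + 2 / 2 ^ n) * M ^ (-(l * n * ((2 * a : ℕ) : ℝ) / 2)) *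
        (C * (P / M ^ (a + 1)) ^ l) ≤
        (3 * C * P ^ (l + 2 / 2 ^ (n + 1)) * M ^ (-(l * ((n + 1 : ℕ) : ℝ) * a / 2))) ^ 2 := by
      have e1 : (P / M ^ (a + 1)) ^ l = P ^ l * M ^ (-(l * (a + 1))) := by
        rw [Real.div_rpow hP0.le (by positivity), ← Real.rpow_natCast, ← Real.rpow_mul hM0.le,
          Real.rpow_neg hM0.le, div_eq_mul_inv]
        congr 2
        push_cast
        ring_nf
      have e2 : (P ^ (l + 2 / 2 ^ (n + 1))) ^ 2 = P ^ (l + 2 / 2 ^ n) * P ^ l := by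
        rw [← Real.rpow_natCast, ← Real.rpow_mul hP0.le, ← Real.rpow_add hP0]
        congr 1
        push_cast
        rw [pow_succ]
        field_simp
        ring
      have e3 : (M ^ (-(l * ((n + 1 : ℕ) : ℝ) * a / 2))) ^ 2 = M ^ (-(l * ((n + 1 : ℕ) : ℝ) * a)) := by
        rw [← Real.rpow_natCast, ← Real.rpow_mul hM0.le]
        congr 1
        push_cast
        ring
      have e4 : M ^ (-(l * n * ((2 * a : ℕ) : ℝ) / 2)) * M ^ (-(l * (a + 1))) ≤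
          M ^ (-(l * ((n + 1 : ℕ) : ℝ) * a)) := by
        rw [← Real.rpow_add hM0]
        apply Real.rpow_le_rpow_of_exponent_le hM
        push_cast
        nlinarith
      calc 9 * C * P ^ (l + 2 / 2 ^ n) * M ^ (-(l * n * ((2 * a : ℕ) : ℝ) / 2)) *
          (C * (P / M ^ (a + 1)) ^ l) = 9 * C ^ 2 * (P ^ (l + 2 / 2 ^ n) * P ^ l) *
            (M ^ (-(l * n * ((2 * a : ℕ) : ℝ) / 2)) * M ^ (-(l * (a + 1)))) := by
            rw [e1]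
            ring
        _ ≤ 9 * C ^ 2 * (P ^ (l + 2 / 2 ^ n) * P ^ l) * M ^ (-(l * ((n + 1 : ℕ) : ℝ) * a)) :=
            mul_le_mul_of_nonneg_left e4 (by positivity)
        _ = _ := by
            rw [mul_pow, mul_pow, e2, e3]
            ring
    calc 3 * √(9 * C * P ^ (l + 2 / 2 ^ n) * M ^ (-(l * n * ((2 * a : ℕ) : ℝ) / 2)) *
        (C * (P / M ^ (a + 1)) ^ l)) ≤ 3 * √((3 * C * P ^ (l + 2 / 2 ^ (n + 1)) *
          M ^ (-(l * ((n + 1 : ℕ) : ℝ) * a / 2))) ^ 2) := by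
          apply mul_le_mul_of_nonneg_left (Real.sqrt_le_sqrt h2) (by norm_num)
      _ = _ := by
          rw [Real.sqrt_sq (by positivity)]
          ring

/-- broad and narrow -/
lemma pointwise (K : Finset ℤ) (g : ℤ → ℂ) {R : ℝ} (hR1 : 1 ≤ R) (hR : (K.card : ℝ) ≤ R) :
    ‖∑ k ∈ K, g k‖ ^ 6 ≤ 4 ^ 6 * ∑ k ∈ K, ‖g k‖ ^ 6 +
      R ^ 9 * ∑ k ∈ K, ∑ j ∈ K.filter (fun j => 2 ≤ |k - j|), ‖g k‖ ^ 2 * ‖g j‖ ^ 4 := by
  have hS0 : 0 ≤ ∑ k ∈ K, ∑ j ∈ K.filter (fun j => 2 ≤ |k - j|), ‖g k‖ ^ 2 * ‖g j‖ ^ 4 :=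
    sum_nonneg fun _ _ => sum_nonneg fun _ _ => by positivity
  rcases K.eq_empty_or_nonempty with h0 | h0
  · subst h0
    simp
  obtain ⟨k, hk, hmax⟩ := exists_max_image K (fun k => ‖g k‖) h0
  have hle : ‖∑ k ∈ K, g k‖ ≤ ∑ j ∈ K, ‖g j‖ := norm_sum_le _ _
  by_cases hfar : ∃ j ∈ K, 2 ≤ |k - j| ∧ ‖g k‖ ≤ R * ‖g j‖
  · obtain ⟨j, hj, hkj, hgj⟩ := hfar
    have h1 : ∑ j ∈ K, ‖g j‖ ≤ R * ‖g k‖ := by
      calc ∑ j ∈ K, ‖g j‖ ≤ ∑ j ∈ K, ‖g k‖ := sum_le_sum fun i hi => hmax i hi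
        _ = K.card * ‖g k‖ := by rw [sum_const, nsmul_eq_mul]
        _ ≤ _ := mul_le_mul_of_nonneg_right hR (norm_nonneg _)
    have h2 : ‖∑ k ∈ K, g k‖ ^ 6 ≤ R ^ 9 * (‖g k‖ ^ 3 * ‖g j‖ ^ 3) := by
      calc ‖∑ k ∈ K, g k‖ ^ 6 ≤ (R * ‖g k‖) ^ 6 := pow_le_pow_left₀ (norm_nonneg _) (hle.trans h1) 6
        _ = R ^ 6 * ‖g k‖ ^ 3 * ‖g k‖ ^ 3 := by ring
        _ ≤ R ^ 6 * ‖g k‖ ^ 3 * (R * ‖g j‖) ^ 3 := by
            apply mul_le_mul_of_nonneg_left (pow_le_pow_left₀ (norm_nonneg _) hgj 3) (by positivity)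
        _ = _ := by ring
    have h3 : ∀ a ∈ K, ∀ b ∈ K, 2 ≤ |a - b| → ‖g a‖ ^ 2 * ‖g b‖ ^ 4 ≤
        ∑ k ∈ K, ∑ j ∈ K.filter (fun j => 2 ≤ |k - j|), ‖g k‖ ^ 2 * ‖g j‖ ^ 4 := by
      intro a ha b hb hab
      have h4 : ‖g a‖ ^ 2 * ‖g b‖ ^ 4 ≤ ∑ j ∈ K.filter (fun j => 2 ≤ |a - j|), ‖g a‖ ^ 2 * ‖g j‖ ^ 4 :=
        single_le_sum (f := fun j => ‖g a‖ ^ 2 * ‖g j‖ ^ 4) (fun _ _ => by positivity)
          (mem_filter.2 ⟨hb, hab⟩)
      refine h4.trans ?_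
      exact single_le_sum (f := fun k => ∑ j ∈ K.filter (fun j => 2 ≤ |k - j|), ‖g k‖ ^ 2 * ‖g j‖ ^ 4)
        (fun _ _ => sum_nonneg fun _ _ => by positivity) ha
    have h5 := h3 k hk j hj hkj
    have h6 := h3 j hj k hk (by rw [abs_sub_comm]; exact hkj)
    have h7 : ‖g k‖ ^ 3 * ‖g j‖ ^ 3 ≤ 1 / 2 * (‖g k‖ ^ 2 * ‖g j‖ ^ 4) + 1 / 2 * (‖g j‖ ^ 2 * ‖g k‖ ^ 4) := by
      have : 0 ≤ ‖g k‖ ^ 2 * ‖g j‖ ^ 2 * (‖g k‖ - ‖g j‖) ^ 2 := by positivity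
      nlinarith
    have h8 : 0 ≤ 4 ^ 6 * ∑ k ∈ K, ‖g k‖ ^ 6 :=
      mul_nonneg (by norm_num) (sum_nonneg fun _ _ => by positivity)
    have h9 : R ^ 9 * (‖g k‖ ^ 3 * ‖g j‖ ^ 3) ≤
        R ^ 9 * ∑ k ∈ K, ∑ j ∈ K.filter (fun j => 2 ≤ |k - j|), ‖g k‖ ^ 2 * ‖g j‖ ^ 4 := by
      apply mul_le_mul_of_nonneg_left _ (by positivity)
      linarith
    linarith
  · push_neg at hfar
    have h1 : ∑ j ∈ K.filter (fun j => ¬ 2 ≤ |k - j|), ‖g j‖ ≤ 3 * ‖g k‖ := by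
      have hcard : ((K.filter (fun j => ¬ 2 ≤ |k - j|)).card : ℝ) ≤ 3 := by
        have h2 : K.filter (fun j => ¬ 2 ≤ |k - j|) ⊆ Icc (k - 1) (k + 1) := by
          intro j hj
          rw [mem_filter] at hj
          have := abs_lt.1 (not_le.1 hj.2)
          rw [mem_Icc]
          constructor <;> omega
        have h3 := card_le_card h2
        rw [Int.card_Icc] at h3
        have h4 : (k + 1 + 1 - (k - 1)).toNat = 3 := by omega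
        rw [h4] at h3
        exact_mod_cast h3
      calc ∑ j ∈ K.filter (fun j => ¬ 2 ≤ |k - j|), ‖g j‖ ≤ ∑ j ∈ K.filter (fun j => ¬ 2 ≤ |k - j|), ‖g k‖ :=
            sum_le_sum fun i hi => hmax i (mem_filter.1 hi).1
        _ = ((K.filter (fun j => ¬ 2 ≤ |k - j|)).card : ℝ) * ‖g k‖ := by rw [sum_const, nsmul_eq_mul]
        _ ≤ _ := mul_le_mul_of_nonneg_right hcard (norm_nonneg _)
    have h2 : ∑ j ∈ K.filter (fun j => 2 ≤ |k - j|), ‖g j‖ ≤ ‖g k‖ := by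
      have h3 : ∀ j ∈ K.filter (fun j => 2 ≤ |k - j|), ‖g j‖ ≤ ‖g k‖ / R := by
        intro j hj
        rw [mem_filter] at hj
        have := hfar j hj.1 hj.2
        rw [le_div_iff₀ (by linarith)]
        linarith
      calc ∑ j ∈ K.filter (fun j => 2 ≤ |k - j|), ‖g j‖ ≤ ∑ j ∈ K.filter (fun j => 2 ≤ |k - j|), ‖g k‖ / R :=
            sum_le_sum h3
        _ = ((K.filter (fun j => 2 ≤ |k - j|)).card : ℝ) * (‖g k‖ / R) := by rw [sum_const, nsmul_eq_mul]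
        _ ≤ R * (‖g k‖ / R) := by
            apply mul_le_mul_of_nonneg_right _ (by positivity)
            refine le_trans ?_ hR
            exact_mod_cast card_le_card (filter_subset _ _)
        _ = _ := by field_simp
    have h3 : ‖∑ k ∈ K, g k‖ ≤ 4 * ‖g k‖ := by
      have h4 := sum_filter_add_sum_filter_not K (fun j => 2 ≤ |k - j|) (fun j => ‖g j‖)
      linarith
    have h4 : ‖g k‖ ^ 6 ≤ ∑ k ∈ K, ‖g k‖ ^ 6 :=
      single_le_sum (f := fun k => ‖g k‖ ^ 6) (fun _ _ => by positivity) hk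
    have h5 : ‖∑ k ∈ K, g k‖ ^ 6 ≤ 4 ^ 6 * ‖g k‖ ^ 6 := by
      rw [← mul_pow]
      exact pow_le_pow_left₀ (norm_nonneg _) h3 6
    have h6 : 0 ≤ R ^ 9 * ∑ k ∈ K, ∑ j ∈ K.filter (fun j => 2 ≤ |k - j|), ‖g k‖ ^ 2 * ‖g j‖ ^ 4 :=
      mul_nonneg (by positivity) hS0
    linarith

lemma sep_cells {α : ℝ} (hα : 0 < α) (S : Finset ℤ) {k j : ℤ} (h : 2 ≤ |k - j|) :
    Sep α (cell (lab α) S k) (cell (lab α) S j) := by
  have key : ∀ a b : ℤ, b + 2 ≤ a → ∀ x ∈ cell (lab α) S a, ∀ u ∈ cell (lab α) S b, (u : ℝ) + α ≤ x := by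
    intro a b hab x hx u hu
    rw [mem_cell] at hx hu
    have hx1 := Int.floor_le ((x : ℝ) / α)
    have hu2 := Int.lt_floor_add_one ((u : ℝ) / α)
    have e1 : ⌊(x : ℝ) / α⌋ = a := hx.2
    have e2 : ⌊(u : ℝ) / α⌋ = b := hu.2
    rw [e1, le_div_iff₀ hα] at hx1
    rw [e2, div_lt_iff₀ hα] at hu2
    have h3 : (b : ℝ) + 2 ≤ a := by exact_mod_cast hab
    nlinarith
  rcases le_abs'.1 h with h | h
  · right
    intro x hx u hu
    exact key j k (by omega) u hu x hx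
  · left
    exact key k j (by omega)

/-- splitting the second set -/
lemma Mx_split {m : ℕ} {ψ : ℤ → ℤ} (c : ℤ → ℂ) {S1 S2 : Finset ℤ} {w R : ℝ} 
    (hR : ((S2.image (lab w)).card : ℝ) ≤ R) :
    Mx m ψ c S1 S2 ≤ R ^ 3 * ∑ j ∈ S2.image (lab w), Mx m ψ c S1 (cell (lab w) S2 j) := by
  unfold Mx
  rw [sum_comm, mul_sum]
  apply sum_le_sum
  intro ω _
  have h1 : ‖fS m ψ c S2 ω‖ ≤ ∑ j ∈ S2.image (lab w), ‖fS m ψ c (cell (lab w) S2 j) ω‖ := by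
    rw [fS_cells m ψ c S2 (lab w) ω]
    exact norm_sum_le _ _
  have h2 := pow_sum_le_card_mul_sum_pow (s := S2.image (lab w))
    (f := fun j => ‖fS m ψ c (cell (lab w) S2 j) ω‖) (fun _ _ => norm_nonneg _) 3
  have h3 : ‖fS m ψ c S2 ω‖ ^ 4 ≤ R ^ 3 * ∑ j ∈ S2.image (lab w), ‖fS m ψ c (cell (lab w) S2 j) ω‖ ^ 4 := by
    calc ‖fS m ψ c S2 ω‖ ^ 4 ≤ (∑ j ∈ S2.image (lab w), ‖fS m ψ c (cell (lab w) S2 j) ω‖) ^ 4 :=
          pow_le_pow_left₀ (norm_nonneg _) h1 4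
      _ ≤ _ := h2
      _ ≤ _ := by
          apply mul_le_mul_of_nonneg_right _ (sum_nonneg fun _ _ => by positivity)
          exact pow_le_pow_left₀ (by positivity) hR 3
  calc ‖fS m ψ c S1 ω‖ ^ 2 * ‖fS m ψ c S2 ω‖ ^ 4 ≤ ‖fS m ψ c S1 ω‖ ^ 2 *
      (R ^ 3 * ∑ j ∈ S2.image (lab w), ‖fS m ψ c (cell (lab w) S2 j) ω‖ ^ 4) :=
        mul_le_mul_of_nonneg_left h3 (by positivity)
    _ = _ := by
        rw [mul_left_comm, mul_sum]

end Pool.Agent.Q261.L6
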