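import Pool.Agent.Q261.L6.Hybrid

set_option autoImplicit false

namespace Pool.Agent.Q261.L6

open Finset MeasureTheory
open Pool.Agent.Q261.DR (ad ad_add ad_conj ad_norm ad_sum w wh wh_bound phi ep quad w_integrable w_continuous log_count)

/-- `e(x)` -/
noncomputable def ee (x : ℝ) : ℂ := Complex.exp (((2 * Real.pi * x : ℝ) : ℂ) * Complex.I)

lemma ee_norm (x : ℝ) : ‖ee x‖ = 1 := by
  unfold ee
  rw [Complex.norm_exp_ofReal_mul_I]

lemma ee_add (x y : ℝ) : ee (x + y) = ee x * ee y := by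
  unfold ee
  rw [← Complex.exp_add]
  congr 1
  push_cast
  ring

lemma ad_ee (q : ℕ) (k : ℤ) : ad q k = ee (k / q) := by
  unfold ad ee
  congr 1
  push_cast
  ring

/-- the twisted sum with a real twist -/
noncomputable def epx (S : Finset ℤ) (c : ℤ → ℂ) (l : ℤ → ℝ) (ξ t : ℝ) : ℂ :=
  ep S (fun n => c n * ee (ξ * n)) l t

lemma epx_rat (S : Finset ℤ) (c : ℤ → ℂ) (l : ℤ → ℝ) (q r : ℕ) (t : ℝ) :
    epx S c l ((r : ℝ) / q) t = ep S (fun n => c n * ad q (r * n)) l t := by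
  unfold epx ep
  apply sum_congr rfl
  intro n _
  beta_reduce
  rw [ad_ee]
  congr 3
  push_cast
  ring

/-- the Fourier coefficients of the cube -/
noncomputable def Gj (S : Finset ℤ) (c : ℤ → ℂ) (l : ℤ → ℝ) (t : ℝ) (j : ℤ) : ℂ :=
  ∑ x ∈ (Tr S).filter (fun x => sn x = j), pr (fun n => c n * Complex.exp (((l n * t : ℝ) : ℂ) * Complex.I)) x

lemma epx_cube (S : Finset ℤ) (c : ℤ → ℂ) (l : ℤ → ℝ) (ξ t : ℝ) :
    epx S c l ξ t ^ 3 = ∑ j ∈ (Tr S).image sn, Gj S c l t j * ee (ξ * j) := by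
  unfold epx ep Gj
  rw [cube_sum]
  have h1 : ∀ j ∈ (Tr S).image sn, (∑ x ∈ (Tr S).filter (fun x => sn x = j),
      pr (fun n => c n * Complex.exp (((l n * t : ℝ) : ℂ) * Complex.I)) x) * ee (ξ * j) =
      ∑ x ∈ (Tr S).filter (fun x => sn x = j),
        pr (fun n => c n * ee (ξ * n) * Complex.exp (((l n * t : ℝ) : ℂ) * Complex.I)) x := by
    intro j _
    rw [sum_mul]
    apply sum_congr rfl
    intro x hx
    rw [mem_filter] at hx
    rw [← hx.2]
    unfold pr sn
    have h2 : ee (ξ * ((x.1 + x.2.1 + x.2.2 : ℤ) : ℝ)) = ee (ξ * x.1) * ee (ξ * x.2.1) * ee (ξ * x.2.2) := by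
      rw [← ee_add, ← ee_add]
      congr 1
      push_cast
      ring
    rw [h2]
    ring
  rw [sum_congr rfl h1, sum_fiberwise_of_maps_to (fun x hx => mem_image_of_mem sn hx)]

lemma image_sn_Dm {S : Finset ℤ} {R : ℝ} (hdm : Dm R S) : Dm (3 * R) ((Tr S).image sn) := by
  intro a ha b hb
  rw [mem_image] at ha hb
  obtain ⟨x, hx, rfl⟩ := ha
  obtain ⟨y, hy, rfl⟩ := hb
  have := sn_diam hdm hx hy
  push_cast at this
  exact this

/-- the supremum over the twist is controlled by the mean value over `q` twists, `q > 3 diam S` -/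
lemma supsix {S : Finset ℤ} {R : ℝ} (hR : 0 ≤ R) (hdm : Dm R S) {q : ℕ} (hq : 3 * R < q) (c : ℤ → ℂ)
    (l : ℤ → ℝ) (ξ t : ℝ) : ‖epx S c l ξ t‖ ^ 6 ≤
      (3 * R + 1) / q * ∑ r ∈ range q, ‖ep S (fun n => c n * ad q (r * n)) l t‖ ^ 6 := by
  set J := (Tr S).image sn with hJ
  have hJdm : Dm (3 * R) J := image_sn_Dm hdm
  have hq0 : (0 : ℝ) < q := by linarith
  have hq1 : 1 ≤ q := by
    by_contra h
    have : q = 0 := by omega
    rw [this] at hq0
    simp at hq0
  have h1 : ‖epx S c l ξ t‖ ^ 6 ≤ (3 * R + 1) * ∑ j ∈ J, ‖Gj S c l t j‖ ^ 2 := by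
    have e1 : ‖epx S c l ξ t‖ ^ 6 = ‖epx S c l ξ t ^ 3‖ ^ 2 := by
      rw [norm_pow]
      ring
    rw [e1, epx_cube]
    have h2 : ‖∑ j ∈ J, Gj S c l t j * ee (ξ * j)‖ ≤ ∑ j ∈ J, ‖Gj S c l t j‖ := by
      refine (norm_sum_le _ _).trans (le_of_eq ?_)
      apply sum_congr rfl
      intro j _
      rw [norm_mul, ee_norm, mul_one]
    calc ‖∑ j ∈ J, Gj S c l t j * ee (ξ * j)‖ ^ 2 ≤ (∑ j ∈ J, ‖Gj S c l t j‖) ^ 2 :=
          pow_le_pow_left₀ (norm_nonneg _) h2 2
      _ ≤ J.card * ∑ j ∈ J, ‖Gj S c l t j‖ ^ 2 := sq_sum_le_card_mul_sum_sq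
      _ ≤ _ := by
          apply mul_le_mul_of_nonneg_right _ (sum_nonneg fun _ _ => by positivity)
          exact card_le_of_Dm (by linarith) hJdm
  have h2 : ∑ r ∈ range q, ‖ep S (fun n => c n * ad q (r * n)) l t‖ ^ 6 = q * ∑ j ∈ J, ‖Gj S c l t j‖ ^ 2 := by
    have h3 : ((∑ r ∈ range q, ‖ep S (fun n => c n * ad q (r * n)) l t‖ ^ 6 : ℝ) : ℂ) =
        ((q * ∑ j ∈ J, ‖Gj S c l t j‖ ^ 2 : ℝ) : ℂ) := by
      have h4 : ∀ r ∈ range q, ((‖ep S (fun n => c n * ad q (r * n)) l t‖ ^ 6 : ℝ) : ℂ) =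
          ∑ i ∈ J, ∑ j ∈ J, (Gj S c l t i * (starRingEnd ℂ) (Gj S c l t j)) * ad q (r * (i - j)) := by
        intro r _
        have e1 : ‖ep S (fun n => c n * ad q (r * n)) l t‖ ^ 6 = ‖epx S c l ((r : ℝ) / q) t ^ 3‖ ^ 2 := by
          rw [epx_rat, norm_pow]
          ring
        rw [e1, norm_sq_mul_conj, epx_cube, map_sum, sum_mul_sum]
        apply sum_congr rfl
        intro i _
        apply sum_congr rfl
        intro j _
        have e2 : ∀ i : ℤ, ee ((r : ℝ) / q * i) = ad q (r * i) := by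
          intro i
          rw [ad_ee]
          congr 1
          push_cast
          ring
        rw [e2, e2, map_mul, ad_conj]
        have e3 : ad q ((r : ℤ) * (i - j)) = ad q (r * i) * ad q (-(r * j)) := by
          rw [← ad_add]
          congr 1
          ring
        rw [e3]
        ring
      rw [Complex.ofReal_sum, sum_congr rfl h4, sum_comm]
      push_cast
      rw [mul_sum]
      apply sum_congr rfl
      intro i hi
      rw [sum_comm, sum_eq_single i]
      · rw [← mul_sum, sub_self, ad_sum q hq1, if_pos (dvd_zero _), ← norm_sq_mul_conj]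
        push_cast
        ring
      · intro j hj hji
        rw [← mul_sum, ad_sum q hq1, if_neg, mul_zero]
        intro hdvd
        apply hji
        have h5 := no_wrap hdvd (by
          have h6 := hJdm i hi j hj
          have h7 : ((|i - j| : ℤ) : ℝ) < (q : ℤ) := by
            push_cast
            linarith
          exact_mod_cast h7)
        omega
      · intro h
        exact absurd hi h
    exact_mod_cast h3
  rw [h2]
  refine h1.trans (le_of_eq ?_)
  field_simp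

end Pool.Agent.Q261.L6
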