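import Pool.Agent.Q261.L6.Sup

set_option autoImplicit false

namespace Pool.Agent.Q261.L6

open Finset MeasureTheory
open Pool.Agent.Q261.DR (ad ad_add ad_conj ad_norm ad_sum w wh wh_bound phi ep quad w_integrable w_continuous log_count)

/-- differences of powers -/
lemma pow_diff (m : ℕ) {P : ℝ} (hP : 0 < P) {x y : ℝ} (hx : x ∈ Set.Icc P (2 * P)) (hy : y ∈ Set.Icc P (2 * P))
    (hxy : x ≤ y) : (m + 1) * P ^ m * (y - x) ≤ y ^ (m + 1) - x ^ (m + 1) ∧
      y ^ (m + 1) - x ^ (m + 1) ≤ (m + 1) * (2 * P) ^ m * (y - x) := by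
  have h1 := Commute.mul_geom_sum₂ (Commute.all y x) (m + 1)
  have hx0 : 0 < x := by linarith [hx.1]
  have hy0 : 0 < y := by linarith [hy.1]
  have h2 : (m + 1) * P ^ m ≤ ∑ i ∈ range (m + 1), y ^ i * x ^ (m + 1 - 1 - i) := by
    calc (m + 1) * P ^ m = ∑ i ∈ range (m + 1), P ^ i * P ^ (m - i) := by
          have : ∀ i ∈ range (m + 1), P ^ i * P ^ (m - i) = P ^ m := by
            intro i hi
            rw [mem_range] at hi
            rw [← pow_add]
            congr 1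
            omega
          rw [sum_congr rfl this, sum_const, card_range, nsmul_eq_mul]
          push_cast
          ring
      _ ≤ _ := by
          apply sum_le_sum
          intro i _
          exact mul_le_mul (pow_le_pow_left₀ hP.le hy.1 _) (pow_le_pow_left₀ hP.le hx.1 _) (by positivity) (by positivity)
  have h3 : ∑ i ∈ range (m + 1), y ^ i * x ^ (m + 1 - 1 - i) ≤ (m + 1) * (2 * P) ^ m := by
    calc ∑ i ∈ range (m + 1), y ^ i * x ^ (m + 1 - 1 - i) ≤ ∑ i ∈ range (m + 1), (2 * P) ^ i * (2 * P) ^ (m - i) := by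
          apply sum_le_sum
          intro i _
          exact mul_le_mul (pow_le_pow_left₀ hy0.le hy.2 _) (pow_le_pow_left₀ hx0.le hx.2 _) (by positivity) (by positivity)
      _ = (m + 1) * (2 * P) ^ m := by
          have : ∀ i ∈ range (m + 1), (2 * P) ^ i * (2 * P) ^ (m - i) = (2 * P) ^ m := by
            intro i hi
            rw [mem_range] at hi
            rw [← pow_add]
            congr 1
            omega
          rw [sum_congr rfl this, sum_const, card_range, nsmul_eq_mul]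
          push_cast
          ring
  rw [← h1]
  constructor
  · nlinarith
  · nlinarith

/-- the length of the second coordinate -/
noncomputable def HW (k : ℕ) (P : ℝ) : ℝ := 1 / (2 * Real.pi * (k * (k - 1)) * P ^ (k - 2))

lemma pow_Cv {k : ℕ} (hk : 2 ≤ k) {P : ℝ} (hP : 1 ≤ P) {S : Finset ℤ}
    (hS : ∀ n ∈ S, (n : ℝ) ∈ Set.Icc P (2 * P)) :
    Cv (2 ^ (k - 2)) (Ph (HW k P) (fun n => 2 * Real.pi * (n : ℝ) ^ k)) S := by
  obtain ⟨m, rfl⟩ : ∃ m, k = m + 2 := ⟨k - 2, by omega⟩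
  have hP0 : 0 < P := by linarith
  have hpi := Real.pi_pos
  have hk1 : (((m + 2 : ℕ) : ℝ) - 1) = m + 1 := by push_cast; ring
  have hH : ∀ x : ℝ, HW (m + 2) P * (2 * Real.pi * x ^ (m + 2)) = x ^ (m + 2) / (((m + 2 : ℕ) : ℝ) * (m + 1) * P ^ m) := by
    intro x
    unfold HW
    rw [hk1]
    have e : m + 2 - 2 = m := by omega
    rw [e]
    field_simp
  have h := Cv_of (Λ := 2 ^ m) (one_le_pow₀ (by norm_num)) (A := P) (B := 2 * P)
    (Φ := fun x => x ^ (m + 2) / (((m + 2 : ℕ) : ℝ) * (m + 1) * P ^ m))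
    (Φ' := fun x => x ^ (m + 1) / ((m + 1) * P ^ m)) (σ := 1) (by norm_num) (by
      intro x _
      have h1 := (hasDerivAt_pow (m + 2) x).div_const (((m + 2 : ℕ) : ℝ) * (m + 1) * P ^ m)
      refine h1.congr_deriv ?_
      have e : m + 2 - 1 = m + 1 := by omega
      rw [e]
      push_cast
      field_simp) (by
      intro x hx y hy hxy
      have h1 := pow_diff m hP0 hx hy hxy
      have e1 : 1 * (y ^ (m + 1) / ((m + 1) * P ^ m) - x ^ (m + 1) / ((m + 1) * P ^ m)) =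
          (y ^ (m + 1) - x ^ (m + 1)) / ((m + 1) * P ^ m) := by ring
      beta_reduce
      rw [e1]
      constructor
      · rw [le_div_iff₀ (by positivity)]
        linarith [h1.1]
      · rw [div_le_iff₀ (by positivity)]
        refine h1.2.trans (le_of_eq ?_)
        rw [mul_pow]
        ring) hS
  have e2 : m + 2 - 2 = m := by omega
  rw [e2]
  have e3 : Ph (HW (m + 2) P) (fun n => 2 * Real.pi * (n : ℝ) ^ (m + 2)) =
      fun n : ℤ => ⌊(n : ℝ) ^ (m + 2) / (((m + 2 : ℕ) : ℝ) * (m + 1) * P ^ m)⌋ := by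
    funext n
    unfold Ph
    rw [hH]
  rw [e3]
  exact h

/-- the Weyl sum -/
noncomputable def WS (k N : ℕ) (c : ℕ → ℂ) (t ξ : ℝ) : ℂ := ∑ n ∈ Icc 1 N, c n * ee (t * (n : ℝ) ^ k + ξ * n)

/-- the block as a set of integers -/
def bz (N j : ℕ) : Finset ℤ := (bk N j).image (fun n : ℕ => (n : ℤ))

lemma bz_mem {N j : ℕ} {n : ℤ} (h : n ∈ bz N j) : (n : ℝ) ∈ Set.Icc ((2 : ℝ) ^ j) (2 * 2 ^ j) := by
  unfold bz at h
  rw [mem_image] at h
  obtain ⟨k, hk, rfl⟩ := h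
  have h1 := mem_bk hk
  have h2 : (2 : ℝ) ^ j ≤ k := by exact_mod_cast h1.2.2.1
  have h3 : (k : ℝ) ≤ 2 ^ (j + 1) := by exact_mod_cast h1.2.2.2.le
  rw [pow_succ] at h3
  rw [Int.cast_natCast]
  exact ⟨h2, by linarith⟩

lemma bz_Dm (N j : ℕ) : Dm (2 ^ j) (bz N j) := by
  intro x hx y hy
  have h1 := bz_mem hx
  have h2 := bz_mem hy
  rw [abs_le]
  constructor <;> linarith [h1.1, h1.2, h2.1, h2.2]

lemma bz_e2 (N j : ℕ) (c : ℤ → ℂ) (hc : ∀ n, ‖c n‖ ≤ 1) : ∑ n ∈ bz N j, ‖c n‖ ^ 2 ≤ (2 : ℝ) ^ j := by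
  calc ∑ n ∈ bz N j, ‖c n‖ ^ 2 ≤ ∑ n ∈ bz N j, (1 : ℝ) := by
        apply sum_le_sum
        intro n _
        exact pow_le_one₀ (norm_nonneg _) (hc _)
    _ = (bz N j).card := by simp
    _ ≤ (2 : ℝ) ^ j := by
        have : (bz N j).card ≤ 2 ^ j := card_image_le.trans (bk_card N j)
        exact_mod_cast this

/-- the phases -/
noncomputable def lk (k : ℕ) (n : ℤ) : ℝ := 2 * Real.pi * (n : ℝ) ^ k

/-- the coefficients of the sum around `x` -/
noncomputable def cx (k : ℕ) (c : ℕ → ℂ) (x : ℝ) (n : ℤ) : ℂ := c n.toNat * ee (x * (n : ℝ) ^ k)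

lemma cx_norm (k : ℕ) (c : ℕ → ℂ) (hc : ∀ n, ‖c n‖ ≤ 1) (x : ℝ) (n : ℤ) : ‖cx k c x n‖ ≤ 1 := by
  unfold cx
  rw [norm_mul, ee_norm, mul_one]
  exact hc _

lemma WS_blocks (k N : ℕ) (c : ℕ → ℂ) (x s ξ : ℝ) :
    WS k N c (x + s) ξ = ∑ j ∈ range (Nat.log 2 N + 1), epx (bz N j) (cx k c x) (lk k) ξ s := by
  have h1 : ∀ j, epx (bz N j) (cx k c x) (lk k) ξ s = ∑ n ∈ bk N j, c n * ee ((x + s) * (n : ℝ) ^ k + ξ * n) := by
    intro j
    unfold epx ep bz
    rw [sum_image (fun x _ y _ h => by exact_mod_cast h)]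
    apply sum_congr rfl
    intro n _
    unfold cx lk
    have e1 : ee ((x + s) * (n : ℝ) ^ k + ξ * n) = ee (x * (n : ℝ) ^ k) * ee (ξ * n) * ee (s * (n : ℝ) ^ k) := by
      rw [← ee_add, ← ee_add]
      congr 1
      ring
    rw [e1]
    have e2 : Complex.exp (((2 * Real.pi * (((n : ℕ) : ℤ) : ℝ) ^ k * s : ℝ) : ℂ) * Complex.I) = ee (s * (n : ℝ) ^ k) := by
      unfold ee
      congr 3
      push_cast
      ring
    rw [e2]
    simp only [Int.toNat_natCast, Int.cast_natCast]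
    ring
  rw [sum_congr rfl (fun j _ => h1 j)]
  unfold WS bk
  rw [sum_fiberwise_of_maps_to]
  intro n hn
  rw [mem_Icc] at hn
  rw [mem_range]
  have := Nat.log_mono_right (b := 2) hn.2
  omega

/-- the majorant for one block -/
noncomputable def FB (k N j : ℕ) (c : ℤ → ℂ) (s : ℝ) : ℝ :=
  ∑ r ∈ range (4 * 2 ^ j), ‖ep (bz N j) (fun n => c n * ad (4 * 2 ^ j) (r * n)) (lk k) s‖ ^ 6

lemma FB_nonneg (k N j : ℕ) (c : ℤ → ℂ) (s : ℝ) : 0 ≤ FB k N j c s := sum_nonneg fun _ _ => by positivity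

lemma ep_cont (S : Finset ℤ) (c : ℤ → ℂ) (l : ℤ → ℝ) : Continuous (ep S c l) := by
  unfold ep
  fun_prop

lemma FB_cont (k N j : ℕ) (c : ℤ → ℂ) : Continuous (FB k N j c) := by
  unfold FB
  apply continuous_finsetSum
  intro r _
  have := ep_cont (bz N j) (fun n => c n * ad (4 * 2 ^ j) (r * n)) (lk k)
  fun_prop

lemma sup_FB (k N j : ℕ) (c : ℤ → ℂ) (ξ s : ℝ) : ‖epx (bz N j) c (lk k) ξ s‖ ^ 6 ≤ FB k N j c s := by
  have hj : (1 : ℝ) ≤ 2 ^ j := one_le_pow₀ (by norm_num)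
  have h1 := supsix (R := 2 ^ j) (by positivity) (bz_Dm N j) (q := 4 * 2 ^ j) (by push_cast; linarith) c (lk k) ξ s
  refine h1.trans ?_
  unfold FB
  apply mul_le_of_le_one_left (sum_nonneg fun _ _ => by positivity)
  rw [div_le_one (by positivity)]
  push_cast
  linarith

lemma ep_le (S : Finset ℤ) (c : ℤ → ℂ) (l : ℤ → ℝ) (t : ℝ) : ‖ep S c l t‖ ≤ ∑ n ∈ S, ‖c n‖ := by
  unfold ep
  refine (norm_sum_le _ _).trans (le_of_eq ?_)
  apply sum_congr rfl
  intro n _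
  rw [norm_mul, Complex.norm_exp_ofReal_mul_I, mul_one]

lemma int_ep (S : Finset ℤ) (c : ℤ → ℂ) (l : ℤ → ℝ) {M : ℝ} (hM : 0 < M) :
    Integrable (fun t => w M t * ‖ep S c l t‖ ^ 6) := by
  apply int_w (K := (∑ n ∈ S, ‖c n‖) ^ 6) _ _ hM
  · have := ep_cont S c l
    fun_prop
  · intro t
    rw [abs_of_nonneg (by positivity)]
    exact pow_le_pow_left₀ (norm_nonneg _) (ep_le S c l t) 6

lemma int_FB (k N j : ℕ) (c : ℤ → ℂ) {M : ℝ} (hM : 0 < M) : Integrable (fun t => w M t * FB k N j c t) := by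
  unfold FB
  have h1 : (fun t => w M t * ∑ r ∈ range (4 * 2 ^ j), ‖ep (bz N j) (fun n => c n * ad (4 * 2 ^ j) (r * n)) (lk k) t‖ ^ 6) =
      fun t => ∑ r ∈ range (4 * 2 ^ j), w M t * ‖ep (bz N j) (fun n => c n * ad (4 * 2 ^ j) (r * n)) (lk k) t‖ ^ 6 := by
    funext t
    rw [mul_sum]
  rw [h1]
  apply integrable_finset_sum
  intro r _
  exact int_ep _ _ _ hM

/-- the mean value of the majorant -/
lemma mean_FB {k : ℕ} (hk : 2 ≤ k) {ε : ℝ} (hε : 0 < ε) : ∃ C : ℝ, 1 ≤ C ∧ ∀ (N j : ℕ) (c : ℤ → ℂ) (M : ℝ),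
    (∀ n, ‖c n‖ ≤ 1) → 0 < M → M ≤ 1 / ((2 : ℝ) ^ j) ^ (k - 2) →
    ∫ t : ℝ, w M t * FB k N j c t ≤ C * ((2 : ℝ) ^ j) ^ ε * (((2 : ℝ) ^ j) ^ 4 / ((2 : ℝ) ^ j) ^ (k - 2)) := by
  obtain ⟨C, hC, h⟩ := moment6 (Λ := 2 ^ (k - 2)) (one_le_pow₀ (by norm_num)) hε
  refine ⟨10 * C, by linarith, ?_⟩
  intro N j c M hc hM hMP
  set P : ℝ := 2 ^ j with hP
  have hP1 : 1 ≤ P := one_le_pow₀ (by norm_num)
  have hP0 : 0 < P := by linarith
  have hpi := Real.pi_gt_three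
  have hk2 : (2 : ℝ) ≤ k := by exact_mod_cast hk
  have hH0 : 0 < HW k P := by
    unfold HW
    have : (0 : ℝ) < k - 1 := by linarith
    positivity
  have hHP : HW k P ≤ 1 / P ^ (k - 2) := by
    unfold HW
    apply one_div_le_one_div_of_le (by positivity)
    have h0 : (1 : ℝ) ≤ k * (k - 1) := by nlinarith
    have h1 : 1 ≤ 2 * Real.pi * (k * (k - 1)) := by nlinarith
    have : 0 < P ^ (k - 2) := by positivity
    nlinarith
  have h1 := h (bz N j) P (HW k P) (lk k) hP1 hH0 (pow_Cv hk hP1 (fun n hn => bz_mem hn)) (bz_Dm N j)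
    (4 * 2 ^ j) M c (by have : 1 ≤ 2 ^ j := Nat.one_le_two_pow; omega) hM
  have h2 : ∫ t : ℝ, w M t * FB k N j c t =
      ∑ r ∈ range (4 * 2 ^ j), ∫ t : ℝ, w M t * ‖ep (bz N j) (fun n => c n * ad (4 * 2 ^ j) (r * n)) (lk k) t‖ ^ 6 := by
    rw [← integral_finset_sum _ (fun r _ => int_ep _ _ _ hM)]
    congr 1
    funext t
    unfold FB
    rw [mul_sum]
  rw [h2]
  refine h1.trans ?_
  have h3 := bz_e2 N j c hc
  rw [← hP] at h3
  have h4 : (0 : ℝ) ≤ ∑ n ∈ bz N j, ‖c n‖ ^ 2 := sum_nonneg fun _ _ => by positivity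
  push_cast
  rw [← hP]
  calc C * P ^ ε * ((4 * P + P) * (M + HW k P)) * (∑ n ∈ bz N j, ‖c n‖ ^ 2) ^ 3 ≤
      C * P ^ ε * ((4 * P + P) * (1 / P ^ (k - 2) + 1 / P ^ (k - 2))) * P ^ 3 := by
        apply mul_le_mul
        · apply mul_le_mul_of_nonneg_left _ (by positivity)
          apply mul_le_mul_of_nonneg_left _ (by positivity)
          linarith
        · exact pow_le_pow_left₀ h4 h3 3
        · positivity
        · positivity
    _ = _ := by
        field_simp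
        ring

end Pool.Agent.Q261.L6
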