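import Pool.Agent.Q261.L6.WeylM

set_option autoImplicit false

namespace Pool.Agent.Q261.L6

open Finset MeasureTheory

lemma WS_eq (k N : ℕ) (c : ℕ → ℂ) (t ξ : ℝ) :
    WS k N c t ξ = ∑ n ∈ Icc 1 N, c n * Complex.exp (2 * (Real.pi : ℂ) * Complex.I *
      (((t * (n : ℝ) ^ k + ξ * (n : ℝ)) : ℝ) : ℂ)) := by
  unfold WS ee
  apply sum_congr rfl
  intro n _
  congr 2
  push_cast
  ring

/-- covering an interval by short ones -/
lemma cover_meas {P : ℝ → Prop} {M B y ℓ : ℝ} (hM : 0 < M) (hℓ : 0 ≤ ℓ) (hB : 0 ≤ B)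
    (h : ∀ x : ℝ, volume {t : ℝ | t ∈ Set.Icc x (x + M) ∧ P t} ≤ ENNReal.ofReal B) :
    volume {t : ℝ | t ∈ Set.Icc y (y + ℓ) ∧ P t} ≤ ENNReal.ofReal ((ℓ / M + 1) * B) := by
  set m : ℕ := ⌊ℓ / M⌋₊ + 1 with hm
  have hsub : {t : ℝ | t ∈ Set.Icc y (y + ℓ) ∧ P t} ⊆
      ⋃ i ∈ range m, {t : ℝ | t ∈ Set.Icc (y + i * M) ((y + i * M) + M) ∧ P t} := by
    rintro t ⟨ht, hp⟩
    simp only [Set.mem_iUnion]
    have h0 : 0 ≤ (t - y) / M := div_nonneg (by linarith [ht.1]) hM.le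
    refine ⟨⌊(t - y) / M⌋₊, ?_, ⟨?_, ?_⟩, hp⟩
    · rw [mem_range, hm]
      have : ⌊(t - y) / M⌋₊ ≤ ⌊ℓ / M⌋₊ := Nat.floor_le_floor (by
        apply div_le_div_of_nonneg_right _ hM.le
        linarith [ht.2])
      omega
    · have h1 := Nat.floor_le h0
      rw [le_div_iff₀ hM] at h1
      linarith
    · have h1 := Nat.lt_floor_add_one ((t - y) / M)
      rw [div_lt_iff₀ hM] at h1
      linarith
  calc volume {t : ℝ | t ∈ Set.Icc y (y + ℓ) ∧ P t} ≤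
      volume (⋃ i ∈ range m, {t : ℝ | t ∈ Set.Icc (y + i * M) ((y + i * M) + M) ∧ P t}) := measure_mono hsub
    _ ≤ ∑ i ∈ range m, volume {t : ℝ | t ∈ Set.Icc (y + i * M) ((y + i * M) + M) ∧ P t} :=
        measure_biUnion_finset_le _ _
    _ ≤ ∑ _i ∈ range m, ENNReal.ofReal B := sum_le_sum fun i _ => h _
    _ = ENNReal.ofReal (m * B) := by
        rw [sum_const, card_range, nsmul_eq_mul, ENNReal.ofReal_mul (by positivity), ENNReal.ofReal_natCast]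
    _ ≤ _ := by
        apply ENNReal.ofReal_le_ofReal
        apply mul_le_mul_of_nonneg_right _ hB
        rw [hm]
        push_cast
        have := Nat.floor_le (show 0 ≤ ℓ / M by positivity)
        linarith

/-- every arc -/
theorem weyl_arc {k : ℕ} (hk : 2 ≤ k) {ε : ℝ} (hε : 0 < ε) : ∃ C : ℝ, 0 < C ∧ ∀ N : ℕ, 1 ≤ N →
    ∀ c : ℕ → ℂ, (∀ n, ‖c n‖ ≤ 1) → ∀ q : ℕ, 1 ≤ q → ∀ x η : ℝ, 0 ≤ η →
    volume {t : ℝ | |t - x| ≤ 1 / (q : ℝ) ^ 2 ∧ ∃ ξ : ℝ,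
      (N : ℝ) ^ (1 + ε) * (1 / (q : ℝ) + 1 / (N : ℝ) + (q : ℝ) / (N : ℝ) ^ k) ^ η < ‖WS k N c t ξ‖} ≤
      ENNReal.ofReal (C * (1 / (q : ℝ) ^ 2 + 1 / (N : ℝ) ^ (k - 2)) *
        (((q : ℝ) ^ (6 * η) + (q : ℝ) ^ (k * η)) / (N : ℝ) ^ (2 + ε))) := by
  obtain ⟨C, hC, h⟩ := weyl_measure hk hε
  refine ⟨2 * C, by linarith, ?_⟩
  intro N hN c hc q hq x η hη
  have hNr : (1 : ℝ) ≤ N := by exact_mod_cast hN
  have hN0 : (0 : ℝ) < N := by linarith
  have hqr : (1 : ℝ) ≤ q := by exact_mod_cast hq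
  have hq0 : (0 : ℝ) < q := by linarith
  have hkr : (2 : ℝ) ≤ k := by exact_mod_cast hk
  set V : ℝ := (N : ℝ) ^ (1 + ε) * (1 / (q : ℝ)) ^ η with hV
  have hV0 : 0 < V := by positivity
  have hVle : V ≤ (N : ℝ) ^ (1 + ε) * (1 / (q : ℝ) + 1 / (N : ℝ) + (q : ℝ) / (N : ℝ) ^ k) ^ η := by
    apply mul_le_mul_of_nonneg_left _ (by positivity)
    apply Real.rpow_le_rpow (by positivity) _ hη
    have h1 : 0 ≤ 1 / (N : ℝ) := by positivity
    have h2 : 0 ≤ (q : ℝ) / (N : ℝ) ^ k := by positivity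
    linarith
  set M : ℝ := 1 / (N : ℝ) ^ (k - 2) with hM
  have hM0 : 0 < M := by positivity
  set B : ℝ := C * (N : ℝ) ^ ε * max ((N : ℝ) ^ (6 - (k : ℝ)) / V ^ 6) (1 / V ^ k) with hB
  have hB0 : 0 ≤ B := by
    apply mul_nonneg (by positivity)
    exact le_trans (by positivity) (le_max_right _ _)
  have h1 := cover_meas (P := fun t => ∃ ξ : ℝ, V ≤ ‖WS k N c t ξ‖) (y := x - 1 / (q : ℝ) ^ 2)
    (ℓ := 2 * (1 / (q : ℝ) ^ 2)) hM0 (by positivity) hB0 (fun y => h N hN c hc y V hV0)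
  refine (measure_mono ?_).trans (h1.trans ?_)
  · rintro t ⟨ht, ξ, hξ⟩
    rw [abs_le] at ht
    refine ⟨⟨by linarith [ht.1], by linarith [ht.2]⟩, ξ, ?_⟩
    linarith
  · apply ENNReal.ofReal_le_ofReal
    have hVk : ∀ j : ℕ, 1 / V ^ j = (q : ℝ) ^ ((j : ℝ) * η) / (N : ℝ) ^ ((j : ℝ) * (1 + ε)) := by
      intro j
      rw [hV, mul_pow, ← Real.rpow_natCast ((N : ℝ) ^ (1 + ε)), ← Real.rpow_mul hN0.le,
        ← Real.rpow_natCast ((1 / (q : ℝ)) ^ η), ← Real.rpow_mul (by positivity), one_div (q : ℝ),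
        Real.inv_rpow hq0.le, mul_comm (j : ℝ) η, mul_comm (j : ℝ) (1 + ε)]
      have h2 : 0 < (q : ℝ) ^ (η * j) := by positivity
      have h3 : 0 < (N : ℝ) ^ ((1 + ε) * j) := by positivity
      field_simp
    have hE : (N : ℝ) ^ ε * max ((N : ℝ) ^ (6 - (k : ℝ)) / V ^ 6) (1 / V ^ k) ≤
        ((q : ℝ) ^ (6 * η) + (q : ℝ) ^ (k * η)) / (N : ℝ) ^ (k + ε) := by
      have h2 : max ((N : ℝ) ^ (6 - (k : ℝ)) / V ^ 6) (1 / V ^ k) ≤
          (N : ℝ) ^ (6 - (k : ℝ)) * (1 / V ^ 6) + 1 / V ^ k := by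
        apply max_le
        · rw [mul_one_div]
          exact le_add_of_nonneg_right (by positivity)
        · exact le_add_of_nonneg_left (by positivity)
      refine (mul_le_mul_of_nonneg_left h2 (by positivity)).trans ?_
      rw [hVk, hVk, mul_add, add_div]
      have hNe : 0 < (N : ℝ) ^ ((k : ℝ) + ε) := by positivity
      have hε2 : 0 ≤ ε := hε.le
      apply add_le_add
      · have e1 : (N : ℝ) ^ ε * ((N : ℝ) ^ (6 - (k : ℝ)) * ((q : ℝ) ^ (((6 : ℕ) : ℝ) * η) / (N : ℝ) ^ (((6 : ℕ) : ℝ) * (1 + ε)))) =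
            (q : ℝ) ^ (6 * η) * (N : ℝ) ^ (-(k : ℝ) - 5 * ε) := by
          have e2 : (N : ℝ) ^ (-(k : ℝ) - 5 * ε) = (N : ℝ) ^ ε * (N : ℝ) ^ (6 - (k : ℝ)) / (N : ℝ) ^ (((6 : ℕ) : ℝ) * (1 + ε)) := by
            rw [← Real.rpow_add hN0, ← Real.rpow_sub hN0]
            congr 1
            push_cast
            ring
          rw [e2]
          push_cast
          ring
        rw [e1, div_eq_mul_inv, ← Real.rpow_neg hN0.le]
        apply mul_le_mul_of_nonneg_left _ (by positivity)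
        apply Real.rpow_le_rpow_of_exponent_le hNr
        linarith
      · have e1 : (N : ℝ) ^ ε * ((q : ℝ) ^ ((k : ℝ) * η) / (N : ℝ) ^ ((k : ℝ) * (1 + ε))) =
            (q : ℝ) ^ (k * η) * (N : ℝ) ^ (-(k : ℝ) - (k - 1) * ε) := by
          have e2 : (N : ℝ) ^ (-(k : ℝ) - (k - 1) * ε) = (N : ℝ) ^ ε / (N : ℝ) ^ ((k : ℝ) * (1 + ε)) := by
            rw [← Real.rpow_sub hN0]
            congr 1
            ring
          rw [e2]
          ring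
        rw [e1, div_eq_mul_inv, ← Real.rpow_neg hN0.le]
        apply mul_le_mul_of_nonneg_left _ (by positivity)
        apply Real.rpow_le_rpow_of_exponent_le hNr
        nlinarith
    have hNk : (N : ℝ) ^ (k - 2) * ((N : ℝ) ^ (2 + ε)) = (N : ℝ) ^ ((k : ℝ) + ε) := by
      rw [← Real.rpow_natCast (N : ℝ) (k - 2), ← Real.rpow_add hN0, Nat.cast_sub hk]
      congr 1
      push_cast
      ring
    have hMe : 2 * (1 / (q : ℝ) ^ 2) / M + 1 ≤ 2 * (1 / (q : ℝ) ^ 2 + M) * (N : ℝ) ^ (k - 2) := by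
      have h2 : M * (N : ℝ) ^ (k - 2) = 1 := by
        rw [hM]
        field_simp
      have h3 : 1 / M = (N : ℝ) ^ (k - 2) := by
        rw [hM]
        field_simp
      calc 2 * (1 / (q : ℝ) ^ 2) / M + 1 = 2 * (1 / (q : ℝ) ^ 2) * (1 / M) + 1 := by ring
        _ = 2 * (1 / (q : ℝ) ^ 2) * (N : ℝ) ^ (k - 2) + 1 := by rw [h3]
        _ ≤ 2 * (1 / (q : ℝ) ^ 2) * (N : ℝ) ^ (k - 2) + 2 * (M * (N : ℝ) ^ (k - 2)) := by
            rw [h2]
            linarith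
        _ = _ := by ring
    calc (2 * (1 / (q : ℝ) ^ 2) / M + 1) * B ≤ (2 * (1 / (q : ℝ) ^ 2 + M) * (N : ℝ) ^ (k - 2)) *
          (C * (((q : ℝ) ^ (6 * η) + (q : ℝ) ^ (k * η)) / (N : ℝ) ^ (k + ε))) := by
          apply mul_le_mul hMe _ hB0 (by positivity)
          rw [hB, mul_assoc]
          exact mul_le_mul_of_nonneg_left hE (by linarith)
      _ = 2 * C * (1 / (q : ℝ) ^ 2 + M) * (((q : ℝ) ^ (6 * η) + (q : ℝ) ^ (k * η)) *
          ((N : ℝ) ^ (k - 2) / (N : ℝ) ^ (k + ε))) := by ring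
      _ = _ := by
          rw [← hNk]
          have h2 : 0 < (N : ℝ) ^ (2 + ε) := by positivity
          have h3 : 0 < (N : ℝ) ^ (k - 2) := by positivity
          field_simp

end Pool.Agent.Q261.L6
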