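import Pool.Agent.Q261.L6.Weyl

set_option autoImplicit false

namespace Pool.Agent.Q261.L6

open Finset MeasureTheory
open Pool.Agent.Q261.DR (ad w ep w_integrable w_continuous log_count)

lemma w_ge {M t : ℝ} (hM : 0 < M) (h0 : 0 ≤ t) (h1 : t ≤ M) : 1 ≤ 3 * w M t := by
  unfold w
  have h5 : (t / M) ^ 2 ≤ 1 := by
    rw [div_pow, div_le_one (by positivity)]
    nlinarith
  have h6 : Real.exp (-1) ≤ Real.exp (-(t / M) ^ 2) := Real.exp_le_exp.2 (by linarith)
  have h7 : 1 ≤ 3 * Real.exp (-1) := by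
    rw [Real.exp_neg]
    have := Real.exp_one_lt_d9
    rw [← div_eq_mul_inv, le_div_iff₀ (Real.exp_pos 1)]
    linarith
  linarith

/-- the two regimes for one block -/
lemma two_regimes {k : ℕ} (hk : 2 ≤ k) {P N V : ℝ} (hP : 0 < P) (hPN : P ≤ N) (hV : 0 < V) (hVP : V ≤ 4 * P) :
    P ^ 4 / P ^ (k - 2) / V ^ 6 ≤ 4 ^ k * max (N ^ (6 - (k : ℝ)) / V ^ 6) (1 / V ^ k) := by
  have e1 : P ^ 4 / P ^ (k - 2) = P ^ (6 - (k : ℝ)) := by
    rw [← Real.rpow_natCast P 4, ← Real.rpow_natCast P (k - 2), ← Real.rpow_sub hP]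
    congr 1
    rw [Nat.cast_sub hk]
    push_cast
    ring
  rw [e1]
  have h4k : (1 : ℝ) ≤ 4 ^ k := one_le_pow₀ (by norm_num)
  rcases le_total (k : ℝ) 6 with h | h
  · have h1 : P ^ (6 - (k : ℝ)) ≤ N ^ (6 - (k : ℝ)) := Real.rpow_le_rpow hP.le hPN (by linarith)
    calc P ^ (6 - (k : ℝ)) / V ^ 6 ≤ N ^ (6 - (k : ℝ)) / V ^ 6 := by gcongr
      _ ≤ max (N ^ (6 - (k : ℝ)) / V ^ 6) (1 / V ^ k) := le_max_left _ _
      _ ≤ _ := by
          apply le_mul_of_one_le_left _ h4k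
          refine le_trans ?_ (le_max_right _ _)
          positivity
  · have h1 : P ^ (6 - (k : ℝ)) ≤ (V / 4) ^ (6 - (k : ℝ)) :=
      Real.rpow_le_rpow_of_nonpos (by positivity) (by linarith) (by linarith)
    have h2 : (V / 4) ^ (6 - (k : ℝ)) = V ^ 6 / V ^ k * (4 ^ k / 4 ^ 6) := by
      rw [Real.rpow_sub (by positivity), div_eq_mul_inv V 4]
      have e2 : (V * 4⁻¹) ^ (6 : ℝ) = V ^ 6 / 4 ^ 6 := by
        rw [show (6 : ℝ) = ((6 : ℕ) : ℝ) by norm_num, Real.rpow_natCast, mul_pow]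
        norm_num
        ring
      have e3 : (V * 4⁻¹) ^ (k : ℝ) = V ^ k / 4 ^ k := by
        rw [Real.rpow_natCast, mul_pow, inv_pow]
        ring
      rw [e2, e3]
      field_simp
    calc P ^ (6 - (k : ℝ)) / V ^ 6 ≤ (V / 4) ^ (6 - (k : ℝ)) / V ^ 6 := by gcongr
      _ = 1 / V ^ k * 4 ^ k / 4 ^ 6 := by
          rw [h2]
          field_simp
      _ ≤ 1 / V ^ k * 4 ^ k := by
          apply div_le_self (by positivity)
          norm_num
      _ = 4 ^ k * (1 / V ^ k) := by ring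
      _ ≤ _ := by
          apply mul_le_mul_of_nonneg_left (le_max_right _ _) (by positivity)

lemma geo_small {J : ℕ} {V : ℝ} (hV : 0 < V) :
    ∑ j ∈ (range J).filter (fun j => (2 : ℝ) ^ j < V / 4), (2 : ℝ) ^ j ≤ V / 2 := by
  classical
  rcases ((range J).filter (fun j => (2 : ℝ) ^ j < V / 4)).eq_empty_or_nonempty with h | h
  · rw [h, sum_empty]
    positivity
  · set A := (range J).filter (fun j => (2 : ℝ) ^ j < V / 4) with hA
    have hm := max'_mem A h
    set m := A.max' h with hmdef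
    have hmV : (2 : ℝ) ^ m < V / 4 := (mem_filter.1 hm).2
    calc ∑ j ∈ A, (2 : ℝ) ^ j ≤ ∑ j ∈ range (m + 1), (2 : ℝ) ^ j := by
          apply sum_le_sum_of_subset_of_nonneg
          · intro j hj
            rw [mem_range]
            have := le_max' A j hj
            omega
          · intro j _ _
            positivity
      _ = 2 ^ (m + 1) - 1 := by
          rw [geom_sum_eq (by norm_num)]
          norm_num
      _ ≤ V / 2 := by
          rw [pow_succ]
          linarith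

/-- **the distribution of the maximal function over an interval of length `N^(2-k)`** -/
theorem weyl_measure {k : ℕ} (hk : 2 ≤ k) {ε : ℝ} (hε : 0 < ε) : ∃ C : ℝ, 1 ≤ C ∧ ∀ (N : ℕ), 1 ≤ N →
    ∀ (c : ℕ → ℂ), (∀ n, ‖c n‖ ≤ 1) → ∀ x V : ℝ, 0 < V →
    volume {t : ℝ | t ∈ Set.Icc x (x + 1 / (N : ℝ) ^ (k - 2)) ∧ ∃ ξ : ℝ, V ≤ ‖WS k N c t ξ‖} ≤
      ENNReal.ofReal (C * (N : ℝ) ^ ε * max ((N : ℝ) ^ (6 - (k : ℝ)) / V ^ 6) (1 / V ^ k)) := by
  obtain ⟨C, hC, h⟩ := mean_FB hk (ε := ε / 2) (by positivity)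
  set K : ℝ := (3 + 4 / (ε / 12)) ^ 6 with hK
  have hK1 : 1 ≤ K := one_le_pow₀ (by
    have : 0 ≤ 4 / (ε / 12) := by positivity
    linarith)
  have h4k : (1 : ℝ) ≤ 4 ^ k := one_le_pow₀ (by norm_num)
  refine ⟨K * (3 * 2 ^ 6 * C * 4 ^ k), ?_, ?_⟩
  · have h1 : 1 ≤ 3 * 2 ^ 6 * C * 4 ^ k := by nlinarith
    exact one_le_mul_of_one_le_of_one_le hK1 h1
  intro N hN c hc x V hV
  have hNr : (1 : ℝ) ≤ N := by exact_mod_cast hN
  have hN0 : (0 : ℝ) < N := by linarith
  set M : ℝ := 1 / (N : ℝ) ^ (k - 2) with hM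
  have hM0 : 0 < M := by positivity
  set J : ℕ := Nat.log 2 N + 1 with hJ
  set L : ℝ := (J : ℝ) with hL
  have hL0 : 0 ≤ L := by positivity
  set A := (range J).filter (fun j => ¬ (2 : ℝ) ^ j < V / 4) with hA
  have hpow : ∀ j ∈ range J, (2 : ℝ) ^ j ≤ N := by
    intro j hj
    rw [mem_range] at hj
    have : 2 ^ j ≤ N := (Nat.pow_le_pow_right (by norm_num) (by omega)).trans (Nat.pow_log_le_self 2 (by omega))
    exact_mod_cast this
  -- the majorant
  set F : ℝ → ℝ := fun s => L ^ 5 * ∑ j ∈ A, FB k N j (cx k c x) s with hF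
  have hFc : Continuous F := by
    simp only [hF]
    apply Continuous.mul continuous_const
    exact continuous_finsetSum _ fun j _ => FB_cont k N j _
  have hF0 : ∀ s, 0 ≤ F s := fun s => mul_nonneg (by positivity) (sum_nonneg fun j _ => FB_nonneg k N j _ s)
  have hmaj : ∀ s ξ : ℝ, V ≤ ‖WS k N c (x + s) ξ‖ → (V / 2) ^ 6 ≤ F s := by
    intro s ξ hVs
    rw [WS_blocks] at hVs
    have h1 : ‖∑ j ∈ range J, epx (bz N j) (cx k c x) (lk k) ξ s‖ ≤
        ∑ j ∈ range J, ‖epx (bz N j) (cx k c x) (lk k) ξ s‖ := norm_sum_le _ _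
    have h2 : ∑ j ∈ (range J).filter (fun j => (2 : ℝ) ^ j < V / 4), ‖epx (bz N j) (cx k c x) (lk k) ξ s‖ ≤ V / 2 := by
      refine le_trans ?_ (geo_small (J := J) hV)
      apply sum_le_sum
      intro j _
      unfold epx
      refine (ep_le _ _ _ _).trans ?_
      calc ∑ n ∈ bz N j, ‖cx k c x n * ee (ξ * n)‖ ≤ ∑ n ∈ bz N j, (1 : ℝ) := by
            apply sum_le_sum
            intro n _
            rw [norm_mul, ee_norm, mul_one]
            exact cx_norm k c hc x n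
        _ = (bz N j).card := by simp
        _ ≤ (2 : ℝ) ^ j := by
            have : (bz N j).card ≤ 2 ^ j := card_image_le.trans (bk_card N j)
            exact_mod_cast this
    have h3 : V / 2 ≤ ∑ j ∈ A, ‖epx (bz N j) (cx k c x) (lk k) ξ s‖ := by
      have h1' := sum_filter_add_sum_filter_not (range J) (fun j => (2 : ℝ) ^ j < V / 4)
        (fun j => ‖epx (bz N j) (cx k c x) (lk k) ξ s‖)
      linarith
    have h4 := pow_sum_le_card_mul_sum_pow (s := A)
      (f := fun j => ‖epx (bz N j) (cx k c x) (lk k) ξ s‖) (fun _ _ => norm_nonneg _) 5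
    have h5 : (A.card : ℝ) ≤ L := by
      have h6 : A.card ≤ J := (card_le_card (filter_subset _ _)).trans (by rw [card_range])
      rw [hL]
      exact Nat.cast_le.2 h6
    calc (V / 2) ^ 6 ≤ (∑ j ∈ A, ‖epx (bz N j) (cx k c x) (lk k) ξ s‖) ^ 6 := pow_le_pow_left₀ (by positivity) h3 6
      _ ≤ (A.card : ℝ) ^ 5 * ∑ j ∈ A, ‖epx (bz N j) (cx k c x) (lk k) ξ s‖ ^ 6 := h4
      _ ≤ L ^ 5 * ∑ j ∈ A, FB k N j (cx k c x) s := by
          apply mul_le_mul
          · exact pow_le_pow_left₀ (by positivity) h5 5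
          · exact sum_le_sum fun j _ => sup_FB k N j _ ξ s
          · exact sum_nonneg fun _ _ => by positivity
          · positivity
  -- the integral of the majorant
  have hwF : Integrable (fun s => w M s * F s) := by
    have h1 : (fun s => w M s * F s) = fun s => L ^ 5 * ∑ j ∈ A, w M s * FB k N j (cx k c x) s := by
      funext s
      simp only [hF]
      rw [← mul_sum]
      ring
    rw [h1]
    exact (integrable_finset_sum _ (fun j _ => int_FB k N j _ hM0)).const_mul _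
  set X : ℝ := max ((N : ℝ) ^ (6 - (k : ℝ)) / V ^ 6) (1 / V ^ k) with hX
  have hX0 : 0 ≤ X := le_trans (by positivity) (le_max_right _ _)
  have hint : ∫ s, w M s * F s ≤ L ^ 6 * (C * (N : ℝ) ^ (ε / 2) * (4 ^ k * (X * V ^ 6))) := by
    have h1 : ∫ s, w M s * F s = L ^ 5 * ∑ j ∈ A, ∫ s, w M s * FB k N j (cx k c x) s := by
      rw [← integral_finset_sum _ (fun j _ => int_FB k N j _ hM0), ← integral_const_mul]
      congr 1
      funext s
      simp only [hF]
      rw [← mul_sum]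
      ring
    rw [h1]
    have h2 : ∀ j ∈ A, ∫ s, w M s * FB k N j (cx k c x) s ≤ C * (N : ℝ) ^ (ε / 2) * (4 ^ k * (X * V ^ 6)) := by
      intro j hj
      rw [hA, mem_filter] at hj
      have hjN := hpow j hj.1
      have hPV : V ≤ 4 * 2 ^ j := by
        have := not_lt.1 hj.2
        linarith
      have hPpos : (0 : ℝ) < 2 ^ j := by positivity
      have hMP : M ≤ 1 / ((2 : ℝ) ^ j) ^ (k - 2) := by
        rw [hM]
        apply one_div_le_one_div_of_le (by positivity)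
        exact pow_le_pow_left₀ hPpos.le hjN _
      refine (h N j (cx k c x) M (cx_norm k c hc x) hM0 hMP).trans ?_
      have h3 := two_regimes hk hPpos hjN hV hPV
      rw [← hX] at h3
      have h4 : ((2 : ℝ) ^ j) ^ 4 / ((2 : ℝ) ^ j) ^ (k - 2) ≤ 4 ^ k * (X * V ^ 6) := by
        rw [div_le_iff₀ (by positivity)] at h3
        linarith
      apply mul_le_mul
      · apply mul_le_mul_of_nonneg_left _ (by linarith)
        exact Real.rpow_le_rpow hPpos.le hjN (by positivity)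
      · exact h4
      · positivity
      · positivity
    have h5 : (A.card : ℝ) ≤ L := by
      have h6 : A.card ≤ J := (card_le_card (filter_subset _ _)).trans (by rw [card_range])
      rw [hL]
      exact Nat.cast_le.2 h6
    calc L ^ 5 * ∑ j ∈ A, ∫ s, w M s * FB k N j (cx k c x) s ≤
        L ^ 5 * ∑ j ∈ A, (C * (N : ℝ) ^ (ε / 2) * (4 ^ k * (X * V ^ 6))) :=
          mul_le_mul_of_nonneg_left (sum_le_sum h2) (by positivity)
      _ = L ^ 5 * (A.card * (C * (N : ℝ) ^ (ε / 2) * (4 ^ k * (X * V ^ 6)))) := by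
          rw [sum_const, nsmul_eq_mul]
      _ ≤ L ^ 5 * (L * (C * (N : ℝ) ^ (ε / 2) * (4 ^ k * (X * V ^ 6)))) := by gcongr
      _ = _ := by ring
  -- Markov
  have hsub : {t : ℝ | t ∈ Set.Icc x (x + M) ∧ ∃ ξ : ℝ, V ≤ ‖WS k N c t ξ‖} ⊆
      (fun s => x + s) '' {s : ℝ | (V / 2) ^ 6 / 3 ≤ w M s * F s} := by
    rintro t ⟨ht, ξ, hξ⟩
    refine ⟨t - x, ?_, by simp⟩
    have h1 : V ≤ ‖WS k N c (x + (t - x)) ξ‖ := by
      rw [add_sub_cancel]
      exact hξ
    have h2 := hmaj (t - x) ξ h1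
    have h3 := w_ge hM0 (t := t - x) (by linarith [ht.1]) (by linarith [ht.2])
    show (V / 2) ^ 6 / 3 ≤ w M (t - x) * F (t - x)
    have h4 := hF0 (t - x)
    nlinarith
  have hvol : volume ((fun s => x + s) '' {s : ℝ | (V / 2) ^ 6 / 3 ≤ w M s * F s}) =
      volume {s : ℝ | (V / 2) ^ 6 / 3 ≤ w M s * F s} := by
    rw [Set.image_add_left, measure_preimage_add]
  have hmk := mul_meas_ge_le_integral_of_nonneg (μ := volume) (f := fun s => w M s * F s)
    (Filter.Eventually.of_forall fun s => mul_nonneg (by unfold w; positivity) (hF0 s)) hwF ((V / 2) ^ 6 / 3)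
  have hV6 : 0 < (V / 2) ^ 6 / 3 := by positivity
  have hfin : volume {s : ℝ | (V / 2) ^ 6 / 3 ≤ w M s * F s} ≠ ⊤ := by
    have := hwF.measure_ge_lt_top hV6
    exact this.ne
  refine (measure_mono hsub).trans ?_
  rw [hvol]
  have hreal : (volume {s : ℝ | (V / 2) ^ 6 / 3 ≤ w M s * F s}).toReal ≤
      K * (3 * 2 ^ 6 * C * 4 ^ k) * (N : ℝ) ^ ε * X := by
    have h1 : (V / 2) ^ 6 / 3 * (volume {s : ℝ | (V / 2) ^ 6 / 3 ≤ w M s * F s}).toReal ≤
        L ^ 6 * (C * (N : ℝ) ^ (ε / 2) * (4 ^ k * (X * V ^ 6))) := by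
      refine le_trans ?_ hint
      exact hmk
    have h2 : (volume {s : ℝ | (V / 2) ^ 6 / 3 ≤ w M s * F s}).toReal ≤
        L ^ 6 * (C * (N : ℝ) ^ (ε / 2) * (4 ^ k * (X * V ^ 6))) / ((V / 2) ^ 6 / 3) := by
      rw [le_div_iff₀ hV6]
      linarith
    refine h2.trans ?_
    have h3 : L ^ 6 * (C * (N : ℝ) ^ (ε / 2) * (4 ^ k * (X * V ^ 6))) / ((V / 2) ^ 6 / 3) =
        L ^ 6 * (N : ℝ) ^ (ε / 2) * (3 * 2 ^ 6 * C * 4 ^ k * X) := by
      field_simp
    rw [h3]
    have h4 : L ^ 6 ≤ K * (N : ℝ) ^ (ε / 2) := by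
      have h5 : L ≤ (3 + 4 / (ε / 12)) * (N : ℝ) ^ (ε / 12) := by
        have h6 := log_count (ε / 12) (by positivity) N hN
        rw [hL, hJ]
        push_cast
        have h0 : (0 : ℝ) ≤ Nat.log 2 N := by positivity
        linarith
      calc L ^ 6 ≤ ((3 + 4 / (ε / 12)) * (N : ℝ) ^ (ε / 12)) ^ 6 := pow_le_pow_left₀ hL0 h5 6
        _ = K * (N : ℝ) ^ (ε / 2) := by
            rw [mul_pow, hK, ← Real.rpow_natCast ((N : ℝ) ^ (ε / 12)), ← Real.rpow_mul hN0.le]
            congr 2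
            push_cast
            ring
    calc L ^ 6 * (N : ℝ) ^ (ε / 2) * (3 * 2 ^ 6 * C * 4 ^ k * X) ≤
        (K * (N : ℝ) ^ (ε / 2)) * (N : ℝ) ^ (ε / 2) * (3 * 2 ^ 6 * C * 4 ^ k * X) := by gcongr
      _ = K * ((N : ℝ) ^ (ε / 2) * (N : ℝ) ^ (ε / 2)) * (3 * 2 ^ 6 * C * 4 ^ k * X) := by ring
      _ = _ := by
          rw [← Real.rpow_add hN0]
          have : ε / 2 + ε / 2 = ε := by ring
          rw [this]
          ring
  rw [← ENNReal.ofReal_toReal hfin]
  exact ENNReal.ofReal_le_ofReal hreal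

end Pool.Agent.Q261.L6
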